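import Pool.Agent.QTF.Incl

/-!
# Combinations of maps between products of surfaces which are zero on the forms: classes

`cl i q` is the class of the point `q` of the factor `i` in the vector space `H i`, the points `o i`
are base points, and the differences `cl i q - cl i (o i)` are combinations of the values `h i y` of
the letters `y`.
-/

set_option autoImplicit false

namespace Pool.Agent.QTF

open Pool.Agent.ZIso (fixing)
open scoped Classical

variable {l' : ℕ} {Y W : Type*} [AddCommGroup W] [Module ℚ W]
  {H' : Fin l' → Type*} [∀ j, AddCommGroup (H' j)] [∀ j, Module ℚ (H' j)]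

/-- the value of a combination of letters -/
noncomputable def lcm (h' : ∀ j, Y → H' j) (j : Fin l') : (Y →₀ ℚ) →ₗ[ℚ] H' j :=
  Finsupp.linearCombination ℚ (h' j)

/-- letters on the factors in `S'` -/
noncomputable def lw (h' : ∀ j, Y → H' j) (w : ∀ j, H' j) (S' : Finset (Fin l'))
    (u : Fin l' → (Y →₀ ℚ)) : ∀ j, H' j := fun j => if j ∈ S' then lcm h' j (u j) else w j

private theorem lw_update (h' : ∀ j, Y → H' j) (w : ∀ j, H' j) {S' : Finset (Fin l')}
    (u : Fin l' → (Y →₀ ℚ)) {a : Fin l'} (ha : a ∈ S') (x : Y →₀ ℚ) :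
    lw h' w S' (Function.update u a x) = Function.update (lw h' w S' u) a (lcm h' a x) := by
  funext j
  by_cases hj : j = a
  · subst hj
    rw [Function.update_self, lw, if_pos ha, Function.update_self]
  · rw [Function.update_of_ne hj, lw, lw, Function.update_of_ne hj]

private theorem update_comp_perm {Z : Type*} (u : Fin l' → Z) (a : Fin l') (x : Z)
    (π : Equiv.Perm (Fin l')) :
    Function.update u a x ∘ ⇑π = Function.update (u ∘ ⇑π) (π⁻¹ a) x := by
  funext j
  by_cases hj : j = π⁻¹ a
  · subst hj
    simp
  · rw [Function.update_of_ne hj, Function.comp_apply, Function.update_of_ne, Function.comp_apply]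
    intro h
    exact hj (by rw [← h]; simp)

private theorem gz_mem {r : ℕ} {J : Finset (Fin r)} {π : Equiv.Perm (Fin r)} :
    π ∈ fixing J ↔ ∀ i ∉ J, π i = i := by
  simp [fixing]

/-- a permutation which fixes the complement of `J` maps `S'` to itself -/
private theorem gz_map {J S' : Finset (Fin l')} (hJ : J ⊆ S') {π : Equiv.Perm (Fin l')}
    (h : π ∈ fixing J) {i : Fin l'} (hi : i ∈ S') : π i ∈ S' := by
  by_cases hij : i ∈ J
  · apply hJ
    by_contra hcon
    have h1 := gz_mem.1 h _ hcon
    have h2 : π i = i := π.injective h1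
    rw [h2] at hcon
    exact hcon hij
  · rw [gz_mem.1 h i hij]
    exact hi

private theorem gz_inv {J : Finset (Fin l')} {π : Equiv.Perm (Fin l')} (h : π ∈ fixing J) :
    π⁻¹ ∈ fixing J := by
  rw [gz_mem] at h ⊢
  intro i hi
  exact Equiv.Perm.inv_eq_iff_eq.2 (h i hi).symm

/-- the alternation for combinations of letters -/
theorem alt_letters [Nonempty Y] {h' : ∀ j, Y → H' j} {w : ∀ j, H' j} {S' J : Finset (Fin l')}
    (hJ : J ⊆ S') (E : MultilinearMap ℚ H' W)
    (halt : ∀ y : Fin l' → Y, ∑ π ∈ fixing J, ((Equiv.Perm.sign π : ℤ) : ℚ) •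
      E (fun j => if j ∈ S' then h' j (y (π j)) else w j) = 0) (u : Fin l' → (Y →₀ ℚ)) :
    ∑ π ∈ fixing J, ((Equiv.Perm.sign π : ℤ) : ℚ) • E (lw h' w S' (u ∘ ⇑π)) = 0 := by
  obtain ⟨y₀⟩ := ‹Nonempty Y›
  have key : ∀ (T : Finset (Fin l')) (u : Fin l' → (Y →₀ ℚ)),
      (∀ j ∈ S', j ∉ T → ∃ y, u j = Finsupp.single y 1) →
      ∑ π ∈ fixing J, ((Equiv.Perm.sign π : ℤ) : ℚ) • E (lw h' w S' (u ∘ ⇑π)) = 0 := by
    intro T
    induction T using Finset.induction_on with
    | empty =>
      intro u hu
      have h1 : ∀ j, ∃ y, j ∈ S' → u j = Finsupp.single y 1 := by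
        intro j
        by_cases hj : j ∈ S'
        · obtain ⟨y, hy⟩ := hu j hj (Finset.notMem_empty j)
          exact ⟨y, fun _ => hy⟩
        · exact ⟨y₀, fun h => absurd h hj⟩
      choose y hy using h1
      rw [← halt y]
      refine Finset.sum_congr rfl fun π hπ => ?_
      congr 2
      funext j
      unfold lw
      split_ifs with hj
      · rw [Function.comp_apply, hy _ (gz_map hJ hπ hj), lcm,
          Finsupp.linearCombination_single, one_smul]
      · rfl
    | insert a T haT ih =>
      intro u hu
      by_cases ha : a ∈ S'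
      swap
      · refine ih u fun j hj hjT => hu j hj fun h => ?_
        rcases Finset.mem_insert.1 h with rfl | h
        · exact ha hj
        · exact hjT h
      have hupd : ∀ x : Y →₀ ℚ, ∀ π ∈ fixing J, lw h' w S' (Function.update u a x ∘ ⇑π) =
          Function.update (lw h' w S' (u ∘ ⇑π)) (π⁻¹ a) (lcm h' (π⁻¹ a) x) := by
        intro x π hπ
        rw [update_comp_perm, lw_update h' w _ (gz_map hJ (gz_inv hπ) ha)]
      have main : ∀ x : Y →₀ ℚ, ∑ π ∈ fixing J, ((Equiv.Perm.sign π : ℤ) : ℚ) •
          E (lw h' w S' (Function.update u a x ∘ ⇑π)) = 0 := by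
        intro x
        induction x using Finsupp.induction_linear with
        | zero =>
          refine Finset.sum_eq_zero fun π hπ => ?_
          rw [hupd 0 π hπ, map_zero, E.map_update_zero, smul_zero]
        | add x x' hx hx' =>
          rw [← add_zero (0 : W)]
          nth_rw 1 [← hx]
          rw [← hx', ← Finset.sum_add_distrib]
          refine Finset.sum_congr rfl fun π hπ => ?_
          rw [hupd _ π hπ, hupd _ π hπ, hupd _ π hπ, map_add, E.map_update_add, smul_add]
        | single y c =>
          have h1 : ∀ π ∈ fixing J, ((Equiv.Perm.sign π : ℤ) : ℚ) •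
              E (lw h' w S' (Function.update u a (Finsupp.single y c) ∘ ⇑π)) =
              c • (((Equiv.Perm.sign π : ℤ) : ℚ) •
                E (lw h' w S' (Function.update u a (Finsupp.single y 1) ∘ ⇑π))) := by
            intro π hπ
            have h2 : Finsupp.single y c = c • Finsupp.single y (1 : ℚ) := by
              rw [Finsupp.smul_single, smul_eq_mul, mul_one]
            rw [hupd _ π hπ, hupd _ π hπ, h2, map_smul, E.map_update_smul, smul_comm]
          rw [Finset.sum_congr rfl h1, ← Finset.smul_sum, ih, smul_zero]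
          intro j hj hjT
          by_cases hja : j = a
          · subst hja
            exact ⟨y, by rw [Function.update_self]⟩
          · rw [Function.update_of_ne hja]
            exact hu j hj fun h => (Finset.mem_insert.1 h).elim hja hjT
      have h3 := main (u a)
      rwa [Function.update_eq_self] at h3
  exact key Finset.univ u fun j _ hj => absurd (Finset.mem_univ j) hj

variable {l : ℕ} {C M : Type*} {P : Fin l → Type*} {P' : Fin l' → Type*} {H : Fin l → Type*}
  [∀ i, AddCommGroup (H i)] [∀ i, Module ℚ (H i)]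

/-- the point of the product with the base point in the factors outside `U` -/
noncomputable def prB (o : ∀ i, P i) (U : Finset (Fin l)) (z : ∀ i, P i) : ∀ i, P i :=
  fun i => if i ∈ U then z i else o i

/-- **Combinations of morphisms which are zero on the forms**, for fixed sets `S` and `S'`. -/
theorem grZ [Nonempty Y] (c : Fin l → C) (c' : Fin l' → C) (d : C → ℕ)
    (src : M → Fin l' → Option (Fin l)) (co : M → Fin l' → ℚ)
    (hsrc : ∀ f j i, src f j = some i → c i = c' j)
    (cl : ∀ i, P i → H i) (cl' : ∀ j, P' j → H' j) (o : ∀ i, P i) (o' : ∀ j, P' j)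
    (h : ∀ i, Y → H i) (h' : ∀ j, Y → H' j) (app : M → (∀ i, P i) → ∀ j, P' j)
    (hnone : ∀ f j, src f j = none → ∀ z z', app f z j = app f z' j)
    (hsome : ∀ f j i, src f j = some i → ∃ u : H i →ₗ[ℚ] H' j,
      (∀ z, cl' j (app f z j) = u (cl i (z i))) ∧ ∀ y, u (h i y) = co f j • h' j y)
    (hspan : ∀ i (q : P i), cl i q - cl i (o i) ∈ Submodule.span ℚ (Set.range (h i)))
    (E : MultilinearMap ℚ H' W) (S : Finset (Fin l)) (S' : Finset (Fin l'))
    (halt : ∀ (J : Finset (Fin l')) (γ : C), J ⊆ S' → (∀ j ∈ J, c' j = γ) → J.card = d γ + 1 →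
      ∀ y : Fin l' → Y, ∑ π ∈ fixing J, ((Equiv.Perm.sign π : ℤ) : ℚ) •
        E (fun j => if j ∈ S' then h' j (y (π j)) else cl' j (o' j)) = 0)
    (hcard : S'.card ≤ S.card) (s : Finset M) (γ : M → ℚ)
    (hγ : ∀ (a : Fin l → ℕ) (a' : Fin l' → ℕ), (∀ i, if i ∈ S then a i < d (c i) else a i = 0) →
      (∀ j, if j ∈ S' then a' j < d (c' j) else a' j = 0) →
      ∑ f ∈ s, γ f * (if PullZ (src f) S a S' a' then ∏ j ∈ S', co f j else 0) = 0)
    (z : ∀ i, P i) :
    ∑ f ∈ s, γ f • ∑ U ∈ S.powerset, (-1 : ℚ) ^ (S \ U).card •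
      E (fun j => if j ∈ S' then cl' j (app f (prB o U z) j) - cl' j (o' j) else cl' j (o' j)) =
        0 := by
  -- the letters
  have hx : ∀ i, ∃ x : Y →₀ ℚ, Finsupp.linearCombination ℚ (h i) x = cl i (z i) - cl i (o i) :=
    fun i => (Finsupp.mem_span_range_iff_exists_finsupp).1 (hspan i (z i))
  choose x hx using hx
  have step : ∀ f, ∑ U ∈ S.powerset, (-1 : ℚ) ^ (S \ U).card •
      E (fun j => if j ∈ S' then cl' j (app f (prB o U z) j) - cl' j (o' j) else cl' j (o' j)) =
      (if BijZ (src f) S S' then ∏ j ∈ S', co f j else 0) •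
        E (lw h' (fun j => cl' j (o' j)) S' fun j => (src f j).elim 0 x) := by
    intro f
    by_cases hB : BijZ (src f) S S'
    swap
    · rw [if_neg hB, zero_smul]
      obtain ⟨i, hi, hi'⟩ := exists_unused hcard hB
      refine incl_zero hi (fun U => E (fun j => if j ∈ S' then
        cl' j (app f (prB o U z) j) - cl' j (o' j) else cl' j (o' j))) fun U hU => ?_
      congr 1
      funext j
      split_ifs with hj
      · congr 1
        rcases hs : src f j with _ | i'
        · rw [hnone f j hs (prB o (insert i U) z) (prB o U z)]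
        · obtain ⟨u, hu, -⟩ := hsome f j i' hs
          rw [hu, hu]
          congr 2
          unfold prB
          have hne : i' ≠ i := by
            rintro rfl
            exact hi' j hj hs
          simp only [Finset.mem_insert, hne, false_or]
      · rfl
    · rw [if_pos hB]
      have h1 : ∀ U ∈ S.powerset, (-1 : ℚ) ^ (S \ U).card •
          E (fun j => if j ∈ S' then cl' j (app f (prB o U z) j) - cl' j (o' j)
            else cl' j (o' j)) = (-1 : ℚ) ^ (S \ U).card •
          E (fun j => if j ∈ S' then (if ∃ i ∈ U, src f j = some i then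
            (cl' j (app f z j) - cl' j (o' j)) else (cl' j (app f o j) - cl' j (o' j)))
              else cl' j (o' j)) := by
        intro U _
        congr 2
        funext j
        by_cases hj : j ∈ S'
        · rw [if_pos hj, if_pos hj]
          obtain ⟨i, hs, -⟩ := hB.1 j hj
          obtain ⟨u, hu, -⟩ := hsome f j i hs
          by_cases hi : i ∈ U
          · rw [if_pos ⟨i, hi, hs⟩, hu, hu, prB, if_pos hi]
          · rw [if_neg, hu, hu, prB, if_neg hi]
            rintro ⟨i', hi', h2⟩
            rw [hs, Option.some.injEq] at h2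
            rw [← h2] at hi'
            exact hi hi'
        · rw [if_neg hj, if_neg hj]
      rw [Finset.sum_congr rfl h1, incl_bij hB E]
      have h2 : (fun j => if j ∈ S' then (cl' j (app f z j) - cl' j (o' j)) -
          (cl' j (app f o j) - cl' j (o' j)) else cl' j (o' j)) =
          S'.piecewise (fun j => co f j • lw h' (fun j => cl' j (o' j)) S'
            (fun j => (src f j).elim 0 x) j) (lw h' (fun j => cl' j (o' j)) S'
            fun j => (src f j).elim 0 x) := by
        funext j
        by_cases hj : j ∈ S'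
        · rw [if_pos hj, Finset.piecewise_eq_of_mem _ _ _ hj, sub_sub_sub_cancel_right]
          obtain ⟨i, hs, -⟩ := hB.1 j hj
          obtain ⟨u, hu, hu'⟩ := hsome f j i hs
          rw [hu, hu, ← map_sub, ← hx i, lw, if_pos hj, hs, Option.elim_some, lcm]
          -- `u` of a combination of letters
          rw [Finsupp.linearCombination_apply, Finsupp.linearCombination_apply, Finsupp.sum,
            Finsupp.sum, map_sum, Finset.smul_sum]
          refine Finset.sum_congr rfl fun y _ => ?_
          rw [map_smul, hu', smul_comm]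
        · rw [if_neg hj, Finset.piecewise_eq_of_notMem _ _ _ hj, lw, if_neg hj]
      rw [h2, E.map_piecewise_smul (fun j => co f j)]
  rw [Finset.sum_congr rfl fun f _ => by rw [step f, smul_smul]]
  exact graded_abs c c' d src co hsrc S S'
    (fun u => E (lw h' (fun j => cl' j (o' j)) S' u))
    (fun u J γ₀ hJ hc hd => alt_letters hJ E (halt J γ₀ hJ hc hd) u)
    (fun u u' hu => by
      congr 1
      funext j
      unfold lw
      split_ifs with hj
      · rw [hu j hj]
      · rfl) s γ hγ x 0

end Pool.Agent.QTF
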