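import Pool.Agent.QTF.MixG
import Pool.Agent.QTF.GrZ

/-!
# Combinations of maps between products of surfaces which are zero on the forms
-/

set_option autoImplicit false

noncomputable section

namespace Pool.Agent.QTF

open Pool.Agent.ZCyc Pool.Agent.WFC
open Pool.Agent.ZIso (fixing)
open Pool.Agent.VFP (Om tt)
open scoped Classical

/-- product of differences -/
theorem mul_sub {l : ℕ} {H : Fin l → Type*} [∀ j, AddCommGroup (H j)] [∀ j, Module ℚ (H j)]
    {U : Type*} [AddCommGroup U] [Module ℚ U] (E : MultilinearMap ℚ H U) (A O : ∀ j, H j)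
    (S : Finset (Fin l)) :
    E (fun j => if j ∈ S then A j - O j else O j) =
      ∑ U ∈ S.powerset, ((-1 : ℚ) ^ (S \ U).card) • E (fun j => if j ∈ U then A j else O j) := by
  have h1 : (fun j => if j ∈ S then A j - O j else O j) =
      S.piecewise (A + S.piecewise (-O) O) (S.piecewise (-O) O) := by
    funext j
    by_cases hj : j ∈ S
    · rw [Finset.piecewise_eq_of_mem _ _ _ hj, Pi.add_apply, Finset.piecewise_eq_of_mem _ _ _ hj,
        if_pos hj, Pi.neg_apply, sub_eq_add_neg]
    · rw [Finset.piecewise_eq_of_notMem _ _ _ hj, Finset.piecewise_eq_of_notMem _ _ _ hj,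
        if_neg hj]
  rw [h1, E.map_piecewise_add]
  refine Finset.sum_congr rfl fun U hU => ?_
  rw [Finset.mem_powerset] at hU
  have h2 : U.piecewise A (S.piecewise (-O) O) =
      (S \ U).piecewise (fun j => (-1 : ℚ) • (fun j => if j ∈ U then A j else O j) j)
        (fun j => if j ∈ U then A j else O j) := by
    funext j
    by_cases hj : j ∈ U
    · rw [Finset.piecewise_eq_of_mem _ _ _ hj, Finset.piecewise_eq_of_notMem _ _ _
        (fun h => (Finset.mem_sdiff.1 h).2 hj), if_pos hj]
    · rw [Finset.piecewise_eq_of_notMem _ _ _ hj]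
      by_cases hjS : j ∈ S
      · rw [Finset.piecewise_eq_of_mem _ _ _ hjS, Finset.piecewise_eq_of_mem _ _ _
          (Finset.mem_sdiff.2 ⟨hjS, hj⟩)]
        change -O j = (-1 : ℚ) • (if j ∈ U then A j else O j)
        rw [if_neg hj, neg_one_smul]
      · rw [Finset.piecewise_eq_of_notMem _ _ _ hjS, Finset.piecewise_eq_of_notMem _ _ _
          (fun h => hjS (Finset.mem_sdiff.1 h).1), if_neg hj]
  rw [h2, E.map_piecewise_smul (fun _ => (-1 : ℚ)), Finset.prod_const]

variable {k : Type} [Field k] [IsAlgClosed k] [CharZero k] {l l' : ℕ} {Z : Fin l → TS k}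
  {W : Fin l' → TS k}

theorem eT_eq (S : Finset (Fin l)) (z : ∀ j, (Z j).Pt) :
    eT Z S z = mulT Z (fun j => if j ∈ S then clS (Z j) (z j) - clS (Z j) (Z j).oo
      else clS (Z j) (Z j).oo) := by
  rw [mul_sub, eT]
  refine Finset.sum_congr rfl fun U _ => ?_
  rw [← mulT_cl]
  congr 2
  funext j
  unfold projT
  split_ifs <;> rfl

/-- the part with the number `S'` of the image under `g` of the class `eT Z S z` -/
def pT (g : MorT Z W) (S : Finset (Fin l)) (S' : Finset (Fin l')) (z : ∀ j, (Z j).Pt) : VT W :=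
  ∑ U ∈ S.powerset, ((-1 : ℚ) ^ (S \ U).card) • eT W S' (fun j => (g j).app (projT Z U z))

omit [IsAlgClosed k] [CharZero k] in
theorem pullT_eq (g : MorT Z W) (S : Finset (Fin l)) (b : Fin l → ℕ) (S' : Finset (Fin l'))
    (b' : Fin l' → ℕ) : pullT g S b S' b' =
      if PullZ (fun j => (g j).src) S b S' b' then ∏ j ∈ S', (g j).deg else 0 := by
  have h1 : ((∀ j ∈ S', ∃ i ∈ S, (g j).src = some i ∧ b i = b' j) ∧
      ∀ i ∈ S, ∃! j, j ∈ S' ∧ (g j).src = some i) ↔ PullZ (fun j => (g j).src) S b S' b' := by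
    refine and_congr (forall₂_congr fun j hj => ?_) Iff.rfl
    constructor
    · rintro ⟨i, h1, h2, h3⟩
      exact ⟨i, h2, h1, h3⟩
    · rintro ⟨i, h2, h1, h3⟩
      exact ⟨i, h1, h2, h3⟩
  unfold pullT
  by_cases h : PullZ (fun j => (g j).src) S b S' b'
  · rw [if_pos (h1.2 h), if_pos h]
  · rw [if_neg fun h' => h (h1.1 h'), if_neg h]

/-- the properties of the surfaces and of the maps between them which are used -/
structure Core (k : Type) [Field k] [IsAlgClosed k] [CharZero k] : Prop where
  push : ∀ (Z W : TS k) (u : TMap Z W), ∃ L : V1 Z →ₗ[ℚ] V1 W,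
    (∀ z, L (clS Z z) = clS W (u.u z)) ∧ ∀ y, L (hr Z y) = ((u.p : ℚ) / u.q) • hr W y
  span : ∀ (W : TS k) (w w' : W.Pt), clS W w - clS W w' ∈ Submodule.span ℚ (Set.range (hr W))

/-- **Combinations of maps which are zero on the forms**, for fixed sets `S` and `S'`. -/
theorem gradT (hc : Core k) (S : Finset (Fin l)) (S' : Finset (Fin l')) (hcard : S'.card ≤ S.card)
    (α : MorT Z W →₀ ℚ)
    (h : ∀ b b', IsFormT Z S b → IsFormT W S' b' →
      (α.sum fun g c => c * pullT g S b S' b') = 0) (z : ∀ j, (Z j).Pt) :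
    (α.sum fun g c => c • pT g S S' z) = 0 := by
  have : Nonempty (Place k (Om k) × Option (Om k × Om k)) := by
    obtain ⟨v, -⟩ := HYG.exists_place_tt (0 : k)
    exact ⟨(v, none)⟩
  have h1 := grZ (Y := Place k (Om k) × Option (Om k × Om k))
    (fun i => ((Z i).a, (Z i).b, (Z i).r)) (fun j => ((W j).a, (W j).b, (W j).r))
    (fun γ => γ.2.2 - 1) (fun (g : MorT Z W) j => (g j).src) (fun g j => (g j).deg) ?_
    (fun i => clS (Z i)) (fun j => clS (W j)) (fun i => (Z i).oo) (fun j => (W j).oo)
    (fun i => hr (Z i)) (fun j => hr (W j)) (fun g z j => (g j).app z) ?_ ?_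
    (fun i q => hc.span (Z i) q _) (mulT W) S S' ?_ hcard α.support α ?_ z
  · rw [← h1, Finsupp.sum]
    refine Finset.sum_congr rfl fun g _ => ?_
    congr 1
    refine Finset.sum_congr rfl fun U _ => ?_
    rw [eT_eq]
    rfl
  · intro g j i hs
    cases hg : g j with
    | const w => rw [hg] at hs; simp [CompT.src] at hs
    | fac i' u =>
      rw [hg, CompT.src, Option.some.injEq] at hs
      subst hs
      obtain ⟨h1, h2, h3⟩ := u.same
      rw [h1, h2, h3]
  · intro g j hs z z'
    cases hg : g j with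
    | const w => rfl
    | fac i' u => rw [hg] at hs; simp [CompT.src] at hs
  · intro g j i hs
    cases hg : g j with
    | const w => rw [hg] at hs; simp [CompT.src] at hs
    | fac i' u =>
      rw [hg, CompT.src, Option.some.injEq] at hs
      subst hs
      obtain ⟨L, h1, h2⟩ := hc.push _ _ u
      exact ⟨L, fun z => (h1 _).symm, h2⟩
  · rintro J ⟨a, b, r⟩ hJ hcol hJc y
    simp only [Prod.mk.injEq] at hcol hJc
    have hne : J.Nonempty := by
      rw [← Finset.card_pos, hJc]
      exact Nat.succ_pos _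
    obtain ⟨j₀, hj₀⟩ := hne
    have hr0 : 0 < r := by
      rw [← (hcol j₀ hj₀).2.2]
      exact (W j₀).cond.pos
    have h1 := alt_mulT hcol hr0 (by omega) y fun j =>
      if j ∈ S' then hr (W j) (y j) else clS (W j) (W j).oo
    rw [← h1]
    refine Finset.sum_congr rfl fun π hπ => ?_
    congr 2
    funext j
    by_cases hj : j ∈ J
    · rw [if_pos hj, if_pos (hJ hj)]
    · rw [if_neg hj]
      have h2 : π j = j := by
        simp only [fixing, Finset.mem_filter, Finset.mem_univ, true_and] at hπ
        exact hπ j hj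
      rw [h2]
  · intro b b' hb hb'
    have h1 := h b b' (fun j => ?_) fun j => ?_
    · rw [Finsupp.sum] at h1
      refine Eq.trans (Finset.sum_congr rfl fun g _ => ?_) h1
      rw [pullT_eq]
    · have h1 := hb j
      have h2 := (Z j).cond.pos
      split_ifs at h1 ⊢ with hj
      · simp only at h1
        omega
      · exact h1
    · have h1 := hb' j
      have h2 := (W j).cond.pos
      split_ifs at h1 ⊢ with hj
      · simp only at h1
        omega
      · exact h1

end Pool.Agent.QTF
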