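import Pool.Agent.QTF.MExt

/-!
# Exterior products of classes, abstractly
-/

set_option autoImplicit false

noncomputable section

namespace Pool.Agent.QTF

open scoped Classical

variable {n : ℕ} {T : Fin n → Type} {A : Type*} [AddCommGroup A] [Module ℚ A]

private theorem mul_base {H : Fin n → Type*} [∀ j, AddCommGroup (H j)] [∀ j, Module ℚ (H j)]
    (π : ∀ j, (T j →₀ ℚ) →ₗ[ℚ] H j) (c : (∀ j, T j) → A)
    (h : ∀ j (x : ∀ j, T j) (w : T j →₀ ℚ), π j w = 0 →
      (w.sum fun t a => a • c (Function.update x j t)) = 0)
    (j : Fin n) (w : T j →₀ ℚ) (hw : π j w = 0) (S : Finset (Fin n)) :
    ∀ z : ∀ j, (T j →₀ ℚ), (∀ i ∉ S, i ≠ j → ∃ x, z i = Finsupp.single x 1) →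
      Finsupp.linearCombination ℚ c (extm (Function.update z j w)) = 0 := by
  induction S using Finset.induction_on with
  | empty =>
    intro z hz
    by_cases hne : ∀ i, Nonempty (T i)
    · have h1 : ∀ i, ∃ x, i ≠ j → z i = Finsupp.single x 1 := by
        intro i
        by_cases h : i = j
        · obtain ⟨p⟩ := hne i
          exact ⟨p, fun h' => absurd h h'⟩
        · obtain ⟨x, hx⟩ := hz i (Finset.notMem_empty i) h
          exact ⟨x, fun _ => hx⟩
      choose x hx using h1
      have h2 : Function.update z j w = Function.update (fun i => Finsupp.single (x i) 1) j w := by
        funext i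
        by_cases h : i = j
        · subst h
          simp
        · simp [Function.update_of_ne h, hx i h]
      have key : ∀ w : T j →₀ ℚ, Finsupp.linearCombination ℚ c
          (extm (Function.update (fun i => Finsupp.single (x i) (1 : ℚ)) j w)) =
          w.sum fun t a => a • c (Function.update x j t) := by
        intro w
        induction w using Finsupp.induction_linear with
        | zero =>
          rw [← extmM_apply, MultilinearMap.map_update_zero, map_zero, Finsupp.sum_zero_index]
        | add u u' hu hu' =>
          rw [← extmM_apply, MultilinearMap.map_update_add, map_add, extmM_apply, extmM_apply, hu,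
            hu']
          exact (Finsupp.sum_add_index' (h := fun t a => a • c (Function.update x j t))
            (fun t => zero_smul ℚ _) (fun t a b => add_smul a b _)).symm
        | single p a =>
          have h3 : Function.update (fun i => Finsupp.single (x i) (1 : ℚ)) j
              (Finsupp.single p a) = fun i => Finsupp.single (Function.update x j p i)
                (Function.update (fun _ => (1 : ℚ)) j a i) := by
            funext i
            by_cases h : i = j
            · subst h
              simp
            · simp [Function.update_of_ne h]
          rw [h3, extm_single, Finset.prod_update_of_mem (Finset.mem_univ j),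
            Finsupp.linearCombination_single, Finset.prod_const_one, mul_one]
          exact (Finsupp.sum_single_index (h := fun t a => a • c (Function.update x j t))
            (zero_smul ℚ _)).symm
      rw [h2, key, h j x w hw]
    · push Not at hne
      obtain ⟨i, hi⟩ := hne
      have h3 : extm (Function.update z j w) = 0 := by
        ext q
        exact (hi.false (q i)).elim
      rw [h3, map_zero]
  | insert a S _ ih =>
    intro z hz
    by_cases haj : a = j
    · subst haj
      refine ih z fun i hi hij => hz i (fun h => ?_) hij
      rcases Finset.mem_insert.1 h with h | h
      · exact hij h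
      · exact hi h
    · have key : ∀ u : T a →₀ ℚ, Finsupp.linearCombination ℚ c (extmM T
          (Function.update (Function.update z j w) a u)) = 0 := by
        intro u
        induction u using Finsupp.induction_linear with
        | zero => rw [MultilinearMap.map_update_zero, map_zero]
        | add u u' hu hu' => rw [MultilinearMap.map_update_add, map_add, hu, hu', add_zero]
        | single p b =>
          have h1 : Finsupp.single p b = b • Finsupp.single p (1 : ℚ) := by simp
          rw [h1, MultilinearMap.map_update_smul, map_smul]
          rw [Function.update_comm (Ne.symm haj), extmM_apply, ih _ fun i hi hij => ?_, smul_zero]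
          by_cases hia : i = a
          · subst hia
            exact ⟨p, by simp⟩
          · rw [Function.update_of_ne hia]
            exact hz i (fun h => (Finset.mem_insert.1 h).elim hia hi) hij
      have h2 := key (z a)
      have h3 : Function.update (Function.update z j w) a (z a) = Function.update z j w := by
        rw [Function.update_comm (Ne.symm haj), Function.update_eq_self]
      rwa [h3] at h2

/-- **Exterior products of classes.** `c x` is the class of the point `x` of the product, and
relations between points of one factor are relations for fixed points of the other factors. -/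
theorem exists_mul {H : Fin n → Type*} [∀ j, AddCommGroup (H j)] [∀ j, Module ℚ (H j)]
    (π : ∀ j, (T j →₀ ℚ) →ₗ[ℚ] H j) (hπ : ∀ j, Function.Surjective (π j)) (c : (∀ j, T j) → A)
    (h : ∀ j (x : ∀ j, T j) (w : T j →₀ ℚ), π j w = 0 →
      (w.sum fun t a => a • c (Function.update x j t)) = 0) :
    ∃ E : MultilinearMap ℚ H A, ∀ x : ∀ j, T j,
      E (fun j => π j (Finsupp.single (x j) 1)) = c x := by
  choose s hs using fun j => (π j).exists_rightInverse_of_surjective
    (LinearMap.range_eq_top.2 (hπ j))
  have hcongr : ∀ (z z' : ∀ j, (T j →₀ ℚ)), (∀ j, π j (z' j) = π j (z j)) →
      ∀ S : Finset (Fin n), Finsupp.linearCombination ℚ c (extm (S.piecewise z' z)) =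
        Finsupp.linearCombination ℚ c (extm z) := by
    intro z z' hz S
    induction S using Finset.induction_on with
    | empty => rw [Finset.piecewise_empty]
    | insert a S haS ih =>
      rw [← ih, Finset.piecewise_insert]
      have h1 : S.piecewise z' z = Function.update (S.piecewise z' z) a (z a) := by
        rw [← Finset.piecewise_eq_of_notMem S z' z haS, Function.update_eq_self]
      have h2 : extmM T (Function.update (S.piecewise z' z) a (z' a)) -
          extmM T (S.piecewise z' z) =
          extmM T (Function.update (S.piecewise z' z) a (z' a - z a)) := by
        rw [MultilinearMap.map_update_sub, ← h1]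
      rw [← sub_eq_zero, ← map_sub]
      change Finsupp.linearCombination ℚ c (extmM T (Function.update (S.piecewise z' z) a (z' a)) -
          extmM T (S.piecewise z' z)) = 0
      rw [h2]
      exact mul_base π c h a _ (by rw [map_sub, hz, sub_self]) Finset.univ _
        fun i hi => absurd (Finset.mem_univ i) hi
  refine ⟨(Finsupp.linearCombination ℚ c).compMultilinearMap
    ((extmM T).compLinearMap fun j => s j), fun x => ?_⟩
  have h1 := hcongr (fun j => Finsupp.single (x j) 1)
    (fun j => s j (π j (Finsupp.single (x j) 1)))
    (fun j => LinearMap.congr_fun (hs j) (π j (Finsupp.single (x j) 1))) Finset.univ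
  rw [Finset.piecewise_univ] at h1
  change Finsupp.linearCombination ℚ c (extm fun j => s j (π j (Finsupp.single (x j) 1))) = c x
  rw [h1, extm_single, Finset.prod_const_one, Finsupp.linearCombination_single, one_smul]

end Pool.Agent.QTF
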