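import Pool.Agent.EFP.SFT

/-!
# Combinations of maps between products of surfaces which are zero on the forms, abstractly

The factors of two products are numbered by `Fin l` and `Fin l'`, the factor with number `i` has the
colour `c i` (`c' j` in the second product), and the surfaces of the colour `γ` have `d γ` forms.
A morphism `f` has components which are constant or a factor (`src f j = some i`) of the same colour
followed by a map with the coefficient `co f j` on the forms. The forms are even: there are no signs.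
-/

set_option autoImplicit false

namespace Pool.Agent.QTF

open Pool.Agent.ZIso (fixing)
open Pool.Agent.EFP (second_fundamental_col)
open scoped Classical

variable {l l' : ℕ} {C M Y W : Type*} [AddCommGroup W] [Module ℚ W]

/-- the components in `S'` induce a bijection from `S'` to `S` -/
def BijZ (src : Fin l' → Option (Fin l)) (S : Finset (Fin l)) (S' : Finset (Fin l')) : Prop :=
  (∀ j ∈ S', ∃ i, src j = some i ∧ i ∈ S) ∧ ∀ i ∈ S, ∃! j, j ∈ S' ∧ src j = some i

/-- the form with the numbers `a' j` on the factors `j ∈ S'` is pulled back to the form with the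
numbers `a i` on the factors `i ∈ S`, up to a coefficient -/
def PullZ (src : Fin l' → Option (Fin l)) (S : Finset (Fin l)) (a : Fin l → ℕ)
    (S' : Finset (Fin l')) (a' : Fin l' → ℕ) : Prop :=
  (∀ j ∈ S', ∃ i, src j = some i ∧ i ∈ S ∧ a i = a' j) ∧ ∀ i ∈ S, ∃! j, j ∈ S' ∧ src j = some i

private theorem gz_mem {r : ℕ} {J : Finset (Fin r)} {π : Equiv.Perm (Fin r)} :
    π ∈ fixing J ↔ ∀ i ∉ J, π i = i := by
  simp [fixing]

/-- a permutation which fixes the complement of `J` maps `J` to itself -/
private theorem gz_map {r : ℕ} {J : Finset (Fin r)} {π : Equiv.Perm (Fin r)}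
    (h : π ∈ fixing J) {i : Fin r} (hi : i ∈ J) : π i ∈ J := by
  by_contra hcon
  have h1 := gz_mem.1 h _ hcon
  have h2 : π i = i := π.injective h1
  rw [h2] at hcon
  exact hcon hi

/-- transport of sums over `fixing J` along an embedding -/
theorem sum_fixing {r l : ℕ} {W : Type*} [AddCommMonoid W] (o : Fin l ↪ Fin r)
    (J : Finset (Fin l)) (F : Equiv.Perm (Fin l) → W) (G : Equiv.Perm (Fin r) → W)
    (h : ∀ π ∈ fixing J, F π = G (π.viaEmbedding o)) :
    ∑ π ∈ fixing J, F π = ∑ π ∈ fixing (J.map o), G π := by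
  refine Finset.sum_nbij (fun π => π.viaEmbedding o) ?_ ?_ ?_ h
  · intro π hπ
    rw [gz_mem] at hπ ⊢
    intro i hi
    by_cases hr : i ∈ Set.range o
    · obtain ⟨a, rfl⟩ := hr
      rw [Equiv.Perm.viaEmbedding_apply]
      rw [hπ a fun ha => hi (Finset.mem_map_of_mem _ ha)]
    · exact Equiv.Perm.viaEmbedding_apply_of_notMem _ _ _ hr
  · intro π _ π' _ hππ
    ext a
    have h1 := congrArg (fun e : Equiv.Perm (Fin r) => e (o a)) hππ
    simp only [Equiv.Perm.viaEmbedding_apply] at h1
    exact congrArg Fin.val (o.injective h1)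
  · intro π hπ
    rw [Finset.mem_coe] at hπ
    have h1 : ∀ a : Fin l, ∃ b, o b = π (o a) := by
      intro a
      by_cases ha : a ∈ J
      · have h2 := gz_map hπ (Finset.mem_map_of_mem o ha)
        obtain ⟨b, -, hb⟩ := Finset.mem_map.1 h2
        exact ⟨b, hb⟩
      · refine ⟨a, ?_⟩
        rw [gz_mem.1 hπ (o a)]
        intro h3
        obtain ⟨b, hb, hba⟩ := Finset.mem_map.1 h3
        exact ha (o.injective hba ▸ hb)
    choose t ht using h1
    have hti : Function.Injective t := by
      intro a b hab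
      have h2 : π (o a) = π (o b) := by rw [← ht, ← ht, hab]
      exact o.injective (π.injective h2)
    let σ : Equiv.Perm (Fin l) := Equiv.ofBijective t (Finite.injective_iff_bijective.1 hti)
    have hσ : ∀ a, o (σ a) = π (o a) := ht
    refine ⟨σ, ?_, ?_⟩
    · rw [Finset.mem_coe, gz_mem]
      intro a ha
      apply o.injective
      rw [hσ, gz_mem.1 hπ (o a)]
      intro h3
      obtain ⟨b, hb, hba⟩ := Finset.mem_map.1 h3
      exact ha (o.injective hba ▸ hb)
    · apply Equiv.ext
      intro i
      by_cases hr : i ∈ Set.range o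
      · obtain ⟨a, rfl⟩ := hr
        rw [Equiv.Perm.viaEmbedding_apply, hσ]
      · rw [Equiv.Perm.viaEmbedding_apply_of_notMem _ _ _ hr, gz_mem.1 hπ i]
        intro h3
        obtain ⟨b, -, hb⟩ := Finset.mem_map.1 h3
        exact hr ⟨b, hb⟩

theorem sign_via {r l : ℕ} (o : Fin l ↪ Fin r) (π : Equiv.Perm (Fin l)) :
    Equiv.Perm.sign (π.viaEmbedding o) = Equiv.Perm.sign π := by
  unfold Equiv.Perm.viaEmbedding
  exact @Equiv.Perm.sign_extendDomain _ _ _ _ _ _ π _ (fun a => Classical.propDecidable _) _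

/-- the permutation given by a morphism -/
private theorem gz_per {n : ℕ} {S : Finset (Fin l)} {S' : Finset (Fin l')}
    {oI : Fin n → Fin l} {oJ : Fin n → Fin l'} (hoJ : Function.Injective oJ)
    (hI : ∀ i ∈ S, ∃ a, oI a = i) (hJ : ∀ a, oJ a ∈ S') {src : Fin l' → Option (Fin l)}
    (hf : BijZ src S S') : ∃ τ : Equiv.Perm (Fin n), ∀ a, src (oJ a) = some (oI (τ a)) := by
  have h1 : ∀ a, ∃ b, src (oJ a) = some (oI b) ∧ oI b ∈ S := by
    intro a
    obtain ⟨i, h2, h3⟩ := hf.1 (oJ a) (hJ a)
    obtain ⟨b, rfl⟩ := hI i h3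
    exact ⟨b, h2, h3⟩
  choose t ht using h1
  have hti : Function.Injective t := by
    intro a b hab
    obtain ⟨j, -, hj⟩ := hf.2 _ (ht a).2
    apply hoJ
    rw [hj (oJ a) ⟨hJ a, (ht a).1⟩, hj (oJ b) ⟨hJ b, ?_⟩]
    rw [(ht b).1, ← hab]
  exact ⟨Equiv.ofBijective t (Finite.injective_iff_bijective.1 hti), fun a => (ht a).1⟩

/-- **Combinations of morphisms which are zero on the forms.** `F u` is the class of the product of
the cycles `u j`, `j ∈ S'`, on the factors. -/
theorem graded_abs (c : Fin l → C) (c' : Fin l' → C) (d : C → ℕ)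
    (src : M → Fin l' → Option (Fin l)) (co : M → Fin l' → ℚ)
    (hsrc : ∀ f j i, src f j = some i → c i = c' j) (S : Finset (Fin l)) (S' : Finset (Fin l'))
    (F : (Fin l' → Y) → W)
    (halt : ∀ (u : Fin l' → Y) (J : Finset (Fin l')) (γ : C), J ⊆ S' → (∀ j ∈ J, c' j = γ) →
      J.card = d γ + 1 → ∑ π ∈ fixing J, ((Equiv.Perm.sign π : ℤ) : ℚ) • F (u ∘ ⇑π) = 0)
    (hF : ∀ u u' : Fin l' → Y, (∀ j ∈ S', u j = u' j) → F u = F u')
    (s : Finset M) (γ : M → ℚ)
    (hγ : ∀ (a : Fin l → ℕ) (a' : Fin l' → ℕ), (∀ i, if i ∈ S then a i < d (c i) else a i = 0) →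
      (∀ j, if j ∈ S' then a' j < d (c' j) else a' j = 0) →
      ∑ f ∈ s, γ f * (if PullZ (src f) S a S' a' then ∏ j ∈ S', co f j else 0) = 0)
    (y : Fin l → Y) (o : Y) :
    ∑ f ∈ s, (γ f * (if BijZ (src f) S S' then ∏ j ∈ S', co f j else 0)) •
      F (fun j => (src f j).elim o y) = 0 := by
  by_cases hex : ∃ f : M, BijZ (src f) S S'
  swap
  · refine Finset.sum_eq_zero fun f _ => ?_
    rw [if_neg fun h => hex ⟨f, h⟩, mul_zero, zero_smul]
  obtain ⟨f₀, hf₀⟩ := hex
  have hcard : S'.card = S.card := by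
    refine Finset.card_bij (fun j hj => (hf₀.1 j hj).choose) ?_ ?_ ?_
    · intro j hj
      exact (hf₀.1 j hj).choose_spec.2
    · intro j hj j' hj' hjj
      have e1 := (hf₀.1 j hj).choose_spec
      have e2 := (hf₀.1 j' hj').choose_spec
      obtain ⟨j₁, -, h3⟩ := hf₀.2 _ e1.2
      rw [h3 j ⟨hj, e1.1⟩, h3 j' ⟨hj', hjj ▸ e2.1⟩]
    · intro i hi
      obtain ⟨j, ⟨h3, h4⟩, -⟩ := hf₀.2 i hi
      refine ⟨j, h3, ?_⟩
      have e1 := (hf₀.1 j h3).choose_spec.1
      exact Option.some.inj (e1.symm.trans h4)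
  obtain ⟨n, hn⟩ : ∃ n, S.card = n := ⟨_, rfl⟩
  have hnJ : S'.card = n := hcard.trans hn
  set oI := S.orderEmbOfFin hn with hoIdef
  set oJ := S'.orderEmbOfFin hnJ with hoJdef
  have hI1 : ∀ a, oI a ∈ S := fun a => S.orderEmbOfFin_mem hn a
  have hJ1 : ∀ a, oJ a ∈ S' := fun a => S'.orderEmbOfFin_mem hnJ a
  have hI2 : ∀ i ∈ S, ∃ a, oI a = i := by
    intro i hi
    have h3 : i ∈ Set.range oI := by
      rw [hoIdef, Finset.range_orderEmbOfFin]
      exact hi
    exact h3
  have hJ2 : ∀ j ∈ S', ∃ a, oJ a = j := by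
    intro j hj
    have h3 : j ∈ Set.range oJ := by
      rw [hoJdef, Finset.range_orderEmbOfFin]
      exact hj
    exact h3
  have hper0 : ∀ f : M, ∃ τ : Equiv.Perm (Fin n), BijZ (src f) S S' →
      ∀ a, src f (oJ a) = some (oI (τ a)) := by
    intro f
    by_cases hf : BijZ (src f) S S'
    · obtain ⟨τ, hτ⟩ := gz_per oJ.injective hI2 hJ1 hf
      exact ⟨τ, fun _ => hτ⟩
    · exact ⟨1, fun h => absurd h hf⟩
  choose per hper using hper0
  -- the letters with permuted numbers
  set u : Equiv.Perm (Fin n) → Fin l' → Y := fun τ j =>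
    if h : ∃ a, oJ a = j then y (oI (τ h.choose)) else o with hu
  have hu1 : ∀ τ a, u τ (oJ a) = y (oI (τ a)) := by
    intro τ a
    have h3 : ∃ b, oJ b = oJ a := ⟨a, rfl⟩
    rw [hu]
    simp only
    rw [dif_pos h3, oJ.injective h3.choose_spec]
  have hu2 : ∀ τ j, (¬ ∃ a, oJ a = j) → u τ j = o := by
    intro τ j h3
    rw [hu]
    simp only
    rw [dif_neg h3]
  have hval : ∀ f, BijZ (src f) S S' → F (fun j => (src f j).elim o y) = F (u (per f)) := by
    intro f hf
    refine hF _ _ fun j hj => ?_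
    obtain ⟨a, rfl⟩ := hJ2 j hj
    rw [hu1, hper f hf a]
    rfl
  set β : Equiv.Perm (Fin n) → ℚ := fun τ =>
    ∑ f ∈ s, if BijZ (src f) S S' ∧ per f = τ then γ f * ∏ j ∈ S', co f j else 0 with hβdef
  have key : ∑ τ, β τ • F (u τ) = 0 := by
    refine second_fundamental_col (fun a => c (oI a)) (fun a => c' (oJ a)) d ?_ ?_ ?_
    · intro τ _ J₀ γ₀ hJ₀ hJc
      have halt' := halt (u τ) (J₀.map oJ.toEmbedding) γ₀
        (by
          intro j hj
          obtain ⟨a, -, rfl⟩ := Finset.mem_map.1 hj
          exact hJ1 a)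
        (by
          intro j hj
          obtain ⟨a, ha, rfl⟩ := Finset.mem_map.1 hj
          exact hJ₀ a ha) (by rw [Finset.card_map, hJc])
      rw [← sum_fixing oJ.toEmbedding J₀ (fun π =>
        ((Equiv.Perm.sign π : ℤ) : ℚ) • F (u (τ * π)))] at halt'
      · exact halt'
      · intro π _
        rw [sign_via]
        congr 2
        funext j
        by_cases hj : ∃ a, oJ a = j
        · obtain ⟨a, rfl⟩ := hj
          rw [hu1]
          show _ = u τ ((π.viaEmbedding oJ.toEmbedding) (oJ.toEmbedding a))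
          rw [Equiv.Perm.viaEmbedding_apply]
          exact (hu1 τ (π a)).symm
        · rw [hu2 _ j hj]
          show _ = u τ ((π.viaEmbedding oJ.toEmbedding) j)
          rw [Equiv.Perm.viaEmbedding_apply_of_notMem _ _ _ hj, hu2 _ j hj]
    · intro τ hτ a
      rw [hβdef] at hτ
      simp only at hτ
      obtain ⟨f, -, hf⟩ := Finset.exists_ne_zero_of_sum_ne_zero hτ
      by_cases hc1 : BijZ (src f) S S' ∧ per f = τ
      · rw [← hc1.2]
        exact hsrc f _ _ (hper f hc1.1 a)
      · rw [if_neg hc1] at hf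
        exact absurd rfl hf
    · intro w w' hw hw'
      set aa : Fin l → ℕ := fun i => if h : ∃ b, oI b = i then w h.choose else 0 with haa
      set bb : Fin l' → ℕ := fun j => if h : ∃ b, oJ b = j then w' h.choose else 0 with hbb
      have haa1 : ∀ b, aa (oI b) = w b := by
        intro b
        have h3 : ∃ b', oI b' = oI b := ⟨b, rfl⟩
        rw [haa]
        simp only
        rw [dif_pos h3, oI.injective h3.choose_spec]
      have hbb1 : ∀ b, bb (oJ b) = w' b := by
        intro b
        have h3 : ∃ b', oJ b' = oJ b := ⟨b, rfl⟩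
        rw [hbb]
        simp only
        rw [dif_pos h3, oJ.injective h3.choose_spec]
      have hk := hγ aa bb
        (by
          intro i
          split_ifs with hi
          · obtain ⟨b, rfl⟩ := hI2 i hi
            rw [haa1]
            exact hw b
          · rw [haa]
            simp only
            rw [dif_neg]
            rintro ⟨b, rfl⟩
            exact hi (hI1 b))
        (by
          intro j
          split_ifs with hj
          · obtain ⟨b, rfl⟩ := hJ2 j hj
            rw [hbb1]
            exact hw' b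
          · rw [hbb]
            simp only
            rw [dif_neg]
            rintro ⟨b, rfl⟩
            exact hj (hJ1 b))
      rw [← hk, hβdef]
      simp only
      rw [Finset.sum_comm]
      refine Finset.sum_congr rfl fun f _ => ?_
      have hcond : PullZ (src f) S aa S' bb ↔ (BijZ (src f) S S' ∧ w ∘ ⇑(per f) = w') := by
        constructor
        · rintro ⟨h3, h4⟩
          have hB : BijZ (src f) S S' := by
            refine ⟨fun j hj => ?_, h4⟩
            obtain ⟨i, h5, h6, -⟩ := h3 j hj
            exact ⟨i, h5, h6⟩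
          refine ⟨hB, ?_⟩
          funext b
          obtain ⟨i, h5, h6, h7⟩ := h3 (oJ b) (hJ1 b)
          rw [hper f hB b, Option.some.injEq] at h5
          rw [← h5, haa1, hbb1] at h7
          exact h7
        · rintro ⟨hB, h3⟩
          refine ⟨fun j hj => ?_, hB.2⟩
          obtain ⟨i, h5, h6⟩ := hB.1 j hj
          refine ⟨i, h5, h6, ?_⟩
          obtain ⟨b, rfl⟩ := hJ2 j hj
          rw [hper f hB b, Option.some.injEq] at h5
          rw [← h5, haa1, hbb1]
          exact congrFun h3 b
      by_cases hB : BijZ (src f) S S' ∧ w ∘ ⇑(per f) = w'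
      · rw [if_pos (hcond.2 hB), Finset.sum_eq_single (per f)]
        · rw [if_pos ⟨hB.1, rfl⟩]
        · intro τ _ hτ
          rw [if_neg fun h => hτ h.2.symm]
        · intro hcon
          exfalso
          apply hcon
          simp only [Finset.mem_filter, Finset.mem_univ, true_and]
          exact hB.2
      · rw [if_neg fun h => hB (hcond.1 h), mul_zero]
        refine Finset.sum_eq_zero fun τ hτ => ?_
        rw [if_neg]
        rintro ⟨h3, rfl⟩
        exact hB ⟨h3, by simpa using hτ⟩
  rw [← key, hβdef]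
  simp only [Finset.sum_smul]
  rw [Finset.sum_comm]
  refine Finset.sum_congr rfl fun f _ => ?_
  by_cases hB : BijZ (src f) S S'
  · rw [if_pos hB, Finset.sum_eq_single (per f)]
    · rw [if_pos ⟨hB, rfl⟩, hval f hB]
    · intro τ _ hτ
      rw [if_neg fun h => hτ h.2.symm, zero_smul]
    · intro hcon
      exact absurd (Finset.mem_univ _) hcon
  · rw [if_neg hB, mul_zero, zero_smul]
    symm
    refine Finset.sum_eq_zero fun τ _ => ?_
    rw [if_neg fun h => hB h.1, zero_smul]

end Pool.Agent.QTF
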