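import Pool.Agent.QTF.MulT

/-!
# Exterior products with constant points in some of the factors
-/

set_option autoImplicit false

noncomputable section

namespace Pool.Agent.QTF

open Pool.Agent.ZCyc Pool.Agent.WFC
open Pool.Agent.VFP (Om tt)
open scoped Classical

section Glue

variable {n l : ℕ} {T : Fin l → Type*}

/-- the family `q` in the places `e a`, and the family `x` in the other places -/
def glue (e : Fin n → Fin l) (x : ∀ j, T j) (q : ∀ a, T (e a)) : ∀ j, T j := fun j =>
  if h : ∃ a, e a = j then h.choose_spec ▸ q h.choose else x j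

theorem glue_self {e : Fin n → Fin l} (he : Function.Injective e) (x : ∀ j, T j)
    (q : ∀ a, T (e a)) (a : Fin n) : glue e x q (e a) = q a := by
  have h : ∃ b, e b = e a := ⟨a, rfl⟩
  have key : ∀ (b : Fin n) (hb : e b = e a), (hb ▸ q b : T (e a)) = q a := by
    intro b hb
    obtain rfl := he hb
    rfl
  unfold glue
  rw [dif_pos h]
  exact key _ _

theorem glue_of {e : Fin n → Fin l} (x : ∀ j, T j) (q : ∀ a, T (e a)) {j : Fin l}
    (h : ¬ ∃ a, e a = j) : glue e x q j = x j := dif_neg h

theorem glue_update {e : Fin n → Fin l} (he : Function.Injective e) (x : ∀ j, T j)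
    (q : ∀ a, T (e a)) (a : Fin n) (v : T (e a)) :
    glue e x (Function.update q a v) = Function.update (glue e x q) (e a) v := by
  funext j
  by_cases hj : ∃ b, e b = j
  · obtain ⟨b, rfl⟩ := hj
    rw [glue_self he]
    by_cases hb : b = a
    · subst hb
      rw [Function.update_self, Function.update_self]
    · rw [Function.update_of_ne hb, Function.update_of_ne (fun h => hb (he h)), glue_self he]
  · rw [glue_of _ _ hj, Function.update_of_ne (fun h => hj ⟨a, h.symm⟩), glue_of _ _ hj]

theorem glue_map {e : Fin n → Fin l} (he : Function.Injective e) {T' : Fin l → Type*}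
    (f : ∀ j, T j → T' j) (x : ∀ j, T j) (q : ∀ a, T (e a)) :
    (fun j => f j (glue e x q j)) = glue e (fun j => f j (x j)) (fun a => f (e a) (q a)) := by
  funext j
  by_cases hj : ∃ b, e b = j
  · obtain ⟨b, rfl⟩ := hj
    rw [glue_self he, glue_self he]
  · rw [glue_of _ _ hj, glue_of _ _ hj]

end Glue

variable {k : Type} [Field k] {n l : ℕ} {Z : Fin l → TS k}

/-- multilinear maps which agree on the classes of points are equal -/
theorem mul_ext {U : Type*} [AddCommGroup U] [Module ℚ U]
    {E E' : MultilinearMap ℚ (fun j => V1 (Z j)) U}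
    (h : ∀ z : ∀ j, (Z j).Pt, E (fun j => clS (Z j) (z j)) = E' (fun j => clS (Z j) (z j))) :
    E = E' := by
  ext w
  choose z hz using fun j => mkS_surj (Z j) (w j)
  have h2 : w = fun j => ∑ t ∈ (z j).support, z j t • clS (Z j) t := by
    funext j
    rw [← hz j, mkS, Finsupp.linearCombination_apply, Finsupp.sum]
  rw [h2, MultilinearMap.map_sum_finset, MultilinearMap.map_sum_finset]
  refine Finset.sum_congr rfl fun x _ => ?_
  rw [E.map_smul_univ (fun j => z j (x j)) fun j => clS (Z j) (x j),
    E'.map_smul_univ (fun j => z j (x j)) fun j => clS (Z j) (x j), h]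

/-- a relation on the factors `e a`, with constant points in the other factors -/
theorem ratEq_glue {e : Fin n → Fin l} (he : Function.Injective e) (x : ∀ j, (Z j).Pt)
    {z : PtM 0 (fun a => Z (e a)) →₀ ℚ} (hz : z ∈ ratEq (e0 k) fun a => Z (e a)) :
    Finsupp.lmapDomain ℚ ℚ (fun q : PtM 0 (fun a => Z (e a)) =>
      ((p0 k, glue e x q.2) : PtM 0 Z)) z ∈ ratEq (e0 k) Z := by
  have hle : ratEq (e0 k) (fun a => Z (e a)) ≤
      (ratEq (e0 k) Z).comap (Finsupp.lmapDomain ℚ ℚ fun q : PtM 0 (fun a => Z (e a)) =>
        ((p0 k, glue e x q.2) : PtM 0 Z)) := by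
    refine sup_le (Submodule.span_le.2 ?_) (Submodule.span_le.2 ?_)
    · rintro _ ⟨n, P, Q, c, c', v, v', q, q', hP, hg, hv, hv', hq, hq', rfl⟩
      change Finsupp.lmapDomain ℚ ℚ _ _ ∈ ratEq (e0 k) Z
      rw [map_sum]
      refine Submodule.mem_sup_left (Submodule.subset_span ⟨n, P,
        fun a => glue e (fun i => (x i).map (Algebra.ofId k (Om k)) (Z i).hom) (Q a),
        c, c', v, v', fun a => (p0 k, glue e x (q a).2),
        fun a => (p0 k, glue e x (q' a).2), fun _ i => i.elim0, fun g => ?_, hv,
        hv', fun a => ?_, fun a => ?_, ?_⟩)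
      · obtain ⟨e', he'⟩ := hg g
        refine ⟨e', fun a => ⟨fun i => i.elim0, fun i => ?_⟩⟩
        by_cases hi : ∃ b, e b = i
        · obtain ⟨b, rfl⟩ := hi
          simp only [glue_self he]
          exact (he' a).2 b
        · simp only [glue_of _ _ hi]
          exact isConj_const g _
      · refine ⟨fun i => i.elim0, fun i => i.elim0, fun i => ?_⟩
        by_cases hi : ∃ b, e b = i
        · obtain ⟨b, rfl⟩ := hi
          simp only [glue_self he]
          exact (hq a).2.2 b
        · simp only [glue_of _ _ hi]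
          exact GT.isVal_const
      · refine ⟨fun i => i.elim0, fun i => i.elim0, fun i => ?_⟩
        by_cases hi : ∃ b, e b = i
        · obtain ⟨b, rfl⟩ := hi
          simp only [glue_self he]
          exact (hq' a).2.2 b
        · simp only [glue_of _ _ hi]
          exact GT.isVal_const
      · refine Finset.sum_congr rfl fun a _ => ?_
        rw [map_sub, Finsupp.lmapDomain_apply, Finsupp.lmapDomain_apply,
          Finsupp.mapDomain_single, Finsupp.mapDomain_single]
    · rintro _ ⟨q, q', -, -, h2, rfl⟩
      change Finsupp.lmapDomain ℚ ℚ _ _ ∈ ratEq (e0 k) Z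
      rw [map_sub, Finsupp.lmapDomain_apply, Finsupp.lmapDomain_apply, Finsupp.mapDomain_single,
        Finsupp.mapDomain_single, h2, sub_self]
      exact zero_mem _
  exact hle hz

/-- the inclusion of the product of the factors `e a`, with constant points in the others -/
def gl {e : Fin n → Fin l} (he : Function.Injective e) (x : ∀ j, (Z j).Pt) :
    VT (fun a => Z (e a)) →ₗ[ℚ] VT Z :=
  (ratEq (e0 k) fun a => Z (e a)).liftQ ((ratEq (e0 k) Z).mkQ.comp
    (Finsupp.lmapDomain ℚ ℚ fun q : PtM 0 (fun a => Z (e a)) =>
      ((p0 k, glue e x q.2) : PtM 0 Z))) fun z hz => by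
    rw [LinearMap.mem_ker, LinearMap.comp_apply, Submodule.mkQ_apply,
      Submodule.Quotient.mk_eq_zero]
    exact ratEq_glue he x hz

theorem gl_cl {e : Fin n → Fin l} (he : Function.Injective e) (x : ∀ j, (Z j).Pt)
    (q : ∀ a, (Z (e a)).Pt) : gl he x (clT (fun a => Z (e a)) q) = clT Z (glue e x q) := by
  unfold gl clT cl
  rw [Submodule.liftQ_apply, LinearMap.comp_apply, Finsupp.lmapDomain_apply,
    Finsupp.mapDomain_single, Submodule.mkQ_apply]

/-- the exterior product as a function of the vectors in the places `e a` -/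
def mulG {e : Fin n → Fin l} (he : Function.Injective e) {H : Fin l → Type*}
    [∀ j, AddCommGroup (H j)] [∀ j, Module ℚ (H j)] {U : Type*} [AddCommGroup U] [Module ℚ U]
    (E : MultilinearMap ℚ H U) (x : ∀ j, H j) : MultilinearMap ℚ (fun a => H (e a)) U where
  toFun w := E (glue e x w)
  map_update_add' := by
    intro inst w a v v'
    obtain rfl : inst = fun a b => instDecidableEqFin n a b := Subsingleton.elim _ _
    rw [glue_update he, glue_update he, glue_update he, E.map_update_add]
  map_update_smul' := by
    intro inst w a c v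
    obtain rfl : inst = fun a b => instDecidableEqFin n a b := Subsingleton.elim _ _
    rw [glue_update he, glue_update he, E.map_update_smul]

theorem mulG_apply {e : Fin n → Fin l} (he : Function.Injective e) {H : Fin l → Type*}
    [∀ j, AddCommGroup (H j)] [∀ j, Module ℚ (H j)] {U : Type*} [AddCommGroup U] [Module ℚ U]
    (E : MultilinearMap ℚ H U) (x : ∀ j, H j) (w : ∀ a, H (e a)) :
    mulG he E x w = E (glue e x w) := rfl

theorem gl_mulT {e : Fin n → Fin l} (he : Function.Injective e) (x : ∀ j, (Z j).Pt)
    (w : ∀ a, V1 (Z (e a))) :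
    gl he x (mulT (fun a => Z (e a)) w) = mulT Z (glue e (fun j => clS (Z j) (x j)) w) := by
  have h : (gl he x).compMultilinearMap (mulT fun a => Z (e a)) =
      mulG he (mulT Z) (fun j => clS (Z j) (x j)) := by
    refine mul_ext fun z => ?_
    rw [LinearMap.compMultilinearMap_apply, mulT_cl, gl_cl, mulG_apply,
      ← glue_map he (fun j => clS (Z j)), mulT_cl]
  exact congrArg (fun E => E w) h

end Pool.Agent.QTF
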