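import Mathlib

/-!
# Products of two systems of vectors which satisfy the relations of two systems of coefficients

`A f` and `B g` are vectors, `p f` and `q g` are vectors of numbers such that all linear relations
between the `p f` are linear relations between the `A f`, and all linear relations between the `q g`
are linear relations between the `B g`. Then the same is true for the products.
-/

set_option autoImplicit false

namespace Pool.Agent.QTF

variable {F G I J : Type*} {V W U : Type*} [AddCommGroup V] [Module ℚ V] [AddCommGroup W]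
  [Module ℚ W] [AddCommGroup U] [Module ℚ U]

/-- The relations between the products. -/
theorem bilin_zero (p : F → I → ℚ) (q : G → J → ℚ) (A : F → V) (B : G → W)
    (β : V →ₗ[ℚ] W →ₗ[ℚ] U)
    (hA : ∀ α : F →₀ ℚ, (∀ i, (α.sum fun f c => c * p f i) = 0) →
      (α.sum fun f c => c • A f) = 0)
    (hB : ∀ α : G →₀ ℚ, (∀ j, (α.sum fun g c => c * q g j) = 0) →
      (α.sum fun g c => c • B g) = 0)
    (s : Finset (F × G)) (γ : F × G → ℚ)
    (h : ∀ i j, ∑ x ∈ s, γ x * (p x.1 i * q x.2 j) = 0) :
    ∑ x ∈ s, γ x • β (A x.1) (B x.2) = 0 := by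
  classical
  -- first step
  have h1 : ∀ j, ∑ x ∈ s, (γ x * q x.2 j) • A x.1 = 0 := by
    intro j
    have h2 := hA (∑ x ∈ s, Finsupp.single x.1 (γ x * q x.2 j)) (fun i => by
      rw [← Finsupp.sum_finsetSum_index (by simp) (by intros; ring)]
      have h3 := h i j
      rw [← h3]
      refine Finset.sum_congr rfl fun x _ => ?_
      rw [Finsupp.sum_single_index (by simp)]
      ring)
    rw [← Finsupp.sum_finsetSum_index (by simp) (by intros; rw [add_smul])] at h2
    rw [← h2]
    refine Finset.sum_congr rfl fun x _ => ?_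
    rw [Finsupp.sum_single_index (by simp)]
  let b := Module.Basis.ofVectorSpace ℚ V
  -- second step
  have h4 : ∀ e, ∑ x ∈ s, (γ x * b.repr (A x.1) e) • B x.2 = 0 := by
    intro e
    have h2 := hB (∑ x ∈ s, Finsupp.single x.2 (γ x * b.repr (A x.1) e)) (fun j => by
      rw [← Finsupp.sum_finsetSum_index (by simp) (by intros; ring)]
      have h3 := congrArg (fun v => b.repr v e) (h1 j)
      simp only [map_sum, map_smul, map_zero, Finsupp.coe_finsetSum, Finset.sum_apply,
        Finsupp.coe_smul, Pi.smul_apply, smul_eq_mul, Finsupp.coe_zero, Pi.zero_apply] at h3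
      rw [← h3]
      refine Finset.sum_congr rfl fun x _ => ?_
      rw [Finsupp.sum_single_index (by simp)]
      ring)
    rw [← Finsupp.sum_finsetSum_index (by simp) (by intros; rw [add_smul])] at h2
    rw [← h2]
    refine Finset.sum_congr rfl fun x _ => ?_
    rw [Finsupp.sum_single_index (by simp)]
  -- expand the `A`
  set S : Finset _ := s.biUnion fun x => (b.repr (A x.1)).support with hS
  have h5 : ∀ x ∈ s, A x.1 = ∑ e ∈ S, b.repr (A x.1) e • b e := by
    intro x hx
    conv_lhs => rw [← b.linearCombination_repr (A x.1)]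
    rw [Finsupp.linearCombination_apply, Finsupp.sum]
    refine Finset.sum_subset (fun e he => Finset.mem_biUnion.2 ⟨x, hx, he⟩) fun e _ he => ?_
    rw [Finsupp.notMem_support_iff.1 he, zero_smul]
  have h6 : ∀ x ∈ s, γ x • β (A x.1) (B x.2) =
      ∑ e ∈ S, β (b e) ((γ x * b.repr (A x.1) e) • B x.2) := by
    intro x hx
    conv_lhs => rw [h5 x hx]
    rw [map_sum, LinearMap.sum_apply, Finset.smul_sum]
    refine Finset.sum_congr rfl fun e _ => ?_
    rw [map_smul, LinearMap.smul_apply, smul_smul, map_smul]
  rw [Finset.sum_congr rfl h6, Finset.sum_comm]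
  refine Finset.sum_eq_zero fun e _ => ?_
  rw [← map_sum, h4 e, map_zero]

end Pool.Agent.QTF
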