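import Pool.Agent.QTF.Base
import Pool.Agent.GT.Curve
import Pool.Agent.HYG.CVal

/-!
# The filtration on the products
-/

set_option autoImplicit false

noncomputable section

namespace Pool.Agent.QTF

open Pool.Agent.ZCyc
open Pool.Agent.VFP (Om tt)
open Pool.Agent.WFC
open scoped Classical

variable {k : Type} [Field k] {m m' l l' : ℕ}

theorem TS.nonempty [IsAlgClosed k] [CharZero k] (W : TS k) : Nonempty W.Pt := by
  have hinf : Infinite (GT.Ec (inOm W.a) (inOm W.b)).Point := GT.infinite_points W.isFib.ok.disc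
  obtain ⟨P, hP⟩ := (GT.finite_bad (α := inOm W.a) (B := inOm W.b) W.isFib.ok.ne).exists_notMem
  have hP' : W.M.Ns P := not_not.1 hP
  obtain ⟨v, -⟩ := HYG.exists_place_tt (0 : k)
  exact ⟨GT.pv W.isFib.hom v (GT.phi W.isFib.hom W.isFib.ok P hP')⟩

/-- a point of the surface -/
def TS.oo [IsAlgClosed k] [CharZero k] (W : TS k) : W.Pt := Classical.choice W.nonempty

variable [IsAlgClosed k] [CharZero k]

/-- the projection to the factors in `S` -/
def projT (Z : Fin l → TS k) (S : Finset (Fin l)) (z : ∀ j, (Z j).Pt) (j : Fin l) : (Z j).Pt :=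
  if j ∈ S then z j else (Z j).oo

/-- the projection for the sets `T` and `S` -/
def projM (Z : Fin l → TS k) (T : Finset (Fin m × Option ℕ)) (S : Finset (Fin l))
    (p : PtM m Z) : PtM m Z := (proj T p.1, projT Z S p.2)

/-- the part of the class of the point `z` which belongs to `S` -/
def eT (Z : Fin l → TS k) (S : Finset (Fin l)) (z : ∀ j, (Z j).Pt) : VT Z :=
  ∑ U ∈ S.powerset, ((-1 : ℚ) ^ (S \ U).card) • clT Z (projT Z U z)

/-- the part of the class of the point `p` which belongs to `T` and `S` -/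
def eM (X : Fin m → WC k) (Z : Fin l → TS k) (T : Finset (Fin m × Option ℕ))
    (S : Finset (Fin l)) (p : PtM m Z) : V X Z :=
  ∑ U ∈ T.powerset, ((-1 : ℚ) ^ (T \ U).card) •
    ∑ U' ∈ S.powerset, ((-1 : ℚ) ^ (S \ U').card) • cl X Z (projM Z U U' p)

/-- The filtration: the zero-cycles on the product whose images under all projections with an image
of dimension less than `ν` are rationally equivalent to zero. -/
def FilM (X : Fin m → WC k) (Z : Fin l → TS k) (ν : ℕ) : Submodule ℚ (PtM m Z →₀ ℚ) where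
  carrier := {z | (∀ p ∈ z.support, OnP X p.1) ∧
    ∀ T S, wt X T + 2 * S.card < ν → Finsupp.lmapDomain ℚ ℚ (projM Z T S) z ∈ ratEq X Z}
  zero_mem' := ⟨by simp, fun T S _ => by simp⟩
  add_mem' := by
    rintro z w ⟨h1, h2⟩ ⟨h3, h4⟩
    refine ⟨fun p hp => ?_, fun T S hT => ?_⟩
    · rcases Finset.mem_union.1 (Finsupp.support_add hp) with h | h
      · exact h1 p h
      · exact h3 p h
    · rw [map_add]
      exact Submodule.add_mem _ (h2 T S hT) (h4 T S hT)
  smul_mem' := by
    rintro c z ⟨h1, h2⟩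
    refine ⟨fun p hp => h1 p (Finsupp.support_smul hp), fun T S hT => ?_⟩
    rw [map_smul]
    exact Submodule.smul_mem _ _ (h2 T S hT)

/-- the span of the classes `eM T S p` of weight at least `ν` -/
def FM (X : Fin m → WC k) (Z : Fin l → TS k) (ν : ℕ) : Submodule ℚ (V X Z) :=
  Submodule.span ℚ {e | ∃ (T : Finset (Fin m × Option ℕ)) (S : Finset (Fin l)) (p : PtM m Z),
    OnP X p.1 ∧ T ⊆ blocks X ∧ Closed T ∧ ν ≤ wt X T + 2 * S.card ∧ e = eM X Z T S p}

end Pool.Agent.QTF
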