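import Pool.Agent.QTF.MPush
import Pool.Agent.KEx.Hv

/-!
# The mixed relation

Let `X j`, `j < n`, be surfaces with fibrations in curves of genus one over the line which belong
to the same elliptic curve `E` over `k(t)` (`KAll.IsFib`), `r ≤ n`. The alternating sum of the
exterior products of the classes `hV_j (v (π j)) (P (π j))` on `X j` is zero (`mix`). Proof: the
theorem `GT.mainC` for the product `W` of the surfaces and the map `(φ_0(P), ..., φ_(n - 1)(P))`
from `E` to `W`, and the push-forward from `W ^ n` to the product of the `X j`; the conjugates of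
the map to `X j` differ by translations and have the same limit homomorphisms (`KEx.hV_map`).
-/

set_option autoImplicit false

noncomputable section

namespace Pool.Agent.QTF

open Pool.Agent.ZCyc Pool.Agent.Dess Pool.Agent.GT Pool.Agent.KAll Pool.Agent.KEx
open Pool.Agent.TInc Polynomial
open Pool.Agent.VFP (Om tt)
open scoped Classical LinearAlgebra.Projectivization

variable {k : Type} [Field k] [IsAlgClosed k] [CharZero k] {n : ℕ} {m : Fin n → ℕ}
  {X : ∀ j, Set (MvPolynomial (Fin (m j + 1)) k)}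

omit [IsAlgClosed k] [CharZero k] in
/-- the conjugate of the product of the maps -/
theorem IsProd.conj {α B : Om k} {M : ∀ j, Mp (Om k) (m j)} {W : Mp (Om k) (sN m)}
    (h : IsProd α B M W) (τ : Om k ≃ₐ[RatFunc k] Om k) (hα : τ α = α) (hB : τ B = B) :
    IsProd α B (fun j => (M j).map (τ : Om k →+* Om k)) (W.map (τ : Om k →+* Om k)) := by
  intro x' y' hxy i
  obtain ⟨x, rfl⟩ := τ.surjective x'
  obtain ⟨y, rfl⟩ := τ.surjective y'
  have h1 : y ^ 2 = x ^ 3 - 3 * α * x + B := by
    apply τ.injective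
    rw [map_pow, map_add, map_sub, map_mul, map_mul, map_pow, hα, hB, map_ofNat]
    exact hxy
  rw [map_co, h x y h1 i, map_prod]
  refine Finset.prod_congr rfl fun j _ => ?_
  exact (map_co τ (M j) x y _).symm

/-- the class of the sum over all conjugates -/
private def Mix_cl {N : ℕ} {Y : Set (MvPolynomial (Fin (N + 1)) k)} (hY : Hom Y)
    {d : GD (RatFunc k) N} (hd : d.Ok Y) (v : Place k (Om k))
    (P : (Ec (algebraMap (RatFunc k) (Om k) d.α) (algebraMap (RatFunc k) (Om k) d.B)).Point) :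
    CH Y Unit :=
  ∑ θ : {θ // θ ∈ d.rts (algebraMap (RatFunc k) (Om k))},
    hV hY (hd.mp_ok (IsScalarTower.toAlgHom k (RatFunc k) (Om k)) θ.2) v P

/-- the theorem `mainC` for a family over the line: the relation for the classes `Mix_cl` -/
private theorem Mix_main {N : ℕ} {Y : Set (MvPolynomial (Fin (N + 1)) k)} (hY : Hom Y)
    {d : GD (RatFunc k) N} (hd : d.Ok Y) {r : ℕ} (hr : 0 < r) {n : ℕ} (hn : r ≤ n) {a b : k[X]}
    (ha : a.natDegree ≤ 4 * r) (hb : b.natDegree ≤ 6 * r)
    (hdα : d.α = algebraMap k[X] (RatFunc k) a) (hdB : d.B = algebraMap k[X] (RatFunc k) b)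
    (hvar : ¬ ∃ (f : RatFunc k) (a₁ b₁ : k),
      algebraMap (RatFunc k) (Om k) (algebraMap k[X] (RatFunc k) a) =
        algebraMap k (Om k) a₁ * algebraMap (RatFunc k) (Om k) f ^ 4 ∧
      algebraMap (RatFunc k) (Om k) (algebraMap k[X] (RatFunc k) b) =
        algebraMap k (Om k) b₁ * algebraMap (RatFunc k) (Om k) f ^ 6)
    (v : Fin n → Place k (Om k))
    (P : Fin n → (Ec (algebraMap (RatFunc k) (Om k) d.α)
      (algebraMap (RatFunc k) (Om k) d.B)).Point) :
    Alt (Ext hY n) (fun i => Mix_cl hY hd (v i) (P i)) = 0 := by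
  set a₀ : RatFunc k := algebraMap k[X] (RatFunc k) a with ha₀
  set b₀ : RatFunc k := algebraMap k[X] (RatFunc k) b with hb₀
  obtain ⟨o, ho, ho'⟩ := exists_inf (k := k)
  -- the bad place
  have hdisc : b₀ ^ 2 ≠ 4 * a₀ ^ 3 := by
    intro h1
    have h2 := hd.disc
    rw [hdα, hdB, h1, sub_self] at h2
    exact not_isUnit_zero h2
  obtain ⟨δ, hδ⟩ := exists_bad_line hdisc (by
    rintro ⟨f, a₁, b₁, h1, h2⟩
    refine hvar ⟨f, a₁, b₁, ?_, ?_⟩
    · rw [h1, map_mul, map_pow, ← IsScalarTower.algebraMap_apply]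
    · rw [h2, map_mul, map_pow, ← IsScalarTower.algebraMap_apply])
  -- the divisor
  have hbound : ∀ (e : ℕ) (p : k[X]), p.natDegree ≤ e * r →
      algebraMap k[X] (RatFunc k) p ≠ 0 → ∀ v, 0 ≤ ord v (algebraMap k[X] (RatFunc k) p) +
        e * (Finsupp.single o (r : ℤ) : Place k (RatFunc k) →₀ ℤ) v := by
    intro e p hp hne v
    have hp0 : p ≠ 0 := by
      rintro rfl
      exact hne (map_zero _)
    have h1 := ord_poly ho ho' p hp0 v
    rw [Finsupp.single_apply]
    by_cases hv : v = o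
    · subst hv
      rw [if_pos rfl] at h1 ⊢
      have h2 : ((p.natDegree : ℕ) : ℤ) ≤ e * r := by exact_mod_cast hp
      linarith
    · rw [if_neg hv, add_zero] at h1
      rw [if_neg (Ne.symm hv), mul_zero, add_zero]
      exact h1
  have hdeg : deg (Finsupp.single o (r : ℤ) : Place k (RatFunc k) →₀ ℤ) = r := by
    unfold deg
    rw [Finsupp.sum_single_index rfl]
  set S : Set (CH Y Unit) := {c | ∃ v P, c = Mix_cl hY hd v P} with hS
  refine mainC hY hLn hd hdeg hr (fun h0 => ?_) (fun h0 => ?_) riemann_line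
    (by rwa [add_zero]) (δ := δ) (by rwa [hdα, hdB]) S ?_ _
      fun j => Submodule.subset_span ⟨v j, P j, rfl⟩
  · rw [hdα] at h0 ⊢
    exact_mod_cast hbound 4 a ha h0
  · rw [hdB] at h0 ⊢
    exact_mod_cast hbound 6 b hb h0
  rintro U d' hd' hmap _ ⟨v, P, rfl⟩
  let j : RatFunc k →ₐ[k] Om k := IsScalarTower.toAlgHom k (RatFunc k) (Om k)
  have hSj : ((j.comp (regU U).val : regU U →ₐ[k] Om k) : regU U →+* Om k) =
      (algebraMap (RatFunc k) (Om k)).comp ((regU U).val : regU U →+* RatFunc k) := rfl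
  have ea : algebraMap (RatFunc k) (Om k) d.α = (j.comp (regU U).val) d'.α := by
    rw [← congrArg GD.α hmap]
    rfl
  have eb : algebraMap (RatFunc k) (Om k) d.B = (j.comp (regU U).val) d'.B := by
    rw [← congrArg GD.B hmap]
    rfl
  have hr' : d'.rts ((j.comp (regU U).val : regU U →ₐ[k] Om k) : regU U →+* Om k) =
      d.rts (algebraMap (RatFunc k) (Om k)) := by
    rw [hSj, ← rts_map, hmap]
  refine ⟨j, v, castE ea eb P, ?_⟩
  unfold TV Mix_cl
  rw [AddMonoidHom.finsetSum_apply]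
  refine Fintype.sum_equiv (Equiv.subtypeEquivRight fun θ => by rw [hr']) _ _ fun θ => ?_
  have h1 : θ.1 ∈ d'.rts ((j.comp (regU U).val : regU U →ₐ[k] Om k) : regU U →+* Om k) := by
    rw [hr']
    exact θ.2
  have h2 : ∀ t : Om k, d'.mp ((j.comp (regU U).val : regU U →ₐ[k] Om k) :
      regU U →+* Om k) t = d.mp (algebraMap (RatFunc k) (Om k)) t := fun t => by
    rw [hSj, ← mp_map, hmap]
  exact hV_cast hY _ (hd'.mp_ok (j.comp (regU U).val) h1) ea eb (h2 θ.1).symm v P

/-- **The mixed relation.** -/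
theorem mix {α B : Om k} {M : ∀ j, Mp (Om k) (m j)} {r : ℕ}
    (h : ∀ j, IsFib (X j) α B (M j) r) (hr : 0 < r) (hn : r ≤ n)
    (v : Fin n → Place k (Om k)) (P : Fin n → (Ec α B).Point) :
    ∑ π : Equiv.Perm (Fin n), ((Equiv.Perm.sign π : ℤˣ) : ℤ) •
      Extm (fun j => (h j).hom) (fun j => hV (h j).hom (h j).ok (v (π j)) (P (π j))) = 0 := by
  have hX : ∀ j, Hom (X j) := fun j => (h j).hom
  have hM : ∀ j, (M j).Ok α B (X j) := fun j => (h j).ok
  let j₀ : Fin n := ⟨0, by omega⟩
  obtain ⟨a, b, ha, hb, hα, hB⟩ := (h j₀).coef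
  have hvar := (h j₀).var
  obtain ⟨W, hWM, hW⟩ := exists_isProd hM (hM j₀).disc hX
  have hfix := fix_coef (h j₀)
  rw [aeval_tt] at hα hB
  subst hα hB
  obtain ⟨d, θ, hd, hdα, hdB, hdh, hmp⟩ := exists_gd hW
  -- the number of the conjugates
  set N : ℕ := (d.rts (algebraMap (RatFunc k) (Om k))).card with hN
  have hθ : θ ∈ d.rts (algebraMap (RatFunc k) (Om k)) := by
    have hint : IsIntegral (RatFunc k) θ := Algebra.IsIntegral.isIntegral θ
    rw [GD.rts, Multiset.mem_toFinset, hdh, Polynomial.mem_roots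
      ((minpoly.monic hint).map _).ne_zero, Polynomial.IsRoot, Polynomial.eval_map]
    exact minpoly.aeval (RatFunc k) θ
  have hN0 : (N : ℚ) ≠ 0 := by
    rw [Nat.cast_ne_zero, hN, Finset.card_ne_zero]
    exact ⟨θ, hθ⟩
  have ea : algebraMap (RatFunc k) (Om k) (algebraMap k[X] (RatFunc k) a) =
      algebraMap (RatFunc k) (Om k) d.α := by rw [hdα]
  have eb : algebraMap (RatFunc k) (Om k) (algebraMap k[X] (RatFunc k) b) =
      algebraMap (RatFunc k) (Om k) d.B := by rw [hdB]
  -- the images of the classes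
  have key : ∀ (v : Place k (Om k)) P (j : Fin n),
      prU hX j (Mix_cl (hom_sEq hX) hd v (castE ea eb P)) =
        N • hV (hX j) (hM j) v P := by
    intro v P j
    have h1 : ∀ t : {t // t ∈ d.rts (algebraMap (RatFunc k) (Om k))},
        prU hX j (hV (hom_sEq hX)
          (hd.mp_ok (IsScalarTower.toAlgHom k (RatFunc k) (Om k)) t.2) v (castE ea eb P)) =
          hV (hX j) (hM j) v P := by
      intro t
      obtain ⟨τ, hτ⟩ := mp_conj hdh hmp t.2
      have hok : (W.map (τ : Om k →+* Om k)).Ok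
          (algebraMap (RatFunc k) (Om k) (algebraMap k[X] (RatFunc k) a))
          (algebraMap (RatFunc k) (Om k) (algebraMap k[X] (RatFunc k) b)) (sEq X) :=
        ok_conj (τ.restrictScalars k) (hfix τ).1 (hfix τ).2 rfl hW
      have h2 := hV_cast (hom_sEq hX) hok
        (hd.mp_ok (IsScalarTower.toAlgHom k (RatFunc k) (Om k)) t.2) ea eb hτ.symm v P
      refine (congrArg (prU hX j) h2.symm).trans ?_
      rw [prU_hV hX (fun j => ok_map (h j) τ) hok (hWM.conj τ (hfix τ).1 (hfix τ).2),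
        hV_map (h j) τ v P]
    unfold Mix_cl
    rw [map_sum, Finset.sum_congr rfl fun t _ => h1 t, Finset.sum_const, Finset.card_univ,
      Fintype.card_coe]
  have h3 := Mix_main (hom_sEq hX) hd hr hn ha hb hdα hdB hvar v fun i => castE ea eb (P i)
  have h4 := congrArg (prN hX) h3
  rw [Alt_apply, map_sum, map_zero] at h4
  have h5 : ∀ π : Equiv.Perm (Fin n), prN hX (((Equiv.Perm.sign π : ℤˣ) : ℤ) •
      Ext (hom_sEq hX) n fun j => Mix_cl (hom_sEq hX) hd (v (π j)) (castE ea eb (P (π j)))) =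
      ((N : ℚ) ^ n) • (((Equiv.Perm.sign π : ℤˣ) : ℤ) •
        Extm hX (fun j => hV (hX j) (hM j) (v (π j)) (P (π j)))) := by
    intro π
    rw [map_zsmul, prN_Ext, smul_comm]
    congr 1
    have h6 : (fun j => prU hX j (Mix_cl (hom_sEq hX) hd (v (π j)) (castE ea eb (P (π j))))) =
        fun j => (N : ℚ) • hV (hX j) (hM j) (v (π j)) (P (π j)) := by
      funext j
      rw [key, Nat.cast_smul_eq_nsmul]
    rw [h6, MultilinearMap.map_smul_univ, Finset.prod_const, Finset.card_univ, Fintype.card_fin]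
  rw [Finset.sum_congr rfl fun π _ => h5 π, ← Finset.smul_sum] at h4
  exact (smul_eq_zero.1 h4).resolve_left (pow_ne_zero _ hN0)

end Pool.Agent.QTF
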