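import Pool.Agent.QTF.Glue
import Pool.Agent.QTF.Mix
import Pool.Agent.QTF.GrAbs
import Pool.Agent.QTF.FilM

/-!
# The mixed relation on a product of surfaces
-/

set_option autoImplicit false

noncomputable section

namespace Pool.Agent.QTF

open Pool.Agent.ZCyc Pool.Agent.WFC
open Pool.Agent.ZIso (fixing)
open Pool.Agent.VFP (Om tt)
open scoped Classical

section Gen

variable {l : ℕ} {H : Fin l → Type*} [∀ j, AddCommGroup (H j)] [∀ j, Module ℚ (H j)]
  {U : Type*} [AddCommGroup U] [Module ℚ U]

/-- A relation with vectors of the spanning sets `G j` in the places outside `J` is true for all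
vectors in these places. -/
theorem gen_pos {ι : Type*} (s : Finset ι) (c : ι → ℚ) (J : Finset (Fin l)) (g : ι → ∀ j, H j)
    (E : MultilinearMap ℚ H U) (G : ∀ j, Set (H j)) (hG : ∀ j v, v ∈ Submodule.span ℚ (G j))
    (hne : ∀ j, (G j).Nonempty)
    (h : ∀ w : ∀ j, H j, (∀ j, w j ∈ G j) →
      ∑ π ∈ s, c π • E (fun j => if j ∈ J then g π j else w j) = 0) (w : ∀ j, H j) :
    ∑ π ∈ s, c π • E (fun j => if j ∈ J then g π j else w j) = 0 := by
  have key : ∀ (T : Finset (Fin l)) (w : ∀ j, H j), (∀ j ∉ T, w j ∈ G j) →
      ∑ π ∈ s, c π • E (fun j => if j ∈ J then g π j else w j) = 0 := by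
    intro T
    induction T using Finset.induction_on with
    | empty => exact fun w hw => h w fun j => hw j (Finset.notMem_empty j)
    | insert a T haT ih =>
      intro w hw
      by_cases ha : a ∈ J
      · obtain ⟨v, hv⟩ := hne a
        rw [← ih (Function.update w a v)]
        · refine Finset.sum_congr rfl fun π _ => ?_
          congr 2
          funext j
          split_ifs with hj
          · rfl
          · rw [Function.update_of_ne]
            rintro rfl
            exact hj ha
        · intro j hj
          by_cases hja : j = a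
          · subst hja
            rw [Function.update_self]
            exact hv
          · rw [Function.update_of_ne hja]
            exact hw j fun h => (Finset.mem_insert.1 h).elim hja hj
      · have hupd : ∀ (π : ι) (v : H a), (fun j => if j ∈ J then g π j else
            Function.update w a v j) =
            Function.update (fun j => if j ∈ J then g π j else w j) a v := by
          intro π v
          funext j
          by_cases hja : j = a
          · subst hja
            rw [if_neg ha, Function.update_self, Function.update_self]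
          · rw [Function.update_of_ne hja, Function.update_of_ne hja]
        have main : ∀ v : H a, ∑ π ∈ s, c π • E (fun j => if j ∈ J then g π j else
            Function.update w a v j) = 0 := by
          intro v
          induction hG a v using Submodule.span_induction with
          | mem v hv =>
            refine ih _ fun j hj => ?_
            by_cases hja : j = a
            · subst hja
              rw [Function.update_self]
              exact hv
            · rw [Function.update_of_ne hja]
              exact hw j fun h => (Finset.mem_insert.1 h).elim hja hj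
          | zero =>
            refine Finset.sum_eq_zero fun π _ => ?_
            rw [hupd, E.map_update_zero, smul_zero]
          | add v v' _ _ h1 h2 =>
            rw [← add_zero (0 : U)]
            nth_rw 1 [← h1]
            rw [← h2, ← Finset.sum_add_distrib]
            refine Finset.sum_congr rfl fun π _ => ?_
            rw [hupd, hupd, hupd, E.map_update_add, smul_add]
          | smul b v _ h1 =>
            rw [← smul_zero b, ← h1, Finset.smul_sum]
            refine Finset.sum_congr rfl fun π _ => ?_
            rw [hupd, hupd, E.map_update_smul, smul_comm]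
        have h3 := main (w a)
        rwa [Function.update_eq_self] at h3
  exact key Finset.univ w fun j hj => absurd (Finset.mem_univ j) hj

end Gen

variable {k : Type} [Field k] {n l : ℕ}

/-- the classes of the points span the classes on a surface -/
theorem clS_span (W : TS k) (x : V1 W) : x ∈ Submodule.span ℚ (Set.range (clS W)) := by
  obtain ⟨z, rfl⟩ := mkS_surj W x
  rw [mkS, Finsupp.linearCombination_apply]
  exact Submodule.sum_mem _ fun t _ => Submodule.smul_mem _ _ (Submodule.subset_span ⟨t, rfl⟩)

/-- the point with the coordinates `o` -/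
def toPt (a b : Polynomial k) (o : Option (Om k × Om k)) :
    (GT.Ec (inOm a) (inOm b)).Point :=
  match o with
  | none => 0
  | some p => if h : (GT.Ec (inOm a) (inOm b)).Nonsingular p.1 p.2 then .some p.1 p.2 h else 0

theorem toPt_surj (a b : Polynomial k) (P : (GT.Ec (inOm a) (inOm b)).Point) :
    ∃ o, toPt a b o = P := by
  rcases P with _ | ⟨x, y, h⟩
  · exact ⟨none, rfl⟩
  · refine ⟨some (x, y), ?_⟩
    unfold toPt
    simp only
    rw [dif_pos h]

variable [IsAlgClosed k] [CharZero k]

/-- the values of the limit homomorphisms of the surface `W`: the letter `y` is a place and the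
coordinates of a point -/
def hr (W : TS k) (y : Place k (Om k) × Option (Om k × Om k)) : V1 W :=
  hh W y.1 (toPt W.a W.b y.2)

theorem hr_eq (W : TS k) {a b : Polynomial k} {r : ℕ} (ha : W.a = a) (hb : W.b = b)
    (hW : KAll.IsFib W.X (inOm a) (inOm b) W.M r) (v : Place k (Om k))
    (o : Option (Om k × Om k)) :
    brS W (GT.hV hW.hom hW.ok v (toPt a b o)) = hr W (v, o) := by
  subst ha hb
  rfl

/-- the mixed relation for a product of surfaces with the same elliptic curve -/
theorem mixT {Z : Fin n → TS k} {a b : Polynomial k} {r : ℕ}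
    (h : ∀ j, (Z j).a = a ∧ (Z j).b = b ∧ (Z j).r = r) (hr0 : 0 < r) (hn : r ≤ n)
    (y : Fin n → Place k (Om k) × Option (Om k × Om k)) :
    ∑ π : Equiv.Perm (Fin n), ((Equiv.Perm.sign π : ℤ) : ℚ) •
      mulT Z (fun j => hr (Z j) (y (π j))) = 0 := by
  have hfib : ∀ j, KAll.IsFib (Z j).X (inOm a) (inOm b) (Z j).M r := by
    intro j
    have h1 := (Z j).isFib
    rwa [(h j).1, (h j).2.1, (h j).2.2] at h1
  have h1 := congrArg (brT Z) (mix hfib hr0 hn (fun i => (y i).1) fun i => toPt a b (y i).2)
  rw [map_sum, map_zero] at h1
  rw [← h1]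
  refine Finset.sum_congr rfl fun π _ => ?_
  rw [map_zsmul, Int.cast_smul_eq_zsmul]
  congr 1
  rw [show Extm (fun j => (hfib j).hom) (fun j => GT.hV (hfib j).hom (hfib j).ok (y (π j)).1
      (toPt a b (y (π j)).2)) = Extm (fun j => (Z j).hom) (fun j => GT.hV (hfib j).hom
        (hfib j).ok (y (π j)).1 (toPt a b (y (π j)).2)) from rfl, ← mulT_brS]
  congr 1
  funext j
  exact (hr_eq (Z j) (h j).1 (h j).2.1 (hfib j) _ _).symm

/-- **The mixed relation** for the factors in `J`, which belong to the same elliptic curve. -/
theorem alt_mulT {Z : Fin l → TS k} {J : Finset (Fin l)} {a b : Polynomial k} {r : ℕ}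
    (hJ : ∀ j ∈ J, (Z j).a = a ∧ (Z j).b = b ∧ (Z j).r = r) (hr0 : 0 < r) (hc : J.card = r)
    (y : Fin l → Place k (Om k) × Option (Om k × Om k)) (w : ∀ j, V1 (Z j)) :
    ∑ π ∈ fixing J, ((Equiv.Perm.sign π : ℤ) : ℚ) •
      mulT Z (fun j => if j ∈ J then hr (Z j) (y (π j)) else w j) = 0 := by
  refine gen_pos (fixing J) (fun π => ((Equiv.Perm.sign π : ℤ) : ℚ)) J
    (fun π j => hr (Z j) (y (π j))) (mulT Z) (fun j => Set.range (clS (Z j)))
    (fun j => clS_span (Z j)) (fun j => ⟨_, (Z j).oo, rfl⟩) (fun w hw => ?_) w
  choose x hx using hw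
  obtain rfl : (fun j => clS (Z j) (x j)) = w := funext hx
  let e := J.orderEmbOfFin hc
  have heJ : ∀ j, j ∈ J ↔ ∃ b, e b = j := by
    intro j
    have h1 : Set.range e = (J : Set (Fin l)) := J.range_orderEmbOfFin hc
    have h2 : j ∈ Set.range e ↔ j ∈ (J : Set (Fin l)) := by rw [h1]
    rw [Finset.mem_coe] at h2
    exact h2.symm
  have hmap : (Finset.univ : Finset (Fin r)).map e.toEmbedding = J := by
    ext j
    rw [Finset.mem_map, heJ]
    simp
  have hfix : fixing (Finset.univ : Finset (Fin r)) = Finset.univ := by
    ext π
    simp [fixing]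
  have h1 := congrArg (gl e.injective x) (mixT (Z := fun i => Z (e i)) (a := a) (b := b) (r := r)
    (fun i => hJ _ ((heJ _).2 ⟨i, rfl⟩)) hr0 le_rfl fun i => y (e i))
  rw [map_sum, map_zero] at h1
  rw [← h1]
  have h2 := sum_fixing e.toEmbedding Finset.univ
    (fun π => gl e.injective x (((Equiv.Perm.sign π : ℤ) : ℚ) •
      mulT (fun i => Z (e i)) (fun i => hr (Z (e i)) (y (e (π i))))))
    (fun π => ((Equiv.Perm.sign π : ℤ) : ℚ) •
      mulT Z (fun j => if j ∈ J then hr (Z j) (y (π j)) else clS (Z j) (x j))) ?_
  · rw [hfix, hmap] at h2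
    exact h2.symm
  intro π _
  rw [map_smul, gl_mulT, sign_via]
  congr 2
  funext j
  by_cases hj : j ∈ J
  · rw [if_pos hj]
    obtain ⟨i, rfl⟩ := (heJ j).1 hj
    rw [glue_self e.injective]
    congr 2
    exact (Equiv.Perm.viaEmbedding_apply π e.toEmbedding i).symm
  · rw [if_neg hj, glue_of _ _ fun h => hj ((heJ j).2 h)]

end Pool.Agent.QTF
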