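import Pool.Agent.EFC.MoveSum
import Pool.Agent.TInc.OrdDiv

/-!
# Divisors of functions and families over the line

The divisor of a function `f` on a curve is the difference of two members of a family of effective
divisors which is parametrised by the line, the fibres of `f / (1 + f)`.
-/

set_option autoImplicit false

noncomputable section

namespace Pool.Agent.QTF

open Pool.Agent.ZCyc Pool.Agent.Dess Pool.Agent.TInc
open Pool.Agent.VFP (Om tt)
open scoped Classical

universe u

variable {k : Type} [Field k] [IsAlgClosed k] [CharZero k] {K : Type} [Field K] [Algebra k K]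

omit [CharZero k] in
private theorem exists_const_of_algebraic {f : K} (h : IsAlgebraic k f) :
    ∃ c : k, algebraMap k K c = f := by
  have h1 : (minpoly k f).degree = 1 := IsAlgClosed.degree_eq_one_of_irreducible k
    (minpoly.irreducible h.isIntegral)
  obtain ⟨c, hc⟩ := minpoly.mem_range_of_degree_eq_one k f h1
  exact ⟨c, hc⟩

/-- **The bridge.** -/
theorem bridge_abs (hK : IsCurve k K) {f : K} (hf : f ≠ 0) (D : Place k K →₀ ℤ)
    (hD : ∀ v, HasOrd v f (D v)) : D = 0 ∨
    ∃ (E : Finset (K →ₐ[k] Om k)) (a a' : k),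
      (∀ (g : Om k ≃ₐ[RatFunc k] Om k), ∀ σ ∈ E,
        ((g.restrictScalars k : Om k ≃ₐ[k] Om k) : Om k →ₐ[k] Om k).comp σ ∈ E) ∧
      ∀ (V V' : Place k (Om k)), V.Vanishes (tt k - algebraMap k (Om k) a) →
        V'.Vanishes (tt k - algebraMap k (Om k) a') →
        ∀ (γ γ' : (K →ₐ[k] Om k) → Place k K),
          (∀ σ ∈ E, (γ σ).ring = V.ring.comap σ.toRingHom) →
          (∀ σ ∈ E, (γ' σ).ring = V'.ring.comap σ.toRingHom) →
          ∀ {W : Type u} [AddCommGroup W] [Module ℚ W] (c : Place k K → W),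
            (D.sum fun v n => (n : ℚ) • c v) = ∑ σ ∈ E, (c (γ σ) - c (γ' σ)) := by
  have hDo : ∀ v, D v = ord v f := fun v => (ord_eq hK hf (hD v)).symm
  by_cases hal : Transcendental k f
  swap
  · left
    rw [Transcendental, not_not] at hal
    obtain ⟨c, hc⟩ := exists_const_of_algebraic hal
    ext v
    rw [hDo, ← hc, ord_const hK]
    rfl
  right
  have h1f : 1 + f ≠ 0 := by
    intro h
    apply hal
    have : f = algebraMap k K (-1) := by
      rw [map_neg, map_one]
      exact (eq_neg_of_add_eq_zero_right h)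
    rw [this]
    exact isAlgebraic_algebraMap _
  have htt : Transcendental k (tt k) := Pool.Agent.VFP.tt_transc
  set ψ : K := f / (1 + f) with hψdef
  have hψ1 : ψ - algebraMap k K 1 = -(1 + f)⁻¹ := by
    rw [hψdef, map_one]
    field_simp
    ring
  have hψ : Transcendental k ψ := by
    intro h
    apply hal
    have h2 : f = (1 - ψ)⁻¹ - 1 := by
      have h3 : 1 - ψ = (1 + f)⁻¹ := by
        rw [map_one] at hψ1
        rw [← neg_sub, hψ1, neg_neg]
      rw [h3, inv_inv]
      ring
    rw [h2]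
    exact ((isAlgebraic_one.sub h).inv).sub isAlgebraic_one
  obtain ⟨E, hE⟩ := EFC.exists_E hK hψ htt
  refine ⟨E, 0, 1, fun g σ hσ => ?_, ?_⟩
  · rw [hE] at hσ ⊢
    change g (σ ψ) = tt k
    rw [hσ]
    exact g.commutes RatFunc.X
  intro V V' hV hV' γ γ' hγ hγ' W _ _ c
  obtain ⟨T, hT⟩ := EFC.exists_T hK hψ (0 : k)
  obtain ⟨T', hT'⟩ := EFC.exists_T hK hψ (1 : k)
  rw [Finset.sum_sub_distrib, EFC.sum_emb hK hψ htt hV c hE hγ hT,
    EFC.sum_emb hK hψ htt hV' c hE hγ' hT']
  have hψ0 : ψ ≠ 0 := by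
    intro h
    apply hψ
    rw [h]
    exact isAlgebraic_zero
  have e0 : ψ - algebraMap k K 0 = ψ := by rw [map_zero, sub_zero]
  have o1 : ∀ v, ord v ψ = ord v f - ord v (1 + f) := fun v => by
    rw [hψdef, div_eq_mul_inv, ord_mul hK v hf (inv_ne_zero h1f), ord_inv hK]
    ring
  have o2 : ∀ v, ord v (ψ - algebraMap k K 1) = -ord v (1 + f) := fun v => by
    rw [hψ1, ord_neg hK, ord_inv hK]
  have one0 : ∀ v : Place k K, ord v (1 : K) = 0 := fun v => by
    rw [← map_one (algebraMap k K), ord_const hK]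
  have p1 : ∀ v, 0 < ord v f → ord v (1 + f) = 0 := fun v h => by
    rw [(ord_add_eq hK (v := v) one_ne_zero fun _ => by rwa [one0]).2, one0]
  have p2 : ∀ v, ord v f < 0 → ord v (1 + f) = ord v f := fun v h => by
    rw [add_comm, (ord_add_eq hK (v := v) hf fun _ => by rwa [one0]).2]
  have p3 : ∀ v, 0 ≤ ord v f → 0 ≤ ord v (1 + f) := fun v h =>
    le_ord_add hK h1f (fun _ => by rw [one0]) fun _ => h
  have hψ1' : ψ - algebraMap k K 1 ≠ 0 := by
    rw [hψ1]
    exact neg_ne_zero.2 (inv_ne_zero h1f)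
  have t1 : ∀ v, v ∈ T ↔ 0 < ord v f := fun v => by
    have h1 : v ∈ T ↔ 0 < ord v (ψ - algebraMap k K 0) := by
      rw [hT, ← vanishes_iff_ord hK (by rwa [e0])]
      rfl
    rw [h1, e0, o1]
    rcases lt_trichotomy (ord v f) 0 with h | h | h
    · rw [p2 v h]
      omega
    · have := p3 v h.ge
      omega
    · rw [p1 v h]
      omega
  have t2 : ∀ v, v ∈ T' ↔ ord v f < 0 := fun v => by
    have h1 : v ∈ T' ↔ 0 < ord v (ψ - algebraMap k K 1) := by
      rw [hT', ← vanishes_iff_ord hK hψ1']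
      rfl
    rw [h1, o2]
    rcases lt_trichotomy (ord v f) 0 with h | h | h
    · rw [p2 v h]
      omega
    · have := p3 v h.ge
      omega
    · rw [p1 v h]
      omega
  have hsupp : D.support = T ∪ T' := by
    ext v
    rw [Finsupp.mem_support_iff, hDo, Finset.mem_union, t1, t2]
    omega
  have hdis : Disjoint T T' := by
    rw [Finset.disjoint_left]
    intro v h h'
    rw [t1] at h
    rw [t2] at h'
    omega
  rw [Finsupp.sum, hsupp, Finset.sum_union hdis, sub_eq_add_neg, ← Finset.sum_neg_distrib]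
  congr 1
  · refine Finset.sum_congr rfl fun v hv => ?_
    rw [e0, o1, p1 v ((t1 v).1 hv), sub_zero, hDo]
  · refine Finset.sum_congr rfl fun v hv => ?_
    rw [o2, p2 v ((t2 v).1 hv), hDo, ← neg_smul, ← Int.cast_neg, neg_neg]

end Pool.Agent.QTF
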