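import Pool.Agent.GT.Ext

/-!
# Zero-cycles on products of different projective varieties

`extm`, `MRat`, `CHm` and `Extm` are `GT.ext`, `GT.Rat`, `GT.CH` and `GT.Ext` for the product of the
varieties with the equations `X 0`, ..., `X (n - 1)` (instead of a power of one variety).
-/

set_option autoImplicit false

noncomputable section

namespace Pool.Agent.QTF

open Pool.Agent.ZCyc Pool.Agent.Dess Pool.Agent.GT
open Pool.Agent.VFP (Om tt)
open scoped Classical LinearAlgebra.Projectivization

section ext

variable {n : ℕ} {T T' : Fin n → Type}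

/-- the exterior product of zero-cycles -/
def extm (z : ∀ j, T j →₀ ℚ) : (∀ j, T j) →₀ ℚ :=
  ∑ x ∈ Fintype.piFinset fun j => (z j).support, Finsupp.single x (∏ j, z j (x j))

theorem extm_eq_ext {T : Type} (z : Fin n → (T →₀ ℚ)) : extm z = ext z := rfl

theorem extm_apply (z : ∀ j, T j →₀ ℚ) (x : ∀ j, T j) : extm z x = ∏ j, z j (x j) := by
  unfold extm
  rw [Finsupp.finsetSum_apply]
  simp only [Finsupp.single_apply]
  rw [Finset.sum_ite_eq' (Fintype.piFinset fun j => (z j).support) x (fun x => ∏ j, z j (x j))]
  split_ifs with h
  · rfl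
  · rw [Fintype.mem_piFinset] at h
    push Not at h
    obtain ⟨j, hj⟩ := h
    have h0 : z j (x j) = 0 := Finsupp.notMem_support_iff.1 hj
    exact (Finset.prod_eq_zero (Finset.mem_univ j) h0).symm

/-- the exterior product as a multilinear map -/
def extmM (T : Fin n → Type) : MultilinearMap ℚ (fun j => T j →₀ ℚ) ((∀ j, T j) →₀ ℚ) :=
  have key : ∀ (z : ∀ j, T j →₀ ℚ) (i : Fin n) (a : T i →₀ ℚ) (x : ∀ j, T j),
      extm (Function.update z i a) x = a (x i) * ∏ j ∈ Finset.univ.erase i, z j (x j) := by
    intro z i a x
    rw [extm_apply, ← Finset.mul_prod_erase Finset.univ _ (Finset.mem_univ i)]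
    congr 1
    · simp
    · refine Finset.prod_congr rfl fun j hj => ?_
      rw [Function.update_of_ne (Finset.ne_of_mem_erase hj)]
  MultilinearMap.mk' extm
    (fun z i a b => Finsupp.ext fun x => by
      rw [Finsupp.add_apply, key, key, key, Finsupp.add_apply, add_mul])
    (fun z i c a => Finsupp.ext fun x => by
      rw [Finsupp.smul_apply, key, key, Finsupp.smul_apply, smul_eq_mul, smul_eq_mul, mul_assoc])

theorem extmM_apply (z : ∀ j, T j →₀ ℚ) : extmM T z = extm z := rfl

theorem extm_single (x : ∀ j, T j) (a : Fin n → ℚ) :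
    extm (fun j => Finsupp.single (x j) (a j)) = Finsupp.single x (∏ j, a j) := by
  refine Finsupp.ext fun y => ?_
  rw [extm_apply]
  by_cases h : x = y
  · subst h
    simp
  · rw [Finsupp.single_eq_of_ne (Ne.symm h)]
    obtain ⟨j, hj⟩ := Function.ne_iff.1 h
    exact Finset.prod_eq_zero (Finset.mem_univ j) (Finsupp.single_eq_of_ne (Ne.symm hj))

theorem extm_mapDomain (g : ∀ j, T j → T' j) (z : ∀ j, T j →₀ ℚ) :
    extm (fun j => Finsupp.mapDomain (g j) (z j)) =
      Finsupp.mapDomain (fun x j => g j (x j)) (extm z) := by
  have h1 : (fun j => Finsupp.mapDomain (g j) (z j)) =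
      fun j => ∑ t ∈ (z j).support, Finsupp.single (g j t) (z j t) := by
    funext j
    rfl
  rw [← extmM_apply, h1, MultilinearMap.map_sum_finset]
  unfold extm
  rw [Finsupp.mapDomain_finsetSum]
  refine Finset.sum_congr rfl fun r _ => ?_
  rw [extmM_apply, extm_single (fun j => g j (r j)) (fun j => z j (r j)), Finsupp.mapDomain_single]

end ext

variable {k : Type} [Field k] {n : ℕ} {m : Fin n → ℕ}

/-- The zero-cycles on the product of the varieties `X j` which are rationally equivalent to zero:
the span of the push-forwards of the divisors `D` of all rational functions `f` on all smooth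
projective curves (with the function field `K`) by all maps `x` to the product. -/
def MRat (X : ∀ j, Set (MvPolynomial (Fin (m j + 1)) k)) :
    Submodule ℚ ((∀ j, Pt (X j) k) →₀ ℚ) :=
  Submodule.span ℚ {z | ∃ (K : Type) (_ : Field K) (_ : Algebra k K) (_ : IsCurve k K)
    (x : ∀ j, Pt (X j) K) (y : Place k K → ∀ j, Pt (X j) k) (f : K) (D : Place k K →₀ ℤ),
    f ≠ 0 ∧ (∀ v, HasOrd v f (D v)) ∧ (∀ v j, IsVal v (x j) (y v j)) ∧
    z = D.sum fun v a => Finsupp.single (y v) (a : ℚ)}

/-- the Chow group of zero-cycles with rational coefficients of the product -/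
abbrev CHm (X : ∀ j, Set (MvPolynomial (Fin (m j + 1)) k)) : Type :=
  ((∀ j, Pt (X j) k) →₀ ℚ) ⧸ MRat X

variable {X : ∀ j, Set (MvPolynomial (Fin (m j + 1)) k)}

/-- the factor `j` is rationally equivalent to zero, the other factors are points -/
private theorem MExt_base (hX : ∀ j, Hom (X j)) (j : Fin n) (x : ∀ j, Pt (X j) k)
    (w : (Unit → Pt (X j) k) →₀ ℚ) (hw : w ∈ Rat (X j) Unit) :
    extm (Function.update (fun i => Finsupp.single (x i) (1 : ℚ)) j
      (Finsupp.mapDomain (fun x => x ()) w)) ∈ MRat X := by
  let L : ((Unit → Pt (X j) k) →₀ ℚ) →ₗ[ℚ] ((∀ j, Pt (X j) k) →₀ ℚ) :=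
    ((extmM fun j => Pt (X j) k).toLinearMap (fun i => Finsupp.single (x i) 1) j).comp
      (Finsupp.lmapDomain ℚ ℚ fun x : Unit → Pt (X j) k => x ())
  have hL : ∀ (p : Unit → Pt (X j) k) (a : ℚ),
      L (Finsupp.single p a) = Finsupp.single (Function.update x j (p ())) a := by
    intro p a
    have h1 : L (Finsupp.single p a) = extm (Function.update (fun i => Finsupp.single (x i) 1) j
        (Finsupp.single (p ()) a)) := by
      change extm (Function.update (fun i => Finsupp.single (x i) 1) j
        (Finsupp.mapDomain (fun x : Unit → Pt (X j) k => x ()) (Finsupp.single p a))) = _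
      rw [Finsupp.mapDomain_single]
    have h2 : Function.update (fun i => Finsupp.single (x i) (1 : ℚ)) j
        (Finsupp.single (p ()) a) = fun i => Finsupp.single (Function.update x j (p ()) i)
          (Function.update (fun _ => (1 : ℚ)) j a i) := by
      funext i
      by_cases h : i = j
      · subst h
        simp
      · simp [Function.update_of_ne h]
    rw [h1, h2, extm_single, Finset.prod_update_of_mem (Finset.mem_univ j)]
    simp
  have hle : Rat (X j) Unit ≤ Submodule.comap L (MRat X) := by
    refine Submodule.span_le.2 ?_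
    rintro _ ⟨K, i1, i2, i3, xK, y, f, D, hf, hD, hval, rfl⟩
    change L _ ∈ MRat X
    rw [map_finsuppSum]
    refine Submodule.subset_span ⟨K, i1, i2, i3, Function.update
      (fun i => (x i).map (Algebra.ofId k K) (hX i)) j (xK ()),
      fun v => Function.update x j (y v ()), f, D, hf, hD, fun v i => ?_, ?_⟩
    · by_cases h : i = j
      · subst h
        simpa using hval v ()
      · simp only [Function.update_of_ne h]
        exact isVal_const
    · exact Finsupp.sum_congr fun v _ => hL _ _
  exact hle hw

private theorem MExt_step (hX : ∀ j, Hom (X j)) (j : Fin n)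
    (w : (Unit → Pt (X j) k) →₀ ℚ) (hw : w ∈ Rat (X j) Unit) (T : Finset (Fin n)) :
    ∀ z : ∀ j, (Pt (X j) k →₀ ℚ), (∀ i ∉ T, i ≠ j → ∃ x, z i = Finsupp.single x 1) →
      extm (Function.update z j (Finsupp.mapDomain (fun x => x ()) w)) ∈ MRat X := by
  induction T using Finset.induction_on with
  | empty =>
    intro z hz
    by_cases hne : ∀ i, Nonempty (Pt (X i) k)
    · have h1 : ∀ i, ∃ x, i ≠ j → z i = Finsupp.single x 1 := by
        intro i
        by_cases h : i = j
        · obtain ⟨p⟩ := hne i
          exact ⟨p, fun h' => absurd h h'⟩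
        · obtain ⟨x, hx⟩ := hz i (Finset.notMem_empty i) h
          exact ⟨x, fun _ => hx⟩
      choose x hx using h1
      have h2 : Function.update z j (Finsupp.mapDomain (fun x => x ()) w) =
          Function.update (fun i => Finsupp.single (x i) 1) j
            (Finsupp.mapDomain (fun x => x ()) w) := by
        funext i
        by_cases h : i = j
        · subst h
          simp
        · simp [Function.update_of_ne h, hx i h]
      rw [h2]
      exact MExt_base hX j x w hw
    · push Not at hne
      obtain ⟨i, hi⟩ := hne
      have h3 : extm (Function.update z j (Finsupp.mapDomain (fun x => x ()) w)) = 0 := by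
        ext q
        exact (hi.false (q i)).elim
      rw [h3]
      exact Submodule.zero_mem _
  | insert a T _ ih =>
    intro z hz
    by_cases haj : a = j
    · subst haj
      refine ih z fun i hi hij => hz i (fun h => ?_) hij
      rcases Finset.mem_insert.1 h with h | h
      · exact hij h
      · exact hi h
    · have key : ∀ u : Pt (X a) k →₀ ℚ, extmM (fun j => Pt (X j) k)
          (Function.update (Function.update z j
            (Finsupp.mapDomain (fun x => x ()) w)) a u) ∈ MRat X := by
        intro u
        induction u using Finsupp.induction_linear with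
        | zero =>
          rw [MultilinearMap.map_update_zero]
          exact Submodule.zero_mem _
        | add u u' hu hu' =>
          rw [MultilinearMap.map_update_add]
          exact Submodule.add_mem _ hu hu'
        | single p c =>
          have h1 : Finsupp.single p c = c • Finsupp.single p (1 : ℚ) := by simp
          rw [h1, MultilinearMap.map_update_smul]
          refine Submodule.smul_mem _ _ ?_
          rw [Function.update_comm (Ne.symm haj)]
          refine ih _ fun i hi hij => ?_
          by_cases hia : i = a
          · subst hia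
            exact ⟨p, by simp⟩
          · rw [Function.update_of_ne hia]
            exact hz i (fun h => (Finset.mem_insert.1 h).elim hia hi) hij
      have h2 := key (z a)
      have h3 : Function.update (Function.update z j (Finsupp.mapDomain (fun x => x ()) w)) a
          (z a) = Function.update z j (Finsupp.mapDomain (fun x => x ()) w) := by
        rw [Function.update_comm (Ne.symm haj), Function.update_eq_self]
      rwa [h3] at h2

/-- If one factor is rationally equivalent to zero on the variety then the product is rationally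
equivalent to zero. -/
theorem extm_rat (hX : ∀ j, Hom (X j)) (z : ∀ j, (Pt (X j) k →₀ ℚ)) (j : Fin n)
    (h : cl1 (X j) (z j) = 0) : extm z ∈ MRat X := by
  have h1 : Finsupp.mapDomain (fun x _ => x) (z j) ∈ Rat (X j) Unit :=
    (Submodule.Quotient.mk_eq_zero _).1 h
  have h2 := MExt_step hX j _ h1 Finset.univ z fun i hi => absurd (Finset.mem_univ i) hi
  rw [← Finsupp.mapDomain_comp] at h2
  have h3 : ((fun x : Unit → Pt (X j) k => x ()) ∘ fun (x : Pt (X j) k) (_ : Unit) => x) = id :=
    rfl
  rwa [h3, Finsupp.mapDomain_id, Function.update_eq_self] at h2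

/-- every class is the class of a cycle -/
theorem cl1_surj {m : ℕ} (X : Set (MvPolynomial (Fin (m + 1)) k)) :
    Function.Surjective (cl1 X) := by
  intro c
  obtain ⟨w, rfl⟩ := Submodule.Quotient.mk_surjective _ c
  refine ⟨Finsupp.mapDomain (fun x => x ()) w, ?_⟩
  change Submodule.Quotient.mk (Finsupp.mapDomain (fun x _ => x)
    (Finsupp.mapDomain (fun x => x ()) w)) = _
  rw [← Finsupp.mapDomain_comp]
  have h3 : ((fun (x : Pt X k) (_ : Unit) => x) ∘ fun x : Unit → Pt X k => x ()) = id := rfl
  rw [h3, Finsupp.mapDomain_id]

private theorem MExt_congr (hX : ∀ j, Hom (X j)) (z z' : ∀ j, (Pt (X j) k →₀ ℚ))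
    (h : ∀ j, cl1 (X j) (z' j) = cl1 (X j) (z j)) (T : Finset (Fin n)) :
    (Submodule.Quotient.mk (extm (T.piecewise z' z)) : CHm X) =
      Submodule.Quotient.mk (extm z) := by
  induction T using Finset.induction_on with
  | empty => rw [Finset.piecewise_empty]
  | insert a T haT ih =>
    rw [← ih, Finset.piecewise_insert]
    have h1 : T.piecewise z' z = Function.update (T.piecewise z' z) a (z a) := by
      rw [← Finset.piecewise_eq_of_notMem T z' z haT, Function.update_eq_self]
    have h2 : extmM (fun j => Pt (X j) k) (Function.update (T.piecewise z' z) a (z' a)) -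
        extmM (fun j => Pt (X j) k) (T.piecewise z' z) =
        extmM (fun j => Pt (X j) k) (Function.update (T.piecewise z' z) a (z' a - z a)) := by
      rw [MultilinearMap.map_update_sub, ← h1]
    rw [Submodule.Quotient.eq]
    change extmM (fun j => Pt (X j) k) (Function.update (T.piecewise z' z) a (z' a)) -
        extmM (fun j => Pt (X j) k) (T.piecewise z' z) ∈ MRat X
    rw [h2]
    refine extm_rat hX _ a ?_
    rw [Function.update_self, map_sub, h, sub_self]

/-- The exterior product of classes. -/
theorem exists_Extm (hX : ∀ j, Hom (X j)) :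
    ∃ E : MultilinearMap ℚ (fun j => CH (X j) Unit) (CHm X),
      ∀ z : ∀ j, (Pt (X j) k →₀ ℚ), E (fun j => cl1 (X j) (z j)) =
        Submodule.Quotient.mk (extm z) := by
  choose s hs using fun j => (cl1 (X j)).exists_rightInverse_of_surjective
    (LinearMap.range_eq_top.2 (cl1_surj (X j)))
  refine ⟨(MRat X).mkQ.compMultilinearMap
    ((extmM fun j => Pt (X j) k).compLinearMap fun j => s j), fun z => ?_⟩
  have h1 := MExt_congr hX z (fun j => s j (cl1 (X j) (z j)))
    (fun j => LinearMap.congr_fun (hs j) (cl1 (X j) (z j))) Finset.univ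
  rw [Finset.piecewise_univ] at h1
  exact h1

/-- the exterior product of classes -/
def Extm (hX : ∀ j, Hom (X j)) : MultilinearMap ℚ (fun j => CH (X j) Unit) (CHm X) :=
  (exists_Extm hX).choose

theorem Extm_cl (hX : ∀ j, Hom (X j)) (z : ∀ j, (Pt (X j) k →₀ ℚ)) :
    Extm hX (fun j => cl1 (X j) (z j)) = Submodule.Quotient.mk (extm z) :=
  (exists_Extm hX).choose_spec z

end Pool.Agent.QTF
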