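import Pool.Agent.QTF.Stmt
import Pool.Agent.WFC.FFil
import Pool.Agent.KEx.Defs

/-!
# The classes of points on the products
-/

set_option autoImplicit false

noncomputable section

namespace Pool.Agent.QTF

open Pool.Agent.ZCyc
open Pool.Agent.VFP (Om tt)
open Pool.Agent.WFC
open scoped Classical

variable {k : Type} [Field k] {m m' l l' : ℕ}

/-- zero-cycles on the product modulo rational equivalence -/
abbrev V (X : Fin m → WC k) (Z : Fin l → TS k) : Type 1 := (PtM m Z →₀ ℚ) ⧸ ratEq X Z

/-- the class of a point -/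
def cl (X : Fin m → WC k) (Z : Fin l → TS k) (p : PtM m Z) : V X Z :=
  Submodule.Quotient.mk (Finsupp.single p 1)

/-- the empty family of varieties of the class `WC` -/
abbrev e0 (k : Type) [Field k] : Fin 0 → WC k := Fin.elim0

/-- the point of the empty product -/
abbrev p0 (k : Type) [Field k] : Pts 0 k := Fin.elim0

/-- zero-cycles on a product of surfaces modulo rational equivalence -/
abbrev VT (Z : Fin l → TS k) : Type 1 := V (e0 k) Z

/-- the class of a point on a product of surfaces -/
def clT (Z : Fin l → TS k) (z : ∀ j, (Z j).Pt) : VT Z := cl (e0 k) Z (p0 k, z)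

/-- zero-cycles on a surface modulo rational equivalence -/
abbrev V1 (W : TS k) : Type 1 := VT (fun _ : Fin 1 => W)

/-- the class of a point on a surface -/
def clS (W : TS k) (w : W.Pt) : V1 W := clT (fun _ : Fin 1 => W) fun _ => w

/-- the map `φ` of a surface -/
def TS.M (W : TS k) : GT.Mp (Om k) W.m := ⟨W.G, W.H⟩

theorem TS.co_M (W : TS k) : W.M.co = co W.G W.H := rfl

theorem TS.isFib (W : TS k) : KAll.IsFib W.X (inOm W.a) (inOm W.b) W.M W.r where
  hom := W.cond.hom
  ok := ⟨W.cond.disc, W.cond.ne, W.cond.onX⟩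
  dom := W.cond.dom
  pos := W.cond.pos
  coef := ⟨W.a, W.b, W.cond.degA, W.cond.degB, rfl, rfl⟩
  var := W.cond.var
  conj := W.cond.conj

theorem clT_eq (Z : Fin l → TS k) (p : PtM 0 Z) : cl (e0 k) Z p = clT Z p.2 := by
  have h : p.1 = p0 k := Subsingleton.elim _ _
  obtain ⟨x, z⟩ := p
  simp only at h
  subst h
  rfl

theorem equivalent_iff {W : TS k} {p q : W.Pt} : Equivalent p q ↔ clS W p = clS W q := by
  unfold clS clT cl
  rw [Submodule.Quotient.eq]
  exact Iff.rfl

end Pool.Agent.QTF
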