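import Pool.Agent.QTF.TM
import Pool.Agent.QTF.GradT

/-!
# The push-forward by rational maps: the properties which are used
-/

set_option autoImplicit false

noncomputable section

namespace Pool.Agent.QTF

open Pool.Agent.ZCyc Pool.Agent.WFC
open Pool.Agent.VFP (Om tt)
open scoped Classical

variable {k : Type} [Field k] [IsAlgClosed k] [CharZero k]

variable (k) in
theorem core_of (hpos : ∀ (Z W : TS k) (u : TMap Z W), 0 < u.q ∧ u.p ≠ 0) : Core k where
  push Z W u := by
    refine ⟨pushS u, pushS_clS u, fun y => ?_⟩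
    unfold hr
    rw [pushS_hh_div u (hpos Z W u)]
    congr 2
    exact castE_fam (fun a b => toPt a b y.2) u.same.1 u.same.2.1 u.ha u.hb
  span W w w' := by
    refine Submodule.span_mono ?_ (clS_sub_mem w w')
    rintro _ ⟨v, P, rfl⟩
    obtain ⟨o, rfl⟩ := toPt_surj W.a W.b P
    exact ⟨(v, o), rfl⟩

end Pool.Agent.QTF
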