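import Pool.Agent.WFC.Defs
import Pool.Agent.GT.Defs

/-!
# Products of quotients of fibre products and of surfaces with a pencil of curves of genus one

Let `k` be an algebraically closed field of characteristic `0`. `TS` is the class of all projective
surfaces with a fibration in curves of genus one over the line whose Jacobian fibration is not
constant (with or without section, with or without multiple fibres; in all birational models, in
particular the smooth ones). Examples: the Enriques surfaces and the Dolgachev surfaces (`p_g = 0`),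
all `K3` surfaces with a pencil of elliptic curves (of arbitrary index), surfaces of Kodaira
dimension `1` with arbitrary `p_g`. We consider the products of varieties of the class `WC` and of
surfaces of the class `TS`, their zero-cycles, and the morphisms between such products whose
components are morphisms of the class `WC` (see `Pool.Agent.WFC.Comp`), constants, and rational maps
over the line between the surfaces of the class `TS`, and we define the properties `Conds` and
`IsBB` of a Bloch-Beilinson filtration.
-/

set_option autoImplicit false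

noncomputable section

namespace Pool.Agent.QTF

open Pool.Agent.ZCyc
open Pool.Agent.VFP (Om tt)
open Pool.Agent.WFC
open scoped Classical

variable {k : Type} [Field k]

/-- the polynomial `a` in `t` as an element of `Om k`, the algebraic closure of `k(t)` -/
abbrev inOm (a : Polynomial k) : Om k := Polynomial.aeval (tt k) a

/-- the elliptic curve `y ² = x ³ - 3 a x + b` over `Om k`, where `a` and `b` are polynomials in `t`
-/
abbrev Ec (a b : Polynomial k) : WeierstrassCurve.Affine (Om k) := ⟨0, 0, 0, -3 * inOm a, inOm b⟩

/-- the homogeneous coordinates `G_i(x) + H_i(x) y` of the point `φ(x, y)` -/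
def co {m : ℕ} (G H : Fin (m + 1) → Polynomial (Om k)) (x y : Om k) (i : Fin (m + 1)) : Om k :=
  (G i).eval x + (H i).eval x * y

/-- The conditions on the data of a surface `X` of the class `TS`, where `E` is the curve `y ² = x ³
- 3 a x + b`:

* the equations of `X` are homogeneous;
* `E` is an elliptic curve over `k(t)`, `a` and `b` are polynomials in `t` of degrees at most `4 r`
  and
  `6 r`, and this Weierstrass equation is minimal everywhere (also at `t = ∞`), so that the elliptic
  surface over the line has `χ(O) = r > 0`, and it is not constant (this follows);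
* `φ(x, y) = (G_i(x) + H_i(x) y)` is a map from `E` over `Om k` to `X`;
* this is a dominant map from the family to `X`, `t` is a rational function on `X`, and, up to
  finitely many points, `φ(P) = φ(Q)` only if `P - Q` is in a finite subgroup of `E`: so the family
  given by the quotient of `E` by a finite subgroup is birational to `X`;
* the conjugates of `φ` differ from `φ` by translations: for every automorphism `τ` of `Om k` over
  `k(t)` there is a point `A` of `E` such that `τ(φ(P)) = φ(τ(P) + A)` for all points `P` of `E`:
  the generic fibre of `X` is a principal homogeneous space under this quotient of `E`. -/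
structure TCond {m : ℕ} (X : Set (MvPolynomial (Fin (m + 1)) k)) (a b : Polynomial k)
    (G H : Fin (m + 1) → Polynomial (Om k)) (r : ℕ) : Prop where
  hom : ∀ f ∈ X, ∃ d : ℕ, f.IsHomogeneous d
  disc : inOm b ^ 2 ≠ 4 * inOm a ^ 3
  pos : 0 < r
  degA : a.natDegree ≤ 4 * r
  degB : b.natDegree ≤ 6 * r
  minimal : ∀ c : k, ¬ ((Polynomial.X - Polynomial.C c) ^ 4 ∣ a ∧
    (Polynomial.X - Polynomial.C c) ^ 6 ∣ b)
  minimalInf : ¬ (a.natDegree + 4 ≤ 4 * r ∧ b.natDegree + 6 ≤ 6 * r)
  var : ¬ ∃ (f : RatFunc k) (c d : k),
    inOm a = algebraMap k (Om k) c * algebraMap (RatFunc k) (Om k) f ^ 4 ∧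
    inOm b = algebraMap k (Om k) d * algebraMap (RatFunc k) (Om k) f ^ 6
  ne : ∃ i, G i ≠ 0 ∨ H i ≠ 0
  onX : ∀ f ∈ X, ∀ x y : Om k, y ^ 2 = x ^ 3 - 3 * inOm a * x + inOm b →
    MvPolynomial.aeval (co G H x y) f = 0
  dom : ∀ (f : MvPolynomial (Fin (m + 1)) k) (d : ℕ), f.IsHomogeneous d →
    (∀ x y : Om k, y ^ 2 = x ^ 3 - 3 * inOm a * x + inOm b →
      MvPolynomial.aeval (co G H x y) f = 0) →
    ∀ p : GT.Pt X k, MvPolynomial.aeval p.1.rep f = 0
  param : ∃ (f g : MvPolynomial (Fin (m + 1)) k) (d : ℕ), f.IsHomogeneous d ∧
    g.IsHomogeneous d ∧ (∃ x y : Om k, y ^ 2 = x ^ 3 - 3 * inOm a * x + inOm b ∧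
      MvPolynomial.aeval (co G H x y) g ≠ 0) ∧
    ∀ x y : Om k, y ^ 2 = x ^ 3 - 3 * inOm a * x + inOm b →
      MvPolynomial.aeval (co G H x y) f = tt k * MvPolynomial.aeval (co G H x y) g
  inj : ∃ (K : AddSubgroup (Ec a b).Point) (s : Set (Ec a b).Point), Finite K ∧
    s.Finite ∧ ∀ (x y x' y' : Om k) (h : (Ec a b).Nonsingular x y)
      (h' : (Ec a b).Nonsingular x' y'), WeierstrassCurve.Affine.Point.some x y h ∉ s →
        WeierstrassCurve.Affine.Point.some x' y' h' ∉ s →
        (∃ c : Om k, ∀ i, co G H x y i = c * co G H x' y' i) →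
        WeierstrassCurve.Affine.Point.some x y h - .some x' y' h' ∈ K
  conj : ∀ τ : Om k ≃ₐ[RatFunc k] Om k, ∃ A : (Ec a b).Point,
    ∀ (x y x' y' : Om k) (h : (Ec a b).Nonsingular (τ x) (τ y))
      (h' : (Ec a b).Nonsingular x' y'),
      WeierstrassCurve.Affine.Point.some (τ x) (τ y) h + A = .some x' y' h' →
        co G H x' y' ≠ 0 → ∃ c : Om k, ∀ i, τ (co G H x y i) = c * co G H x' y' i

/-- A projective surface `X` (given by its equations in the projective space of dimension `m`) with
a fibration in curves of genus one over the line (with the coordinate `t`). The Jacobian fibration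
is `y ² = x ³ - 3 a x + b`, up to an isogeny, and it is not constant, see `TCond`. All projective
surfaces with such a fibration are of this form. The geometric genus of (a resolution of) `X` is `r
- 1`, there are no holomorphic `1`-forms, and the holomorphic `2`-forms are the forms with the
pull-backs `f(t) dt ∧ dx / y`, where `f` is a polynomial of degree at most `r - 2`. (The same holds
if the fibration has multiple fibres, by the formula for the canonical bundle.) -/
structure TS (k : Type) [Field k] : Type where
  /-- the dimension of the projective space -/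
  m : ℕ
  /-- the equations -/
  X : Set (MvPolynomial (Fin (m + 1)) k)
  /-- the first coefficient of the Weierstrass equation -/
  a : Polynomial k
  /-- the second coefficient of the Weierstrass equation -/
  b : Polynomial k
  /-- the parts of the coordinates of `φ` without `y` -/
  G : Fin (m + 1) → Polynomial (Om k)
  /-- the parts of the coordinates of `φ` with `y` -/
  H : Fin (m + 1) → Polynomial (Om k)
  /-- the Euler characteristic of the structure sheaf -/
  r : ℕ
  cond : TCond X a b G H r

/-- the points of the surface -/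
abbrev TS.Pt (Z : TS k) : Type := GT.Pt Z.X k

/-- the points of the surface over `Om k` -/
abbrev TS.PtO (Z : TS k) : Type := GT.Pt Z.X (Om k)

/-- The point `Q'` is the image of the point `Q` under the automorphism `g` of `Om k`. -/
def IsConj {Z : TS k} (g : Om k ≃ₐ[RatFunc k] Om k) (Q Q' : Z.PtO) : Prop :=
  ∃ c : Om k, ∀ i, Q'.1.rep i = c * g (Q.1.rep i)

variable {m m' l l' : ℕ}

/-- Points of the product of `m` varieties of the class `WC` and of the surfaces `Z j`. -/
abbrev PtM (m : ℕ) (Z : Fin l → TS k) : Type 1 := Pts m k × ∀ j, (Z j).Pt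

/-- The point `(P, Q)` over `Om k` specialises to the point `p` at the place `v`. -/
def IsValM {Z : Fin l → TS k} (v : Place k (Om k)) (P : Fin m → PtO k) (Q : ∀ j, (Z j).PtO)
    (p : PtM m Z) : Prop :=
  (∀ i, IsVal v (P i) (p.1 i)) ∧ ∀ j, GT.IsVal v (Q j) (p.2 j)

/-- The zero-cycles on `X 0 × ⋯ × X (m - 1) × Z 0 × ⋯ × Z (l - 1)`, `X i = X' i / G i`, which are
rationally equivalent to zero, with rational coefficients: see `Pool.Agent.WFC.ratEqP` and
`Pool.Agent.WFC.ratEqW` for the explanation of the definition. The first part is spanned by the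
differences between the members over two points `t = c` and `t = c'` of the families of effective
zero-cycles over the line (the points `(P a, Q a)`, `a < n`, are stable under the Galois group of
`k(t)`, their specialisations at a place above `c` are the points `p a`); the second part identifies
the points of `X' i` which are conjugate under the group `G i`. -/
def ratEq (X : Fin m → WC k) (Z : Fin l → TS k) : Submodule ℚ (PtM m Z →₀ ℚ) :=
  Submodule.span ℚ {z | ∃ (n : ℕ) (P : Fin n → Fin m → PtO k) (Q : Fin n → ∀ j, (Z j).PtO)
    (c c' : k) (v v' : Place k (Om k)) (p p' : Fin n → PtM m Z),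
    (∀ a, OnPO X (P a)) ∧
    (∀ g : Om k ≃ₐ[RatFunc k] Om k, ∃ e : Equiv.Perm (Fin n), ∀ a,
      (∀ i, P (e a) i = (P a i).map (g.restrictScalars k)) ∧ ∀ j, IsConj g (Q a j) (Q (e a) j)) ∧
    v.Vanishes (tt k - algebraMap k (Om k) c) ∧ v'.Vanishes (tt k - algebraMap k (Om k) c') ∧
    (∀ a, OnP X (p a).1 ∧ IsValM v (P a) (Q a) (p a)) ∧
    (∀ a, OnP X (p' a).1 ∧ IsValM v' (P a) (Q a) (p' a)) ∧
    z = ∑ a, (Finsupp.single (p a) 1 - Finsupp.single (p' a) 1)} ⊔
  Submodule.span ℚ {z | ∃ p p' : PtM m Z, OnP X p.1 ∧
    (∀ i, ∃ g : El (p.1 i).1.G, p'.1 i = ⟨(p.1 i).1, (p.1 i).2.act g⟩) ∧ p'.2 = p.2 ∧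
    z = Finsupp.single p 1 - Finsupp.single p' 1}

/-- The points `p` and `q` of the surface `Z` are rationally equivalent (with rational
coefficients). -/
def Equivalent {Z : TS k} (p q : Z.Pt) : Prop :=
  (Finsupp.single ((Fin.elim0 : Pts 0 k), fun _ => p) 1 -
    Finsupp.single ((Fin.elim0 : Pts 0 k), fun _ => q) 1 : PtM 0 (fun _ : Fin 1 => Z) →₀ ℚ) ∈
      ratEq (Fin.elim0 : Fin 0 → WC k) fun _ : Fin 1 => Z

/-- A rational map over the line from the surface `Z` to the surface `W` which is not constant on
the fibres, with the values `U` over `Om k` and `u` over `k`. The Jacobian fibrations are isogenous,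
and both surfaces are given by means of the same curve `E`. The map is given by `φ_Z(q P) ↦ φ_W(p P
+ A)` for a point `A` of `E` (for all points `P` of `E` except finitely many, for which both sides
are defined), it is compatible with the action of the Galois group of `k(t)`, and it is compatible
with the specialisation, up to rational equivalence: if the points `x` and `U x` specialise to `z`
and `z'`, then `u z` is rationally equivalent to `z'`.

Every such morphism over the line from `Z` to `W` for which the map of the Jacobian fibrations is `p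
/ q` with respect to `E` gives such a map, and every such rational map if `Z` is smooth (then all
points of `W` which correspond to one point `z` of `Z` are rationally equivalent): multiplications
by `n = 1 + (a multiple of the index)`, `-1`, translations by sections, isogenies, birational maps,
maps from `Z` to the Jacobian fibration. -/
structure TMap (Z W : TS k) : Type where
  /-- the values on the points over `Om k` -/
  U : Z.PtO → W.PtO
  /-- the values on the points, up to rational equivalence -/
  u : Z.Pt → W.Pt
  /-- the numerator of the degree in the direction of the fibres -/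
  p : ℤ
  /-- the denominator of the degree in the direction of the fibres -/
  q : ℕ
  same : Z.a = W.a ∧ Z.b = W.b ∧ Z.r = W.r
  pos : 0 < q ∧ p ≠ 0
  gen : ∃ (A : (Ec Z.a Z.b).Point) (s : Set (Ec Z.a Z.b).Point), s.Finite ∧ ∀ P ∉ s,
    ∀ (x y x' y' : Om k) (h : (Ec Z.a Z.b).Nonsingular x y)
      (h' : (Ec Z.a Z.b).Nonsingular x' y'),
      q • P = .some x y h → p • P + A = .some x' y' h' → ∀ R : Z.PtO,
        (∃ c : Om k, ∀ i, R.1.rep i = c * co Z.G Z.H x y i) → co W.G W.H x' y' ≠ 0 →
          ∃ c : Om k, ∀ i, (U R).1.rep i = c * co W.G W.H x' y' i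
  conj : ∀ (g : Om k ≃ₐ[RatFunc k] Om k) (x y : Z.PtO), IsConj g x y → IsConj g (U x) (U y)
  val : ∀ (v : Place k (Om k)) (x : Z.PtO) (z : Z.Pt) (z' : W.Pt),
    GT.IsVal v x z → GT.IsVal v (U x) z' → Equivalent (u z) z'

/-- A map from `Z 0 × ⋯ × Z (l - 1)` to the surface `W`: a constant, or the projection to the factor
with number `i` followed by a rational map over the line. -/
inductive CompT (Z : Fin l → TS k) (W : TS k) : Type
  | const (w : W.Pt) : CompT Z W
  | fac (i : Fin l) (u : TMap (Z i) W) : CompT Z W

/-- The maps between products with such components. -/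
abbrev MorT (Z : Fin l → TS k) (W : Fin l' → TS k) : Type := ∀ j, CompT Z (W j)

/-- The morphisms between products: pairs of a morphism between the products of the factors of the
class `WC` and of a map between the products of the surfaces of the class `TS`. -/
abbrev MorM (X : Fin m → WC k) (Z : Fin l → TS k) (Y : Fin m' → WC k) (W : Fin l' → TS k) :
    Type 1 := Mor X Y × MorT Z W

variable {X : Fin m → WC k} {Z : Fin l → TS k} {Y : Fin m' → WC k} {W : Fin l' → TS k}

/-- The value of the component at a point. -/
def CompT.app {V : TS k} (f : CompT Z V) (x : ∀ j, (Z j).Pt) : V.Pt :=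
  match f with
  | .const w => w
  | .fac i u => u.u (x i)

/-- The value of the morphism at a point. -/
def MorM.app (f : MorM X Z Y W) (p : PtM m Z) : PtM m' W :=
  (Mor.app f.1 p.1, fun j => (f.2 j).app p.2)

/-- The push-forward of zero-cycles by a combination of morphisms (a correspondence). -/
def push (γ : MorM X Z Y W →₀ ℚ) : (PtM m Z →₀ ℚ) →ₗ[ℚ] (PtM m' W →₀ ℚ) :=
  γ.sum fun f c => c • Finsupp.lmapDomain ℚ ℚ (MorM.app f)

/-- The number of the factor of a non-constant component. -/
def CompT.src {V : TS k} : CompT Z V → Option (Fin l)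
  | .const _ => none
  | .fac i _ => some i

/-- The coefficient in the pull-back of the form `t ^ b dt ∧ dx / y`. -/
def CompT.deg {V : TS k} : CompT Z V → ℚ
  | .const _ => 0
  | .fac _ u => u.p / u.q

/-- The indices of a basis of the holomorphic forms on (a resolution of) the product of the surfaces
`Z j`. For a set `S` and numbers `b j` with `b j + 2 ≤ r j` for `j` in `S` this is the product, over
all `j` in `S`, of the `2`-forms `t ^ (b j) dt ∧ dx / y` on `Z j`. (We put `b j = 0` if `j` is not
in `S`.) -/
def IsFormT (Z : Fin l → TS k) (S : Finset (Fin l)) (b : Fin l → ℕ) : Prop :=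
  ∀ j, if j ∈ S then b j + 2 ≤ (Z j).r else b j = 0

/-- The coefficient of the form `(S, b)` in the pull-back of the form `(S', b')`. It is zero if a
component with number `j` in `S'` is constant, or if two such components have the same factor.
Otherwise it is a product of degrees if these components induce a bijection from `S'` to `S` which
is compatible with the data, and `0` if not. -/
def pullT (f : MorT Z W) (S : Finset (Fin l)) (b : Fin l → ℕ) (S' : Finset (Fin l'))
    (b' : Fin l' → ℕ) : ℚ :=
  if (∀ j ∈ S', ∃ i ∈ S, (f j).src = some i ∧ b i = b' j) ∧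
      ∀ i ∈ S, ∃! j, j ∈ S' ∧ (f j).src = some i then ∏ j ∈ S', (f j).deg else 0

/-- The correspondence `γ` acts as zero on the holomorphic `ν`-forms. (The basis of the forms on the
product is given by the products of the forms on the two parts.) -/
def KillsForms (γ : MorM X Z Y W →₀ ℚ) (ν : ℕ) : Prop :=
  ∀ (T : Finset (Fin m × Option ℕ)) (a : Fin m → ℕ) (T' : Finset (Fin m' × Option ℕ))
    (a' : Fin m' → ℕ) (S : Finset (Fin l)) (b : Fin l → ℕ) (S' : Finset (Fin l')) (b' : Fin l' → ℕ),
    IsForm X T a → IsForm Y T' a' → IsFormT Z S b → IsFormT W S' b' →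
    wt X T + 2 * S.card = ν → wt Y T' + 2 * S'.card = ν →
      (γ.sum fun f c => c * (pullCoef f.1 T a T' a' * pullT f.2 S b S' b')) = 0

/-- A function which attaches to every product of varieties of the class `WC` and of surfaces of the
class `TS` and to every `ν` a group of zero-cycles on the product. -/
abbrev Filtration (k : Type) [Field k] : Type 1 :=
  ∀ (m : ℕ) (_ : Fin m → WC k) (l : ℕ) (Z : Fin l → TS k), ℕ → Submodule ℚ (PtM m Z →₀ ℚ)

/-- The properties of a Bloch-Beilinson filtration of the zero-cycles on all products of varieties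
of the class `WC` and of surfaces of the class `TS`, without those of `F¹` and `F²`. -/
structure Conds (Φ : Filtration k) : Prop where
  /-- a filtration of the zero-cycles modulo rational equivalence -/
  mod : ∀ (m : ℕ) (X : Fin m → WC k) (l : ℕ) (Z : Fin l → TS k) (ν : ℕ),
    ratEq X Z ≤ Φ m X l Z ν
  /-- it is decreasing -/
  anti : ∀ (m : ℕ) (X : Fin m → WC k) (l : ℕ) (Z : Fin l → TS k) (ν : ℕ),
    Φ m X l Z (ν + 1) ≤ Φ m X l Z ν
  /-- 1: `F⁰` is everything -/
  zero : ∀ (m : ℕ) (X : Fin m → WC k) (l : ℕ) (Z : Fin l → TS k) (z : PtM m Z →₀ ℚ),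
    z ∈ Φ m X l Z 0 ↔ ∀ p ∈ z.support, OnP X p.1
  /-- 2: `F^(dim + 1) = 0` -/
  top : ∀ (m : ℕ) (X : Fin m → WC k) (l : ℕ) (Z : Fin l → TS k),
    Φ m X l Z ((∑ j, (X j).dim) + 2 * l + 1) = ratEq X Z
  /-- 3: correspondences respect the filtration -/
  map : ∀ (m : ℕ) (X : Fin m → WC k) (l : ℕ) (Z : Fin l → TS k)
    (m' : ℕ) (Y : Fin m' → WC k) (l' : ℕ) (W : Fin l' → TS k) (ν : ℕ)
    (γ : MorM X Z Y W →₀ ℚ), (Φ m X l Z ν).map (push γ) ≤ Φ m' Y l' W ν
  /-- 4: a correspondence which is zero on the holomorphic `ν`-forms is zero on `gr^ν` -/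
  grad : ∀ (m : ℕ) (X : Fin m → WC k) (l : ℕ) (Z : Fin l → TS k)
    (m' : ℕ) (Y : Fin m' → WC k) (l' : ℕ) (W : Fin l' → TS k) (ν : ℕ)
    (γ : MorM X Z Y W →₀ ℚ), KillsForms γ ν →
      (Φ m X l Z ν).map (push γ) ≤ Φ m' Y l' W (ν + 1)

/-- The properties of a Bloch-Beilinson filtration of the zero-cycles on all products of varieties
of the class `WC` and of surfaces of the class `TS`. -/
structure IsBB (Φ : Filtration k) : Prop extends Conds Φ where
  /-- 1: `F¹` is the part of degree zero -/
  one : ∀ (m : ℕ) (X : Fin m → WC k) (l : ℕ) (Z : Fin l → TS k) (z : PtM m Z →₀ ℚ),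
    z ∈ Φ m X l Z 1 ↔ (∀ p ∈ z.support, OnP X p.1) ∧ (z.sum fun _ c => c) = 0
  /-- 1: `F²` is the kernel of the Albanese map -/
  two : ∀ (m : ℕ) (X : Fin m → WC k) (l : ℕ) (Z : Fin l → TS k) (z : PtM m Z →₀ ℚ),
    z ∈ Φ m X l Z 2 ↔ z ∈ Φ m X l Z 1 ∧
      ∀ j, toBase j (Finsupp.mapDomain Prod.fst z) ∈ ratEqW (fun _ : Fin 1 => (X j).base)

end Pool.Agent.QTF
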