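import Pool.Agent.QTF.Times
import Pool.Agent.WFC.FMapW
import Pool.Agent.GT.Val

/-!
# The push-forward respects rational equivalence

`cl_congr`: the class of a point does not change if its coordinates in the surfaces are replaced by
equivalent points. `push_ratEq`: a family is mapped to the family of the points `U x`; the
conditions `conj` and `val` of `TMap` and `cl_congr` show that its members are equivalent to the
images of the members.
-/

set_option autoImplicit false

noncomputable section

namespace Pool.Agent.QTF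

open Pool.Agent.ZCyc
open Pool.Agent.VFP (Om tt)
open Pool.Agent.WFC
open scoped Classical

variable {k : Type} [Field k] {m m' l l' : ℕ} {X : Fin m → WC k} {Z : Fin l → TS k}
  {Y : Fin m' → WC k} {W : Fin l' → TS k}

theorem Equivalent.refl {V : TS k} (p : V.Pt) : Equivalent p p := by
  rw [equivalent_iff]

/-- one coordinate runs through a family on the surface `Z j`, the others are constant -/
private theorem PushM_ins (x : Pts m k) (hx : OnP X x) (q : ∀ j, (Z j).Pt) (j : Fin l) :
    ratEq (e0 k) (fun _ : Fin 1 => Z j) ≤ (ratEq X Z).comap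
      (Finsupp.lmapDomain ℚ ℚ fun w : PtM 0 (fun _ : Fin 1 => Z j) =>
        ((x, Function.update q j (w.2 0)) : PtM m Z)) := by
  conv_lhs => unfold ratEq
  rw [sup_le_iff, Submodule.span_le, Submodule.span_le]
  constructor
  · rintro _ ⟨n, P, Q, c, c', v, v', p, p', -, hG, hv, hv', hp, hp', rfl⟩
    refine Submodule.mem_sup_left (Submodule.subset_span ⟨n, fun _ => cstP x,
      fun a => Function.update (fun j => (q j).map (Algebra.ofId k (Om k)) (Z j).hom) j (Q a 0),
      c, c', v, v', fun a => (x, Function.update q j ((p a).2 0)),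
      fun a => (x, Function.update q j ((p' a).2 0)), fun _ => onPO_cstP hx, fun g => ?_,
      hv, hv', fun a => ⟨hx, fun i => isVal_cstP v x i, fun i => ?_⟩,
      fun a => ⟨hx, fun i => isVal_cstP v' x i, fun i => ?_⟩, ?_⟩)
    · obtain ⟨e, he⟩ := hG g
      refine ⟨e, fun a => ⟨fun i => cstP_map _ x i, fun i => ?_⟩⟩
      by_cases hi : i = j
      · subst hi
        simpa using (he a).2 0
      · simp only [Function.update_of_ne hi]
        exact isConj_const g (q i)
    · by_cases hi : i = j
      · subst hi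
        simpa using (hp a).2.2 0
      · simp only [Function.update_of_ne hi]
        exact GT.isVal_const
    · by_cases hi : i = j
      · subst hi
        simpa using (hp' a).2.2 0
      · simp only [Function.update_of_ne hi]
        exact GT.isVal_const
    · rw [map_sum]
      refine Finset.sum_congr rfl fun a _ => ?_
      rw [map_sub, Finsupp.lmapDomain_apply, Finsupp.lmapDomain_apply, Finsupp.mapDomain_single,
        Finsupp.mapDomain_single]
  · rintro _ ⟨p, p', -, -, h2, rfl⟩
    rw [SetLike.mem_coe, Submodule.mem_comap, map_sub, Finsupp.lmapDomain_apply,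
      Finsupp.lmapDomain_apply, Finsupp.mapDomain_single, Finsupp.mapDomain_single, h2, sub_self]
    exact Submodule.zero_mem _

/-- one coordinate is replaced by an equivalent point -/
theorem cl_update {p : PtM m Z} (hp : OnP X p.1) (j : Fin l) {q : (Z j).Pt}
    (h : Equivalent (p.2 j) q) : cl X Z p = cl X Z (p.1, Function.update p.2 j q) := by
  have h1 := PushM_ins p.1 hp p.2 j h
  rw [Submodule.mem_comap, map_sub, Finsupp.lmapDomain_apply, Finsupp.lmapDomain_apply,
    Finsupp.mapDomain_single, Finsupp.mapDomain_single] at h1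
  have h2 : (p.1, Function.update p.2 j (p.2 j)) = p := by
    rw [Function.update_eq_self]
  simp only at h1
  rw [h2] at h1
  exact (Submodule.Quotient.eq _).2 h1

/-- the coordinates in the surfaces are replaced by equivalent points -/
theorem cl_congr {p : PtM m Z} (hp : OnP X p.1) {q : ∀ j, (Z j).Pt}
    (h : ∀ j, Equivalent (p.2 j) (q j)) : cl X Z p = cl X Z (p.1, q) := by
  have key : ∀ T : Finset (Fin l), cl X Z (p.1, T.piecewise q p.2) = cl X Z p := by
    intro T
    induction T using Finset.induction_on with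
    | empty => rw [Finset.piecewise_empty]
    | insert j T hj ih =>
      rw [Finset.piecewise_insert, ← ih]
      refine (cl_update (p := (p.1, T.piecewise q p.2)) hp j ?_).symm
      change Equivalent (T.piecewise q p.2 j) (q j)
      rw [Finset.piecewise_eq_of_notMem _ _ _ hj]
      exact h j
  have h1 := key Finset.univ
  rw [Finset.piecewise_univ] at h1
  exact h1.symm

/-- the component of a morphism over `Om k` -/
private def PushM_O {V : WC k} (f : Comp X V) (P : Fin m → PtO k) : PtO k :=
  match f with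
  | .const w _ => ⟨V, w.cst⟩
  | .fac i _ ε => ⟨(P i).1, (P i).2.mul ε⟩

private theorem PushM_O_on (f : Mor X Y) {P : Fin m → PtO k} (hP : OnPO X P) :
    OnPO Y fun j => PushM_O (f j) P := by
  intro j
  change (PushM_O (f j) P).1 = Y j ∧ (PushM_O (f j) P).2.On
  cases f j with
  | const w hw => exact ⟨rfl, on_cst hw⟩
  | fac i h ε => exact ⟨(hP i).1.trans h, onO_mul (hP i).2 ε⟩

private theorem PushM_O_map (f : Mor X Y) (g : Om k ≃ₐ[k] Om k) (P : Fin m → PtO k)
    (j : Fin m') : PushM_O (f j) (fun i => (P i).map g) = (PushM_O (f j) P).map g := by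
  cases f j with
  | const w hw =>
    change (⟨Y j, w.cst⟩ : PtO k) = ⟨Y j, w.cst.map g⟩
    rw [crd_cst_map]
  | fac i hi ε =>
    change (⟨(P i).1, ((P i).2.map g).mul ε⟩ : PtO k) = ⟨(P i).1, ((P i).2.mul ε).map g⟩
    rw [crdO_mul_map]

/-- the value of a component of a map between the surfaces over `Om k` -/
def CompT.appO {V : TS k} (f : CompT Z V) (Q : ∀ j, (Z j).PtO) : V.PtO :=
  match f with
  | .const w => w.map (Algebra.ofId k (Om k)) V.hom
  | .fac i u => u.U (Q i)

theorem CompT.appO_conj {V : TS k} (f : CompT Z V) (g : Om k ≃ₐ[RatFunc k] Om k)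
    {Q Q' : ∀ j, (Z j).PtO} (h : ∀ j, IsConj g (Q j) (Q' j)) :
    IsConj g (f.appO Q) (f.appO Q') := by
  cases f with
  | const w => exact isConj_const g w
  | fac i u => exact u.conj g _ _ (h i)

theorem CompT.app_equivalent {V : TS k} (f : CompT Z V) {v : Place k (Om k)}
    {Q : ∀ j, (Z j).PtO} {q : ∀ j, (Z j).Pt} (h : ∀ j, GT.IsVal v (Q j) (q j)) {w : V.Pt}
    (hw : GT.IsVal v (f.appO Q) w) : Equivalent (f.app q) w := by
  cases f with
  | const w' =>
    have h1 : w = w' := GT.isVal_unique hw GT.isVal_const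
    rw [h1]
    exact Equivalent.refl w'
  | fac i u => exact u.val v _ _ _ (h i) hw

variable [IsAlgClosed k] [CharZero k]

private theorem PushM_O_val (f : Mor X Y) {v : Place k (Om k)} {P : Fin m → PtO k}
    {p : Pts m k} (h : ∀ i, IsVal v (P i) (p i)) (j : Fin m') :
    IsVal v (PushM_O (f j) P) ((f j).app p) := by
  cases f j with
  | const w hw => exact ⟨Y j, w.cst, w, rfl, rfl, isValue_cst v w⟩
  | fac i hi ε =>
    obtain ⟨Z, P', p', h1, h2, h3⟩ := h i
    refine ⟨Z, P'.mul ε, p'.mul ε, ?_, ?_, isValue_mul h3 ε⟩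
    · change (⟨(P i).1, (P i).2.mul ε⟩ : PtO k) = _
      rw [h1]
    · change (p i).mul ε = _
      rw [h2]
      rfl

/-- the difference of the images of two members of a family -/
private theorem PushM_fam (f : MorM X Z Y W) {n : ℕ} {P : Fin n → Fin m → PtO k}
    {Q : Fin n → ∀ j, (Z j).PtO} {c c' : k} {v v' : Place k (Om k)} {p p' : Fin n → PtM m Z}
    (hP : ∀ a, OnPO X (P a))
    (hG : ∀ g : Om k ≃ₐ[RatFunc k] Om k, ∃ e : Equiv.Perm (Fin n), ∀ a,
      (∀ i, P (e a) i = (P a i).map (g.restrictScalars k)) ∧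
        ∀ j, IsConj g (Q a j) (Q (e a) j))
    (hv : v.Vanishes (tt k - algebraMap k (Om k) c))
    (hv' : v'.Vanishes (tt k - algebraMap k (Om k) c'))
    (hp : ∀ a, OnP X (p a).1 ∧ IsValM v (P a) (Q a) (p a))
    (hp' : ∀ a, OnP X (p' a).1 ∧ IsValM v' (P a) (Q a) (p' a)) :
    ∑ a, (cl Y W (f.app (p a)) - cl Y W (f.app (p' a))) = 0 := by
  choose w hw using fun a j => GT.exists_isVal (W j).hom v ((f.2 j).appO (Q a))
  choose w' hw' using fun a j => GT.exists_isVal (W j).hom v' ((f.2 j).appO (Q a))
  have hOn : ∀ a, OnP Y (f.app (p a)).1 := fun a => Mor.onP f.1 (hp a).1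
  have hOn' : ∀ a, OnP Y (f.app (p' a)).1 := fun a => Mor.onP f.1 (hp' a).1
  have h1 : ∀ a, cl Y W (f.app (p a)) = cl Y W ((f.app (p a)).1, w a) := fun a =>
    cl_congr (hOn a) fun j => (f.2 j).app_equivalent (hp a).2.2 (hw a j)
  have h2 : ∀ a, cl Y W (f.app (p' a)) = cl Y W ((f.app (p' a)).1, w' a) := fun a =>
    cl_congr (hOn' a) fun j => (f.2 j).app_equivalent (hp' a).2.2 (hw' a j)
  rw [Finset.sum_congr rfl fun a _ => by rw [h1, h2]]
  have h3 : (∑ a, (Finsupp.single (((f.app (p a)).1, w a) : PtM m' W) (1 : ℚ) -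
      Finsupp.single ((f.app (p' a)).1, w' a) 1)) ∈ ratEq Y W := by
    refine Submodule.mem_sup_left (Submodule.subset_span ⟨n,
      fun a j => PushM_O (f.1 j) (P a), fun a j => (f.2 j).appO (Q a), c, c', v, v',
      fun a => ((f.app (p a)).1, w a), fun a => ((f.app (p' a)).1, w' a),
      fun a => PushM_O_on f.1 (hP a), fun g => ?_, hv, hv',
      fun a => ⟨hOn a, fun j => PushM_O_val f.1 (hp a).2.1 j, fun j => hw a j⟩,
      fun a => ⟨hOn' a, fun j => PushM_O_val f.1 (hp' a).2.1 j, fun j => hw' a j⟩, rfl⟩)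
    obtain ⟨e, he⟩ := hG g
    refine ⟨e, fun a => ⟨fun j => ?_, fun j => (f.2 j).appO_conj g (he a).2⟩⟩
    rw [← PushM_O_map]
    change PushM_O (f.1 j) (P (e a)) = _
    exact congrArg (PushM_O (f.1 j)) (funext fun i => (he a).1 i)
  have h4 := (Submodule.Quotient.mk_eq_zero _).2 h3
  rw [← Submodule.mkQ_apply, map_sum] at h4
  rw [← h4]
  refine Finset.sum_congr rfl fun a _ => ?_
  rw [map_sub]
  rfl

/-- **The push-forward by a morphism respects rational equivalence.** -/
theorem mapDomain_ratEq (f : MorM X Z Y W) {z : PtM m Z →₀ ℚ} (hz : z ∈ ratEq X Z) :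
    Finsupp.mapDomain f.app z ∈ ratEq Y W := by
  have key : ratEq X Z ≤ (ratEq Y W).comap (Finsupp.lmapDomain ℚ ℚ f.app) := by
    conv_lhs => unfold ratEq
    rw [sup_le_iff, Submodule.span_le, Submodule.span_le]
    constructor
    · rintro _ ⟨n, P, Q, c, c', v, v', p, p', hP, hG, hv, hv', hp, hp', rfl⟩
      have h1 := PushM_fam f hP hG hv hv' hp hp'
      rw [SetLike.mem_coe, Submodule.mem_comap, ← Submodule.Quotient.mk_eq_zero,
        ← Submodule.mkQ_apply, map_sum, map_sum, ← h1]
      refine Finset.sum_congr rfl fun a _ => ?_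
      rw [map_sub, map_sub, Finsupp.lmapDomain_apply, Finsupp.lmapDomain_apply,
        Finsupp.mapDomain_single, Finsupp.mapDomain_single]
      rfl
    · rintro _ ⟨p, p', hp, h, h2, rfl⟩
      have h3 : (Finsupp.single p.1 (1 : ℚ) - Finsupp.single p'.1 1) ∈ ratEqW X :=
        Submodule.mem_sup_right (Submodule.subset_span ⟨p.1, p'.1, hp, h, rfl⟩)
      have h4 := ratEqW_times (Z := W) (fun j => (f.2 j).app p.2) (mapDomain_ratEqW f.1 h3)
      have h5 : ∀ a b : Pts m k, Finsupp.mapDomain
          (fun x : Pts m' k => ((x, fun j => (f.2 j).app p.2) : PtM m' W))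
          (Finsupp.mapDomain f.1.app (Finsupp.single a (1 : ℚ) - Finsupp.single b 1)) =
          Finsupp.single ((f.1.app a, fun j => (f.2 j).app p.2) : PtM m' W) 1 -
            Finsupp.single (f.1.app b, fun j => (f.2 j).app p.2) 1 := by
        intro a b
        rw [Finsupp.mapDomain_sub, Finsupp.mapDomain_sub, Finsupp.mapDomain_single,
          Finsupp.mapDomain_single, Finsupp.mapDomain_single, Finsupp.mapDomain_single]
      rw [h5] at h4
      rw [SetLike.mem_coe, Submodule.mem_comap, map_sub, Finsupp.lmapDomain_apply,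
        Finsupp.lmapDomain_apply, Finsupp.mapDomain_single, Finsupp.mapDomain_single]
      unfold MorM.app
      rw [h2]
      exact h4
  exact key hz

/-- **The push-forward by a correspondence respects rational equivalence.** -/
theorem push_ratEq (γ : MorM X Z Y W →₀ ℚ) : (ratEq X Z).map (push γ) ≤ ratEq Y W := by
  rw [Submodule.map_le_iff_le_comap]
  intro z hz
  rw [Submodule.mem_comap]
  unfold push
  rw [Finsupp.sum, LinearMap.sum_apply]
  refine Submodule.sum_mem _ fun f _ => ?_
  rw [LinearMap.smul_apply]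
  exact Submodule.smul_mem _ _ (mapDomain_ratEq f hz)

/-- the push-forward of classes by a morphism -/
def pushV (f : MorM X Z Y W) : V X Z →ₗ[ℚ] V Y W :=
  (ratEq X Z).mapQ (ratEq Y W) (Finsupp.lmapDomain ℚ ℚ f.app) fun _ hz => mapDomain_ratEq f hz

theorem pushV_mk (f : MorM X Z Y W) (z : PtM m Z →₀ ℚ) :
    pushV f (Submodule.Quotient.mk z) = Submodule.Quotient.mk (Finsupp.mapDomain f.app z) := rfl

theorem pushV_cl (f : MorM X Z Y W) (p : PtM m Z) :
    pushV f (cl X Z p) = cl Y W (f.app p) := by
  unfold cl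
  rw [pushV_mk, Finsupp.mapDomain_single]

end Pool.Agent.QTF
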