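import Pool.Agent.QTF.Base
import Pool.Agent.GT.Val

/-!
# The identity and the projections
-/

set_option autoImplicit false

noncomputable section

namespace Pool.Agent.QTF

open Pool.Agent.ZCyc
open Pool.Agent.VFP (Om tt)
open Pool.Agent.WFC
open scoped Classical

variable {k : Type} [Field k] {m m' l l' : ℕ}

theorem Equivalent.rfl' {W : TS k} (p : W.Pt) : Equivalent p p := by
  unfold Equivalent
  rw [sub_self]
  exact Submodule.zero_mem _

/-- the identity -/
def TMap.idm (Z : TS k) : TMap Z Z where
  U := id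
  u := id
  p := 1
  q := 1
  same := ⟨rfl, rfl, rfl⟩
  pos := ⟨Nat.one_pos, one_ne_zero⟩
  gen := by
    refine ⟨0, ∅, Set.finite_empty, fun P _ x y x' y' h h' h1 h2 R hR _ => ?_⟩
    rw [one_smul] at h1
    rw [one_smul, add_zero, h1] at h2
    obtain ⟨rfl, rfl⟩ : x = x' ∧ y = y' := by
      injection h2 with h3 h4
      exact ⟨h3, h4⟩
    exact hR
  conj := fun _ _ _ h => h
  val := fun v x z z' h h' => by
    have h1 : z = z' := GT.isVal_unique h h'
    subst h1
    exact Equivalent.rfl' _

theorem TMap.idm_u (Z : TS k) (z : Z.Pt) : (TMap.idm Z).u z = z := rfl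

variable [IsAlgClosed k] [CharZero k]

end Pool.Agent.QTF
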