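import Pool.Agent.QTF.FilM
import Pool.Agent.QTF.TId
import Pool.Agent.QTF.PushM
import Pool.Agent.QTF.Supp
import Pool.Agent.WFC.FFil

/-!
# The filtration and the parts of the classes
-/

set_option autoImplicit false

noncomputable section

namespace Pool.Agent.QTF

open Pool.Agent.ZCyc
open Pool.Agent.VFP (Om tt)
open Pool.Agent.WFC
open scoped Classical

variable {k : Type} [Field k] [IsAlgClosed k] [CharZero k] {m l : ℕ} {X : Fin m → WC k}
  {Z : Fin l → TS k}

/-- Möbius inversion on the set of the subsets -/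
theorem moebius {A V : Type*} [DecidableEq A] [AddCommGroup V] [Module ℚ V]
    (f : Finset A → V) (B : Finset A) :
    f B = ∑ T ∈ B.powerset, ∑ U ∈ T.powerset, ((-1 : ℚ) ^ (T \ U).card) • f U := by
  induction B using Finset.induction_on generalizing f with
  | empty => simp
  | insert a B ha ih =>
    rw [Finset.sum_powerset_insert ha, ← ih f, ih (fun U => f (insert a U)),
      ← sub_eq_iff_eq_add', ih f, ← Finset.sum_sub_distrib]
    refine Finset.sum_congr rfl fun T hT => ?_
    have haT : a ∉ T := fun h => ha (Finset.mem_powerset.1 hT h)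
    rw [Finset.sum_powerset_insert haT, ← Finset.sum_sub_distrib, ← Finset.sum_add_distrib]
    refine Finset.sum_congr rfl fun U hU => ?_
    have haU : a ∉ U := fun h => haT (Finset.mem_powerset.1 hU h)
    have e1 : insert a T \ U = insert a (T \ U) := by
      ext b
      simp only [Finset.mem_sdiff, Finset.mem_insert]
      constructor
      · rintro ⟨rfl | h1, h2⟩
        · exact Or.inl rfl
        · exact Or.inr ⟨h1, h2⟩
      · rintro (rfl | ⟨h1, h2⟩)
        · exact ⟨Or.inl rfl, haU⟩
        · exact ⟨Or.inr h1, h2⟩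
    have e2 : insert a T \ insert a U = T \ U := by
      ext b
      simp only [Finset.mem_sdiff, Finset.mem_insert, not_or]
      constructor
      · rintro ⟨rfl | h1, h2, h3⟩
        · exact absurd rfl h2
        · exact ⟨h1, h3⟩
      · rintro ⟨h1, h2⟩
        exact ⟨Or.inr h1, fun h => haT (h ▸ h1), h2⟩
    have h3 : a ∉ T \ U := fun h => haT (Finset.mem_sdiff.1 h).1
    rw [e1, e2, Finset.card_insert_of_notMem h3, pow_succ]
    module

/-- the terms cancel in pairs -/
theorem sum_cancel {A V : Type*} [DecidableEq A] [AddCommGroup V] [Module ℚ V]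
    {f : Finset A → V} {T : Finset A} {p : A} (hp : p ∈ T)
    (h : ∀ U, U ⊆ T → p ∉ U → f (insert p U) = f U) :
    ∑ U ∈ T.powerset, ((-1 : ℚ) ^ (T \ U).card) • f U = 0 := by
  have hT : T.powerset = (insert p (T.erase p)).powerset := by rw [Finset.insert_erase hp]
  rw [hT, Finset.sum_powerset_insert (Finset.notMem_erase p T), ← Finset.sum_add_distrib]
  refine Finset.sum_eq_zero fun U hU => ?_
  have hU' : U ⊆ T.erase p := Finset.mem_powerset.1 hU
  have hpU : p ∉ U := fun h' => Finset.notMem_erase p T (hU' h')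
  have hUT : U ⊆ T := hU'.trans (Finset.erase_subset p T)
  rw [h U hUT hpU]
  have e : T \ U = insert p (T \ insert p U) := by
    ext b
    simp only [Finset.mem_sdiff, Finset.mem_insert, not_or]
    constructor
    · rintro ⟨h1, h2⟩
      by_cases hb : b = p
      · exact Or.inl hb
      · exact Or.inr ⟨h1, hb, h2⟩
    · rintro (rfl | ⟨h1, -, h3⟩)
      · exact ⟨hp, hpU⟩
      · exact ⟨h1, h3⟩
  have h3 : p ∉ T \ insert p U := fun h' =>
    (Finset.mem_sdiff.1 h').2 (Finset.mem_insert_self p U)
  rw [e, Finset.card_insert_of_notMem h3, pow_succ]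
  module

theorem projT_projT (S U : Finset (Fin l)) (z : ∀ j, (Z j).Pt) :
    projT Z S (projT Z U z) = projT Z (S ∩ U) z := by
  funext j
  unfold projT
  by_cases h1 : j ∈ S <;> by_cases h2 : j ∈ U <;> simp [h1, h2]

theorem projT_univ (z : ∀ j, (Z j).Pt) : projT Z Finset.univ z = z := by
  funext j
  unfold projT
  rw [if_pos (Finset.mem_univ j)]

theorem projM_projM (T U : Finset (Fin m × Option ℕ)) (S S' : Finset (Fin l)) (p : PtM m Z) :
    projM Z T S (projM Z U S' p) = projM Z (T ∩ U) (S ∩ S') p := by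
  unfold projM
  rw [proj_proj, projT_projT]

theorem onP_projM (T : Finset (Fin m × Option ℕ)) (S : Finset (Fin l)) {p : PtM m Z}
    (hp : OnP X p.1) : OnP X (projM Z T S p).1 := onP_proj hp T

/-- the part of the class which belongs to `S` only -/
theorem cl_projM_eq_sum' (p : PtM m Z) (B : Finset (Fin m × Option ℕ)) (B' : Finset (Fin l)) :
    cl X Z (projM Z B B' p) = ∑ S ∈ B'.powerset, ∑ U' ∈ S.powerset,
      ((-1 : ℚ) ^ (S \ U').card) • cl X Z (projM Z B U' p) :=
  moebius (fun U' => cl X Z (projM Z B U' p)) B'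

/-- the decomposition of the class of a projection of a point -/
theorem cl_projM_eq_sum (p : PtM m Z) (B : Finset (Fin m × Option ℕ)) (B' : Finset (Fin l)) :
    cl X Z (projM Z B B' p) = ∑ T ∈ B.powerset, ∑ S ∈ B'.powerset, eM X Z T S p := by
  rw [moebius (fun U => cl X Z (projM Z U B' p)) B]
  refine Finset.sum_congr rfl fun T _ => ?_
  unfold eM
  rw [Finset.sum_comm]
  refine Finset.sum_congr rfl fun U _ => ?_
  rw [cl_projM_eq_sum', Finset.smul_sum]

theorem eM_not_closed {T : Finset (Fin m × Option ℕ)} (hT : ¬ Closed T) (S : Finset (Fin l))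
    (p : PtM m Z) : eM X Z T S p = 0 := by
  simp only [Closed, not_forall] at hT
  obtain ⟨j, b, hjb, hj⟩ := hT
  refine sum_cancel (f := fun U => ∑ U' ∈ S.powerset,
    ((-1 : ℚ) ^ (S \ U').card) • cl X Z (projM Z U U' p)) hjb fun U hU _ => ?_
  have h0 : proj (insert (j, some b) U) p.1 = proj U p.1 := by
    funext i
    have hnone : (i, (none : Option ℕ)) ∈ insert (j, some b) U ↔ (i, none) ∈ U := by
      rw [Finset.mem_insert]
      constructor
      · rintro (h | h)
        · exact absurd (Prod.mk.inj h).2 (by simp)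
        · exact h
      · exact Or.inr
    by_cases hi : (i, (none : Option ℕ)) ∈ U
    · have hij : i ≠ j := by
        rintro rfl
        exact hj (hU hi)
      have hsome : ∀ c : ℕ, (i, some c) ∈ insert (j, some b) U ↔ (i, some c) ∈ U := by
        intro c
        rw [Finset.mem_insert]
        constructor
        · rintro (h | h)
          · exact absurd (Prod.mk.inj h).1 hij
          · exact h
        · exact Or.inr
      simp only [proj, hnone, hi, if_true, hsome]
    · simp only [proj, hnone, hi, if_false]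
  have h1 : ∀ U', projM Z (insert (j, some b) U) U' p = projM Z U U' p := fun U' =>
    Prod.ext h0 rfl
  exact Finset.sum_congr rfl fun U' _ => by rw [h1]

/-- the decomposition of the class of a point -/
theorem cl_eq_sum {p : PtM m Z} (hp : OnP X p.1) :
    cl X Z p = ∑ T ∈ (blocks X).powerset with Closed T, ∑ S : Finset (Fin l), eM X Z T S p := by
  rw [Finset.sum_filter_of_ne]
  · have h1 := cl_projM_eq_sum (X := X) p (blocks X) Finset.univ
    have h2 : projM Z (blocks X) Finset.univ p = p := by
      unfold projM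
      rw [proj_blocks hp, projT_univ]
    rw [h2, Finset.powerset_univ] at h1
    exact h1
  · intro T _ hne
    by_contra hc
    exact hne (Finset.sum_eq_zero fun S _ => eM_not_closed hc S p)

theorem eM_proj (T U : Finset (Fin m × Option ℕ)) (S U' : Finset (Fin l)) (p : PtM m Z) :
    eM X Z T S (projM Z U U' p) = if T ⊆ U ∧ S ⊆ U' then eM X Z T S p else 0 := by
  by_cases hT : T ⊆ U
  · by_cases hS : S ⊆ U'
    · rw [if_pos ⟨hT, hS⟩]
      unfold eM
      refine Finset.sum_congr rfl fun V hV => ?_
      congr 1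
      refine Finset.sum_congr rfl fun V' hV' => ?_
      rw [projM_projM, Finset.inter_eq_left.2 ((Finset.mem_powerset.1 hV).trans hT),
        Finset.inter_eq_left.2 ((Finset.mem_powerset.1 hV').trans hS)]
    · rw [if_neg fun h => hS h.2]
      obtain ⟨q, hqS, hqU⟩ := Finset.not_subset.1 hS
      unfold eM
      refine Finset.sum_eq_zero fun V _ => ?_
      rw [sum_cancel (f := fun V' => cl X Z (projM Z V V' (projM Z U U' p))) hqS, smul_zero]
      intro V' _ _
      show cl X Z (projM Z V (insert q V') (projM Z U U' p)) =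
        cl X Z (projM Z V V' (projM Z U U' p))
      rw [projM_projM, projM_projM, Finset.insert_inter_of_notMem hqU]
  · rw [if_neg fun h => hT h.1]
    obtain ⟨q, hqT, hqU⟩ := Finset.not_subset.1 hT
    refine sum_cancel (f := fun V => ∑ V' ∈ S.powerset,
      ((-1 : ℚ) ^ (S \ V').card) • cl X Z (projM Z V V' (projM Z U U' p))) hqT fun V _ _ => ?_
    refine Finset.sum_congr rfl fun V' _ => ?_
    rw [projM_projM, projM_projM, Finset.insert_inter_of_notMem hqU]

/-- the projections respect rational equivalence -/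
theorem projM_ratEq (T : Finset (Fin m × Option ℕ)) (S : Finset (Fin l))
    {z : PtM m Z →₀ ℚ} (hz : z ∈ ratEq X Z) :
    Finsupp.lmapDomain ℚ ℚ (projM Z T S) z ∈ ratEq X Z := by
  let f : MorM X Z X Z := (fun j => if (j, none) ∈ T then
      .fac j rfl (fun b => if (j, some b) ∈ T then 1 else 0) else .const (X j).oo (on_oo (X j)),
    fun j => if j ∈ S then .fac j (TMap.idm (Z j)) else .const (Z j).oo)
  have h1 : z.mapDomain (MorM.app f) = z.mapDomain (projM Z T S) := by
    refine Finsupp.mapDomain_congr fun x hx => ?_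
    have hx' := (ratEq_supp hz).1 x hx
    refine Prod.ext ?_ ?_
    · funext j
      show Comp.app (f.1 j) x.1 = proj T x.1 j
      unfold proj
      by_cases hj : (j, none) ∈ T
      · simp only [f, if_pos hj]
        rfl
      · simp only [f, if_neg hj]
        rw [(hx' j).1]
        rfl
    · funext j
      show CompT.app (f.2 j) x.2 = projT Z S x.2 j
      unfold projT
      by_cases hj : j ∈ S
      · simp only [f, if_pos hj]
        rfl
      · simp only [f, if_neg hj]
        rfl
  rw [Finsupp.lmapDomain_apply, ← h1]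
  exact mapDomain_ratEq f hz

/-- the projection of classes -/
def pM (X : Fin m → WC k) (Z : Fin l → TS k) (T : Finset (Fin m × Option ℕ))
    (S : Finset (Fin l)) : V X Z →ₗ[ℚ] V X Z :=
  (ratEq X Z).mapQ (ratEq X Z) (Finsupp.lmapDomain ℚ ℚ (projM Z T S)) fun _ hz =>
    projM_ratEq T S hz

theorem pM_cl (T : Finset (Fin m × Option ℕ)) (S : Finset (Fin l)) (p : PtM m Z) :
    pM X Z T S (cl X Z p) = cl X Z (projM Z T S p) := by
  have h : pM X Z T S (cl X Z p) =
      Submodule.Quotient.mk (Finsupp.mapDomain (projM Z T S) (Finsupp.single p (1 : ℚ))) := rfl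
  rw [h, Finsupp.mapDomain_single]
  rfl

theorem pM_eM (T U : Finset (Fin m × Option ℕ)) (S U' : Finset (Fin l)) (p : PtM m Z) :
    pM X Z U U' (eM X Z T S p) = if T ⊆ U ∧ S ⊆ U' then eM X Z T S p else 0 := by
  rw [← eM_proj]
  unfold eM
  rw [map_sum]
  refine Finset.sum_congr rfl fun V _ => ?_
  rw [map_smul, map_sum]
  congr 1
  refine Finset.sum_congr rfl fun V' _ => ?_
  rw [map_smul, pM_cl, projM_projM, projM_projM, Finset.inter_comm U, Finset.inter_comm U']

omit [IsAlgClosed k] [CharZero k] in
theorem mk_eq (z : PtM m Z →₀ ℚ) :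
    (Submodule.Quotient.mk z : V X Z) = z.sum fun p c => c • cl X Z p := by
  conv_lhs => rw [← Finsupp.sum_single z]
  rw [Finsupp.sum, ← Submodule.mkQ_apply, map_sum, Finsupp.sum]
  refine Finset.sum_congr rfl fun p _ => ?_
  rw [cl, ← Submodule.mkQ_apply, ← map_smul, Finsupp.smul_single, smul_eq_mul, mul_one]

theorem mk_map (U : Finset (Fin m × Option ℕ)) (U' : Finset (Fin l)) (z : PtM m Z →₀ ℚ) :
    (Submodule.Quotient.mk (Finsupp.lmapDomain ℚ ℚ (projM Z U U') z) : V X Z) =
      z.sum fun p c => c • cl X Z (projM Z U U' p) := by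
  rw [mk_eq, Finsupp.lmapDomain_apply, Finsupp.sum_mapDomain_index]
  · intro p
    rw [zero_smul]
  · intro p a b
    rw [add_smul]

theorem mk_mem_FM {ν : ℕ} {z : PtM m Z →₀ ℚ} (hz : ∀ p ∈ z.support, OnP X p.1) :
    (Submodule.Quotient.mk z : V X Z) ∈ FM X Z ν ↔ z ∈ FilM X Z ν := by
  constructor
  · intro h
    refine ⟨hz, fun U U' hU => ?_⟩
    have h1 : FM X Z ν ≤ LinearMap.ker (pM X Z U U') := by
      unfold FM
      rw [Submodule.span_le]
      rintro e ⟨T, S, x, hx, hT, hc, hν, rfl⟩
      rw [SetLike.mem_coe, LinearMap.mem_ker, pM_eM, if_neg]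
      rintro ⟨hTU, hSU⟩
      have h2 := wt_mono (X := X) hTU
      have h3 := Finset.card_le_card hSU
      omega
    have h2 := h1 h
    rw [LinearMap.mem_ker] at h2
    have h3 : pM X Z U U' (Submodule.Quotient.mk z) =
        Submodule.Quotient.mk (Finsupp.lmapDomain ℚ ℚ (projM Z U U') z) := rfl
    rw [h3, Submodule.Quotient.mk_eq_zero] at h2
    exact h2
  · rintro ⟨-, h⟩
    have h1 : (Submodule.Quotient.mk z : V X Z) =
        ∑ T ∈ (blocks X).powerset with Closed T, ∑ S : Finset (Fin l),
          z.sum fun p c => c • eM X Z T S p := by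
      rw [mk_eq]
      unfold Finsupp.sum
      have h2 : ∀ T : Finset (Fin m × Option ℕ), ∑ S : Finset (Fin l), ∑ p ∈ z.support,
          z p • eM X Z T S p = ∑ p ∈ z.support, z p • ∑ S : Finset (Fin l), eM X Z T S p := by
        intro T
        rw [Finset.sum_comm]
        exact Finset.sum_congr rfl fun p _ => (Finset.smul_sum).symm
      rw [Finset.sum_congr rfl fun T _ => h2 T, Finset.sum_comm]
      refine Finset.sum_congr rfl fun p hp => ?_
      beta_reduce
      rw [cl_eq_sum (hz p hp), Finset.smul_sum]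
    rw [h1]
    refine Submodule.sum_mem _ fun T hT => Submodule.sum_mem _ fun S _ => ?_
    rw [Finset.mem_filter] at hT
    by_cases hν : ν ≤ wt X T + 2 * S.card
    · refine Submodule.sum_mem _ fun p hp => Submodule.smul_mem _ _ (Submodule.subset_span ?_)
      exact ⟨T, S, p, hz p hp, Finset.mem_powerset.1 hT.1, hT.2, hν, rfl⟩
    · have h2 : (z.sum fun p c => c • eM X Z T S p) =
          ∑ U ∈ T.powerset, ((-1 : ℚ) ^ (T \ U).card) • ∑ U' ∈ S.powerset,
            ((-1 : ℚ) ^ (S \ U').card) •
            (Submodule.Quotient.mk (Finsupp.lmapDomain ℚ ℚ (projM Z U U') z) : V X Z) := by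
        simp only [mk_map]
        unfold Finsupp.sum eM
        simp only [Finset.smul_sum]
        rw [Finset.sum_comm]
        refine Finset.sum_congr rfl fun U _ => ?_
        rw [Finset.sum_comm]
        refine Finset.sum_congr rfl fun U' _ => Finset.sum_congr rfl fun p _ => ?_
        rw [smul_comm (z p), smul_comm (z p)]
      rw [h2, Finset.sum_eq_zero]
      · exact zero_mem _
      intro U hU
      rw [Finset.sum_eq_zero, smul_zero]
      intro U' hU'
      have h3 := wt_mono (X := X) (Finset.mem_powerset.1 hU)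
      have h4 := Finset.card_le_card (Finset.mem_powerset.1 hU')
      rw [(Submodule.Quotient.mk_eq_zero _).2 (h U U' (by omega)), smul_zero]

theorem FilM_ge (ν : ℕ) : ratEq X Z ≤ FilM X Z ν := fun _ hz =>
  ⟨(ratEq_supp hz).1, fun _ _ _ => projM_ratEq _ _ hz⟩

theorem FilM_anti (ν : ℕ) : FilM X Z (ν + 1) ≤ FilM X Z ν := fun _ hz =>
  ⟨hz.1, fun _ _ hT => hz.2 _ _ (Nat.lt_succ_of_lt hT)⟩

theorem FilM_zero (z : PtM m Z →₀ ℚ) : z ∈ FilM X Z 0 ↔ ∀ p ∈ z.support, OnP X p.1 :=
  ⟨fun hz => hz.1, fun hz => ⟨hz, fun _ _ hT => absurd hT (Nat.not_lt_zero _)⟩⟩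

theorem FilM_top : FilM X Z ((∑ j, (X j).dim) + 2 * l + 1) = ratEq X Z := by
  apply le_antisymm _ (FilM_ge _)
  rintro z ⟨h1, h2⟩
  have h3 : wt X (blocks X) + 2 * (Finset.univ : Finset (Fin l)).card <
      (∑ j, (X j).dim) + 2 * l + 1 := by
    rw [Finset.card_univ, Fintype.card_fin]
    have h5 : wt X (blocks X) ≤ ∑ j, (X j).dim := by
      unfold wt
      apply Finset.sum_le_sum
      intro j _
      have h4 : cnt X (blocks X) j ≤ (X j).N := by
        unfold cnt
        refine (Finset.card_filter_le _ _).trans ?_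
        rw [Finset.card_univ, Fintype.card_fin]
      unfold WC.dim
      split_ifs <;> omega
    omega
  have h4 := h2 _ _ h3
  have h5 : Finsupp.lmapDomain ℚ ℚ (projM Z (blocks X) Finset.univ) z = z := by
    rw [Finsupp.lmapDomain_apply]
    conv_rhs => rw [← Finsupp.mapDomain_id (v := z)]
    refine Finsupp.mapDomain_congr fun p hp => ?_
    unfold projM
    rw [proj_blocks (h1 p hp), projT_univ]
    rfl
  rwa [h5] at h4

omit [IsAlgClosed k] [CharZero k] in
theorem wt_lt_one {T : Finset (Fin m × Option ℕ)} (h : wt X T < 1) (j : Fin m) :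
    (j, none) ∉ T := by
  intro hj
  have h1 : (if (j, none) ∈ T then cnt X T j + 1 else 0) ≤ wt X T :=
    Finset.single_le_sum (f := fun j => if (j, none) ∈ T then cnt X T j + 1 else 0)
      (fun _ _ => Nat.zero_le _) (Finset.mem_univ j)
  rw [if_pos hj] at h1
  omega

theorem FilM_one (z : PtM m Z →₀ ℚ) :
    z ∈ FilM X Z 1 ↔ (∀ p ∈ z.support, OnP X p.1) ∧ (z.sum fun _ c => c) = 0 := by
  constructor
  · rintro ⟨h1, h2⟩
    refine ⟨h1, ?_⟩
    have h3 : wt X (∅ : Finset (Fin m × Option ℕ)) + 2 * (∅ : Finset (Fin l)).card < 1 := by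
      have h4 : wt X (∅ : Finset (Fin m × Option ℕ)) = 0 := by
        unfold wt
        apply Finset.sum_eq_zero
        intro j _
        rw [if_neg (Finset.notMem_empty _)]
      rw [h4, Finset.card_empty]
      omega
    have h4 := (ratEq_supp (h2 ∅ ∅ h3)).2
    rw [Finsupp.lmapDomain_apply, Finsupp.sum_mapDomain_index (fun _ => rfl)
      (fun _ _ _ => rfl)] at h4
    exact h4
  · rintro ⟨h1, h2⟩
    refine ⟨h1, fun T S hT => ?_⟩
    rw [← Submodule.Quotient.mk_eq_zero, mk_map]
    have hS : S = ∅ := by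
      rw [← Finset.card_eq_zero]
      omega
    subst hS
    have h3 : (z.sum fun p c => c • cl X Z (projM Z T ∅ p)) =
        z.sum fun _ c => c • cl X Z (fun j => ⟨X j, (X j).oo⟩, fun j => (Z j).oo) := by
      refine Finset.sum_congr rfl fun p hp => ?_
      beta_reduce
      congr 2
      refine Prod.ext ?_ ?_
      · funext j
        show proj T p.1 j = _
        unfold proj
        rw [if_neg (wt_lt_one (X := X) (by omega) j), (h1 p hp j).1]
      · funext j
        show projT Z ∅ p.2 j = _
        unfold projT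
        rw [if_neg (Finset.notMem_empty j)]
    rw [h3, Finsupp.sum, ← Finset.sum_smul]
    have h4 : ∑ p ∈ z.support, z p = 0 := h2
    rw [h4, zero_smul]

end Pool.Agent.QTF
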