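import Pool.Agent.QTF.Base
import Pool.Agent.QTF.MExt
import Pool.Agent.QTF.BrAbs

/-!
# The exterior product of the classes of zero-cycles on the two parts of the product
-/

set_option autoImplicit false

noncomputable section

namespace Pool.Agent.QTF

open Pool.Agent.ZCyc Pool.Agent.WFC
open Pool.Agent.VFP (Om tt)
open scoped Classical

variable {k : Type} [Field k] {m l : ℕ}

variable {X : Fin m → WC k} {Z : Fin l → TS k}

/-- coordinates of the image of a point under a homomorphism of fields -/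
theorem map_rep {n : ℕ} {A : Set (MvPolynomial (Fin (n + 1)) k)} {K K' : Type} [Field K]
    [Algebra k K] [Field K'] [Algebra k K'] (φ : K →ₐ[k] K') (hA : GT.Hom A) (x : GT.Pt A K) :
    ∃ c : K', c ≠ 0 ∧ ∀ i, (x.map φ hA).1.rep i = c * φ (x.1.rep i) := by
  have h1 : Projectivization.mk K' (x.map φ hA).1.rep (x.map φ hA).1.rep_nonzero =
      (x.map φ hA).1 := Projectivization.mk_rep _
  have hne : (fun i => φ (x.1.rep i)) ≠ 0 := by
    intro h
    apply x.1.rep_nonzero
    funext i
    exact (map_eq_zero φ).1 (congrFun h i)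
  have h2 : (x.map φ hA).1 = Projectivization.mk K' (fun i => φ (x.1.rep i)) hne := rfl
  rw [h2] at h1
  have h3 := (Projectivization.mk_eq_mk_iff' K' _ _ _ _).1 h1
  obtain ⟨c, hc⟩ := h3
  refine ⟨c, ?_, fun i => ?_⟩
  · rintro rfl
    exact (x.map φ hA).1.rep_nonzero (hc.symm.trans (zero_smul _ _))
  · exact (congrFun hc i).symm

theorem TS.hom (W : TS k) : GT.Hom W.X := W.cond.hom

/-- conjugate points -/
theorem isConj_map {K : Type} [Field K] [Algebra k K] {W : TS k} (g : Om k ≃ₐ[RatFunc k] Om k)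
    (σ : K →ₐ[k] Om k) (x : GT.Pt W.X K) :
    IsConj (Z := W) g (x.map σ W.hom)
      (x.map (((g.restrictScalars k : Om k ≃ₐ[k] Om k) : Om k →ₐ[k] Om k).comp σ) W.hom) := by
  obtain ⟨c, hc, h1⟩ := map_rep σ W.hom x
  obtain ⟨d, hd, h2⟩ := map_rep
    (((g.restrictScalars k : Om k ≃ₐ[k] Om k) : Om k →ₐ[k] Om k).comp σ) W.hom x
  refine ⟨d * (g c)⁻¹, fun i => ?_⟩
  rw [h1, h2, map_mul]
  have h3 : g c ≠ 0 := (map_ne_zero g).2 hc
  change d * g (σ (x.1.rep i)) = d * (g c)⁻¹ * (g c * g (σ (x.1.rep i)))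
  field_simp

/-- constant points are conjugate to themselves -/
theorem isConj_const {W : TS k} (g : Om k ≃ₐ[RatFunc k] Om k) (x : W.Pt) :
    IsConj (Z := W) g (x.map (Algebra.ofId k (Om k)) W.hom)
      (x.map (Algebra.ofId k (Om k)) W.hom) := by
  have h1 := isConj_map (W := W) g (Algebra.ofId k (Om k)) x
  have h2 : ((g.restrictScalars k : Om k ≃ₐ[k] Om k) : Om k →ₐ[k] Om k).comp
      (Algebra.ofId k (Om k)) = Algebra.ofId k (Om k) := Subsingleton.elim _ _
  rwa [h2] at h1

/-- constant points -/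
def cstP (p : Pts m k) : Fin m → PtO k := fun i => ⟨(p i).1, (p i).2.cst⟩

theorem onPO_cstP {p : Pts m k} (hp : OnP X p) : OnPO X (cstP p) := fun i =>
  ⟨(hp i).1, on_cst (hp i).2⟩

theorem isVal_cstP (v : Place k (Om k)) (p : Pts m k) (i : Fin m) : IsVal v (cstP p i) (p i) :=
  ⟨(p i).1, _, _, rfl, rfl, isValue_cst v _⟩

theorem cstP_map (g : Om k ≃ₐ[k] Om k) (p : Pts m k) (i : Fin m) :
    cstP p i = (cstP p i).map g := by
  unfold cstP PtO.map
  rw [crd_cst_map]

variable [IsAlgClosed k] [CharZero k]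

/-- **The bridge**: cycles on the product of the surfaces `Z j`. -/
theorem mRat_times {p : Pts m k} (hp : OnP X p) {z : (∀ j, (Z j).Pt) →₀ ℚ}
    (hz : z ∈ MRat fun j => (Z j).X) :
    Finsupp.mapDomain (fun q => ((p, q) : PtM m Z)) z ∈ ratEq X Z := by
  have htt : Transcendental k (tt k) := Pool.Agent.VFP.tt_transc
  have hle : MRat (fun j => (Z j).X) ≤
      (ratEq X Z).comap (Finsupp.lmapDomain ℚ ℚ fun q => ((p, q) : PtM m Z)) := by
    refine Submodule.span_le.2 ?_
    rintro _ ⟨K, i1, i2, hK, x, y, f, D, hf, hD, hval, rfl⟩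
    change Finsupp.lmapDomain ℚ ℚ (fun q => ((p, q) : PtM m Z)) _ ∈ ratEq X Z
    rcases bridge_abs hK hf D hD with rfl | ⟨E, a, a', hE, hbr⟩
    · rw [Finsupp.sum_zero_index, map_zero]
      exact zero_mem _
    obtain ⟨V, hV⟩ := exists_place htt a
    obtain ⟨V', hV'⟩ := exists_place htt a'
    choose γ hγ using fun σ => TInc.exists_below hK V σ
    choose γ' hγ' using fun σ => TInc.exists_below hK V' σ
    have h1 := hbr V V' hV hV' γ γ' (fun σ _ => (hγ σ).symm) (fun σ _ => (hγ' σ).symm)
      fun v => (Finsupp.single ((p, y v) : PtM m Z) (1 : ℚ))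
    have h2 : Finsupp.lmapDomain ℚ ℚ (fun q => ((p, q) : PtM m Z))
        (D.sum fun v a => Finsupp.single (y v) (a : ℚ)) =
        D.sum fun v n => (n : ℚ) • Finsupp.single ((p, y v) : PtM m Z) (1 : ℚ) := by
      rw [map_finsuppSum]
      refine Finsupp.sum_congr fun v _ => ?_
      rw [Finsupp.lmapDomain_apply, Finsupp.mapDomain_single, Finsupp.smul_single, smul_eq_mul,
        mul_one]
    rw [h2, h1]
    let e : Fin E.card ≃ {σ // σ ∈ E} := E.equivFin.symm
    refine Submodule.mem_sup_left (Submodule.subset_span ⟨E.card, fun _ => cstP p,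
      fun b j => (x j).map (e b).1 (Z j).hom, a, a', V, V', fun b => (p, y (γ (e b).1)),
      fun b => (p, y (γ' (e b).1)), fun _ => onPO_cstP hp, fun g => ?_, hV, hV', fun b => ?_,
      fun b => ?_, ?_⟩)
    · let G : {σ // σ ∈ E} → {σ // σ ∈ E} := fun σ => ⟨_, hE g σ.1 σ.2⟩
      have hG : Function.Injective G := by
        intro σ σ' h
        have h3 := congrArg Subtype.val h
        apply Subtype.ext
        apply AlgHom.ext
        intro t
        have h4 := DFunLike.congr_fun h3 t
        exact g.injective h4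
      let e' : Equiv.Perm {σ // σ ∈ E} := Equiv.ofBijective G (Finite.injective_iff_bijective.1 hG)
      refine ⟨(e.trans e').trans e.symm, fun b => ⟨fun i => cstP_map _ p i, fun j => ?_⟩⟩
      have h3 : e (((e.trans e').trans e.symm) b) = G (e b) := by
        simp only [Equiv.trans_apply, Equiv.apply_symm_apply]
        rfl
      change IsConj g ((x j).map (e b).1 (Z j).hom)
        ((x j).map (e (((e.trans e').trans e.symm) b)).1 (Z j).hom)
      rw [h3]
      exact isConj_map g _ _
    · refine ⟨hp, fun i => isVal_cstP V p i, fun j => ?_⟩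
      exact (GT.isVal_map (hγ (e b).1)).2 (hval _ j)
    · refine ⟨hp, fun i => isVal_cstP V' p i, fun j => ?_⟩
      exact (GT.isVal_map (hγ' (e b).1)).2 (hval _ j)
    · rw [← Finset.sum_coe_sort E, ← e.sum_comp]
  exact hle hz

omit [IsAlgClosed k] [CharZero k] in
/-- cycles on the product of the varieties `X i` -/
theorem ratEqW_times (q : ∀ j, (Z j).Pt) {z : Pts m k →₀ ℚ} (hz : z ∈ ratEqW X) :
    Finsupp.mapDomain (fun p => ((p, q) : PtM m Z)) z ∈ ratEq X Z := by
  have hle : ratEqW X ≤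
      (ratEq X Z).comap (Finsupp.lmapDomain ℚ ℚ fun p => ((p, q) : PtM m Z)) := by
    refine sup_le (Submodule.span_le.2 ?_) (Submodule.span_le.2 ?_)
    · rintro _ ⟨n, P, c, c', v, v', p, p', hP, hg, hv, hv', hp, hp', rfl⟩
      change Finsupp.lmapDomain ℚ ℚ (fun p => ((p, q) : PtM m Z)) _ ∈ ratEq X Z
      rw [map_sum]
      refine Submodule.mem_sup_left (Submodule.subset_span ⟨n, P,
        fun _ j => (q j).map (Algebra.ofId k (Om k)) (Z j).hom, c, c', v, v',
        fun a => (p a, q), fun a => (p' a, q), hP, fun g => ?_, hv, hv', fun a => ?_, fun a => ?_,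
        ?_⟩)
      · obtain ⟨e, he⟩ := hg g
        exact ⟨e, fun a => ⟨fun i => he a i, fun j => isConj_const g _⟩⟩
      · exact ⟨(hp a).1, (hp a).2, fun j => GT.isVal_const⟩
      · exact ⟨(hp' a).1, (hp' a).2, fun j => GT.isVal_const⟩
      · refine Finset.sum_congr rfl fun a _ => ?_
        rw [map_sub, Finsupp.lmapDomain_apply, Finsupp.lmapDomain_apply,
          Finsupp.mapDomain_single, Finsupp.mapDomain_single]
    · rintro _ ⟨p, p', hp, hact, rfl⟩
      change Finsupp.lmapDomain ℚ ℚ (fun p => ((p, q) : PtM m Z)) _ ∈ ratEq X Z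
      rw [map_sub, Finsupp.lmapDomain_apply, Finsupp.lmapDomain_apply, Finsupp.mapDomain_single,
        Finsupp.mapDomain_single]
      exact Submodule.mem_sup_right (Submodule.subset_span ⟨(p, q), (p', q), hp, hact, rfl, rfl⟩)
  exact hle hz

omit [IsAlgClosed k] [CharZero k] in
/-- cycles on the product of the surfaces `Z j` -/
theorem ratEq0_times {p : Pts m k} (hp : OnP X p) {z : PtM 0 Z →₀ ℚ}
    (hz : z ∈ ratEq (e0 k) Z) :
    Finsupp.mapDomain (fun q : PtM 0 Z => ((p, q.2) : PtM m Z)) z ∈ ratEq X Z := by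
  have hle : ratEq (e0 k) Z ≤
      (ratEq X Z).comap (Finsupp.lmapDomain ℚ ℚ fun q : PtM 0 Z => ((p, q.2) : PtM m Z)) := by
    refine sup_le (Submodule.span_le.2 ?_) (Submodule.span_le.2 ?_)
    · rintro _ ⟨n, P, Q, c, c', v, v', q, q', hP, hg, hv, hv', hq, hq', rfl⟩
      change Finsupp.lmapDomain ℚ ℚ (fun q : PtM 0 Z => ((p, q.2) : PtM m Z)) _ ∈ ratEq X Z
      rw [map_sum]
      refine Submodule.mem_sup_left (Submodule.subset_span ⟨n, fun _ => cstP p, Q, c, c', v, v',
        fun a => (p, (q a).2), fun a => (p, (q' a).2), fun _ => onPO_cstP hp, fun g => ?_, hv,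
        hv', fun a => ?_, fun a => ?_, ?_⟩)
      · obtain ⟨e, he⟩ := hg g
        exact ⟨e, fun a => ⟨fun i => cstP_map _ p i, (he a).2⟩⟩
      · exact ⟨hp, fun i => isVal_cstP v p i, (hq a).2.2⟩
      · exact ⟨hp, fun i => isVal_cstP v' p i, (hq' a).2.2⟩
      · refine Finset.sum_congr rfl fun a _ => ?_
        rw [map_sub, Finsupp.lmapDomain_apply, Finsupp.lmapDomain_apply,
          Finsupp.mapDomain_single, Finsupp.mapDomain_single]
    · rintro _ ⟨q, q', -, -, h2, rfl⟩
      change Finsupp.lmapDomain ℚ ℚ (fun q : PtM 0 Z => ((p, q.2) : PtM m Z)) _ ∈ ratEq X Z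
      rw [map_sub, Finsupp.lmapDomain_apply, Finsupp.lmapDomain_apply, Finsupp.mapDomain_single,
        Finsupp.mapDomain_single, h2, sub_self]
      exact zero_mem _
  exact hle hz

variable (X Z) in
/-- a point of the first part times a class of the second part, zero if the point is not on the
variety -/
def timesP (p : Pts m k) : VT Z →ₗ[ℚ] V X Z :=
  if hp : OnP X p then
    (ratEq (e0 k) Z).liftQ ((ratEq X Z).mkQ.comp
      (Finsupp.lmapDomain ℚ ℚ fun q : PtM 0 Z => ((p, q.2) : PtM m Z))) (fun z hz => by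
        rw [LinearMap.mem_ker, LinearMap.comp_apply, Submodule.mkQ_apply,
          Submodule.Quotient.mk_eq_zero]
        exact ratEq0_times hp hz)
  else 0

omit [IsAlgClosed k] [CharZero k] in
theorem timesP_clT {p : Pts m k} (hp : OnP X p) (q : ∀ j, (Z j).Pt) :
    timesP X Z p (clT Z q) = cl X Z (p, q) := by
  unfold timesP clT cl
  rw [dif_pos hp, Submodule.liftQ_apply, LinearMap.comp_apply, Finsupp.lmapDomain_apply,
    Finsupp.mapDomain_single, Submodule.mkQ_apply]

omit [IsAlgClosed k] [CharZero k] in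
/-- linear maps which agree on the classes of points -/
theorem VT_ext {W : Type*} [AddCommGroup W] [Module ℚ W] {f g : VT Z →ₗ[ℚ] W}
    (h : ∀ q, f (clT Z q) = g (clT Z q)) : f = g := by
  refine Submodule.linearMap_qext _ (Finsupp.lhom_ext fun q c => ?_)
  have h1 : (Finsupp.single q c : PtM 0 Z →₀ ℚ) = c • Finsupp.single q 1 := by
    rw [Finsupp.smul_single, smul_eq_mul, mul_one]
  rw [h1, map_smul, map_smul]
  congr 1
  have h2 := clT_eq Z q
  unfold cl at h2
  change f (Submodule.Quotient.mk (Finsupp.single q 1)) =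
    g (Submodule.Quotient.mk (Finsupp.single q 1))
  rw [h2]
  exact h q.2

variable (X Z) in
/-- **The exterior product.** -/
def times : VP X →ₗ[ℚ] VT Z →ₗ[ℚ] V X Z :=
  (ratEqW X).liftQ (Finsupp.linearCombination ℚ (timesP X Z)) (fun z hz => by
    rw [LinearMap.mem_ker]
    refine VT_ext fun q => ?_
    rw [LinearMap.zero_apply, Finsupp.linearCombination_apply, Finsupp.sum,
      LinearMap.sum_apply]
    have h1 : ∀ p ∈ z.support, (z p • timesP X Z p) (clT Z q) =
        z p • cl X Z (p, q) := fun p hp => by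
      rw [LinearMap.smul_apply, timesP_clT ((ratEqW_supp hz).1 p hp)]
    rw [Finset.sum_congr rfl h1]
    have h2 := ratEqW_times (Z := Z) q hz
    rw [← Submodule.Quotient.mk_eq_zero] at h2
    rw [← h2, Finsupp.mapDomain, Finsupp.sum, ← Submodule.mkQ_apply, map_sum]
    refine Finset.sum_congr rfl fun p _ => ?_
    have h3 : (Finsupp.single ((p, q) : PtM m Z) (z p)) =
        z p • Finsupp.single ((p, q) : PtM m Z) (1 : ℚ) := by
      rw [Finsupp.smul_single, smul_eq_mul, mul_one]
    rw [h3, map_smul]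
    rfl)

theorem times_cl {p : Pts m k} (hp : OnP X p) (q : ∀ j, (Z j).Pt) :
    times X Z (clP X p) (clT Z q) = cl X Z (p, q) := by
  unfold times clP
  rw [Submodule.liftQ_apply, Finsupp.linearCombination_single, one_smul]
  exact timesP_clT hp q

omit [IsAlgClosed k] [CharZero k] in
/-- a cycle as a combination of classes of points -/
theorem mk_eq_sum (z : PtM m Z →₀ ℚ) :
    (Submodule.Quotient.mk z : V X Z) = z.sum fun p c => c • cl X Z p := by
  conv_lhs => rw [← Finsupp.sum_single z]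
  rw [Finsupp.sum, ← Submodule.mkQ_apply, map_sum, Finsupp.sum]
  refine Finset.sum_congr rfl fun p _ => ?_
  rw [cl, ← Submodule.mkQ_apply, ← map_smul, Finsupp.smul_single, smul_eq_mul, mul_one]

end Pool.Agent.QTF
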