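import Pool.Agent.QTF.FilA
import Pool.Agent.QTF.Times
import Pool.Agent.WFC.FTwo

/-!
# The parts of the classes as products, and the second step of the filtration
-/

set_option autoImplicit false

noncomputable section

namespace Pool.Agent.QTF

open Pool.Agent.ZCyc
open Pool.Agent.VFP (Om tt)
open Pool.Agent.WFC
open scoped Classical

variable {k : Type} [Field k] [IsAlgClosed k] [CharZero k] {m l : ℕ} {X : Fin m → WC k}
  {Z : Fin l → TS k}

/-- the parts of the class of a point are products -/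
theorem eM_eq_times (T : Finset (Fin m × Option ℕ)) (S : Finset (Fin l)) {p : PtM m Z}
    (hp : OnP X p.1) : eM X Z T S p = times X Z (eP X T p.1) (eT Z S p.2) := by
  unfold eM eP
  rw [map_sum, LinearMap.sum_apply]
  refine Finset.sum_congr rfl fun U _ => ?_
  rw [map_smul, LinearMap.smul_apply]
  unfold eT
  rw [map_sum]
  congr 1
  refine Finset.sum_congr rfl fun U' _ => ?_
  rw [map_smul]
  congr 1
  exact (times_cl (onP_proj hp U) _).symm

omit [IsAlgClosed k] [CharZero k] in
/-- the projection to the factors of the class `WC` -/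
theorem fst_ratEq {z : PtM m Z →₀ ℚ} (hz : z ∈ ratEq X Z) :
    Finsupp.mapDomain Prod.fst z ∈ ratEqW X := by
  have hle : ratEq X Z ≤ (ratEqW X).comap
      (Finsupp.lmapDomain ℚ ℚ (Prod.fst : PtM m Z → Pts m k)) := by
    refine sup_le (Submodule.span_le.2 ?_) (Submodule.span_le.2 ?_)
    · rintro _ ⟨n, P, Q, c, c', v, v', p, p', hP, hg, hv, hv', hp, hp', rfl⟩
      refine Submodule.mem_sup_left (Submodule.subset_span ⟨n, P, c, c', v, v',
        fun a => (p a).1, fun a => (p' a).1, hP, fun g => ?_, hv, hv',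
        fun a => ⟨(hp a).1, (hp a).2.1⟩, fun a => ⟨(hp' a).1, (hp' a).2.1⟩, ?_⟩)
      · obtain ⟨e, he⟩ := hg g
        exact ⟨e, fun a i => (he a).1 i⟩
      · rw [map_sum]
        refine Finset.sum_congr rfl fun a _ => ?_
        rw [map_sub, Finsupp.lmapDomain_apply, Finsupp.lmapDomain_apply,
          Finsupp.mapDomain_single, Finsupp.mapDomain_single]
    · rintro _ ⟨p, p', hp, hc, -, rfl⟩
      refine Submodule.mem_sup_right (Submodule.subset_span ⟨p.1, p'.1, hp, hc, ?_⟩)
      rw [map_sub, Finsupp.lmapDomain_apply, Finsupp.lmapDomain_apply,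
        Finsupp.mapDomain_single, Finsupp.mapDomain_single]
  exact hle hz

theorem fst_projM (T : Finset (Fin m × Option ℕ)) (S : Finset (Fin l)) (z : PtM m Z →₀ ℚ) :
    Finsupp.mapDomain Prod.fst (Finsupp.lmapDomain ℚ ℚ (projM Z T S) z) =
      Finsupp.lmapDomain ℚ ℚ (proj T) (Finsupp.mapDomain Prod.fst z) := by
  rw [Finsupp.lmapDomain_apply, Finsupp.lmapDomain_apply, ← Finsupp.mapDomain_comp,
    ← Finsupp.mapDomain_comp]
  rfl

theorem projM_empty (T : Finset (Fin m × Option ℕ)) (z : PtM m Z →₀ ℚ) :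
    Finsupp.lmapDomain ℚ ℚ (projM Z T ∅) z = Finsupp.mapDomain
      (fun p => ((p, fun j => (Z j).oo) : PtM m Z))
      (Finsupp.lmapDomain ℚ ℚ (proj T) (Finsupp.mapDomain Prod.fst z)) := by
  rw [Finsupp.lmapDomain_apply, Finsupp.lmapDomain_apply, ← Finsupp.mapDomain_comp,
    ← Finsupp.mapDomain_comp]
  congr 1

/-- the two filtrations -/
theorem FilM_fst {ν : ℕ} (hν : ν ≤ 2) (z : PtM m Z →₀ ℚ) :
    z ∈ FilM X Z ν ↔ (∀ p ∈ z.support, OnP X p.1) ∧ Finsupp.mapDomain Prod.fst z ∈ Fil X ν := by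
  constructor
  · rintro ⟨h1, h2⟩
    refine ⟨h1, fun p hp => ?_, fun T hT => ?_⟩
    · obtain ⟨q, hq, rfl⟩ := Finset.mem_image.1 (Finsupp.mapDomain_support hp)
      exact h1 q hq
    · have h3 := fst_ratEq (h2 T ∅ (by rwa [Finset.card_empty, mul_zero, add_zero]))
      rwa [fst_projM] at h3
  · rintro ⟨h1, h2⟩
    refine ⟨h1, fun T S hT => ?_⟩
    have hS : S = ∅ := by
      rw [← Finset.card_eq_zero]
      omega
    subst hS
    rw [Finset.card_empty, mul_zero, add_zero] at hT
    rw [projM_empty]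
    exact ratEqW_times _ (h2.2 T hT)

theorem FilM_two (z : PtM m Z →₀ ℚ) : z ∈ FilM X Z 2 ↔ z ∈ FilM X Z 1 ∧
    ∀ j, toBase j (Finsupp.mapDomain Prod.fst z) ∈ ratEqW (fun _ : Fin 1 => (X j).base) := by
  rw [FilM_fst le_rfl, FilM_fst (by norm_num), Fil_two, and_assoc]

end Pool.Agent.QTF
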