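import Pool.Agent.QTF.GradT
import Pool.Agent.QTF.PushM
import Pool.Agent.QTF.Bilin
import Pool.Agent.WFC.FMain

/-!
# Condition 4 for the products with surfaces
-/

set_option autoImplicit false

noncomputable section

namespace Pool.Agent.QTF

open Pool.Agent.ZCyc Pool.Agent.WFC
open Pool.Agent.VFP (Om tt)
open scoped Classical

variable {k : Type} [Field k] [IsAlgClosed k] [CharZero k] {m m' l l' : ℕ}
  {X : Fin m → WC k} {Z : Fin l → TS k} {Y : Fin m' → WC k} {W : Fin l' → TS k}

/-- the classes `eM` are exterior products -/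
theorem eM_eq (T : Finset (Fin m × Option ℕ)) (S : Finset (Fin l)) {p : PtM m Z}
    (hp : OnP X p.1) : eM X Z T S p = times X Z (eP X T p.1) (eT Z S p.2) := by
  unfold eM eP eT
  rw [LinearMap.map_sum₂]
  refine Finset.sum_congr rfl fun U _ => ?_
  rw [map_smul, LinearMap.smul_apply, map_sum]
  congr 1
  refine Finset.sum_congr rfl fun U' _ => ?_
  rw [map_smul, times_cl (onP_proj hp U)]
  rfl

theorem eT_congr (S : Finset (Fin l)) {z z' : ∀ j, (Z j).Pt} (h : ∀ j ∈ S, z j = z' j) :
    eT Z S z = eT Z S z' := by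
  rw [eT_eq, eT_eq]
  congr 1
  funext j
  split_ifs with hj
  · rw [h j hj]
  · rfl

/-- a class is the sum of its parts -/
theorem clT_sum (z : ∀ j, (Z j).Pt) : clT Z z = ∑ S : Finset (Fin l), eT Z S z := by
  have h1 : (fun j => clS (Z j) (z j)) = (fun j => clS (Z j) (z j) - clS (Z j) (Z j).oo) +
      fun j => clS (Z j) (Z j).oo := by
    funext j
    rw [Pi.add_apply, sub_add_cancel]
  rw [← mulT_cl, h1, MultilinearMap.map_add_univ]
  refine Finset.sum_congr rfl fun S _ => ?_
  rw [eT_eq]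
  congr 1

/-- the parts with a smaller number of factors are zero -/
theorem pT_zero (g : MorT Z W) {S : Finset (Fin l)} {S' : Finset (Fin l')}
    (h : S'.card < S.card) (z : ∀ j, (Z j).Pt) : pT g S S' z = 0 := by
  have h1 : (S'.biUnion fun j => ((g j).src).toFinset).card < S.card := by
    refine lt_of_le_of_lt (Finset.card_biUnion_le.trans ?_) h
    rw [Finset.card_eq_sum_ones]
    refine Finset.sum_le_sum fun j _ => ?_
    cases (g j).src with
    | none => simp
    | some i => simp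
  obtain ⟨i, hi, hi'⟩ := Finset.exists_mem_notMem_of_card_lt_card h1
  refine incl_zero hi (fun U => eT W S' (fun j => (g j).app (projT Z U z))) fun U _ => ?_
  refine eT_congr S' fun j hj => ?_
  cases hg : g j with
  | const w => rfl
  | fac i' u =>
    have hne : i' ≠ i := by
      rintro rfl
      refine hi' (Finset.mem_biUnion.2 ⟨j, hj, ?_⟩)
      rw [hg]
      simp [CompT.src]
    change u.u (projT Z (insert i U) z i') = u.u (projT Z U z i')
    unfold projT
    simp only [Finset.mem_insert, hne, false_or]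

/-- the image of a class `eM` -/
theorem pushV_eM (f : MorM X Z Y W) (T : Finset (Fin m × Option ℕ)) (S : Finset (Fin l))
    {p : PtM m Z} (hp : OnP X p.1) :
    pushV f (eM X Z T S p) = ∑ T' ∈ (blocks Y).powerset with Closed T',
      ∑ S' : Finset (Fin l'),
        times Y W (if srcT f.1 T' = T then eP Y T' (Mor.app f.1 p.1) else 0)
          (pT f.2 S S' p.2) := by
  have h1 : pushV f (eM X Z T S p) = times Y W (pushW f.1 (eP X T p.1))
      (∑ U ∈ S.powerset, ((-1 : ℚ) ^ (S \ U).card) •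
        clT W (fun j => (f.2 j).app (projT Z U p.2))) := by
    unfold eM eP
    rw [map_sum, map_sum (pushW f.1), LinearMap.map_sum₂]
    refine Finset.sum_congr rfl fun U _ => ?_
    rw [map_smul, map_smul, map_smul, LinearMap.smul_apply, map_sum, map_sum]
    congr 1
    refine Finset.sum_congr rfl fun U' _ => ?_
    rw [map_smul, map_smul, pushW_clP, pushV_cl, times_cl (f.1.onP (onP_proj hp U))]
    rfl
  have h2 : (∑ U ∈ S.powerset, ((-1 : ℚ) ^ (S \ U).card) •
      clT W (fun j => (f.2 j).app (projT Z U p.2))) = ∑ S' : Finset (Fin l'), pT f.2 S S' p.2 := by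
    unfold pT
    rw [Finset.sum_comm]
    refine Finset.sum_congr rfl fun U _ => ?_
    rw [clT_sum, Finset.smul_sum]
  have h3 : pushW f.1 (eP X T p.1) = ∑ T' ∈ (blocks Y).powerset with Closed T',
      if srcT f.1 T' = T then eP Y T' (Mor.app f.1 p.1) else 0 := by
    have h0 : ((blocks Y).powerset.filter fun T' => Closed T' ∧ srcT f.1 T' = T) =
        ((blocks Y).powerset.filter fun T' => Closed T').filter fun T' => srcT f.1 T' = T := by
      rw [Finset.filter_filter]
    rw [← Finset.sum_filter (fun T' => srcT f.1 T' = T), ← h0]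
    exact pushW_eP f.1 hp
  rw [h1, h2, h3, LinearMap.map_sum₂]
  refine Finset.sum_congr rfl fun T' _ => ?_
  rw [map_sum]

/-- the exterior product of a class `eP` and of a part is in `FM` -/
theorem times_mem {T' : Finset (Fin m' × Option ℕ)} (hT' : T' ⊆ blocks Y) (hc : Closed T')
    {S' : Finset (Fin l')} {ν : ℕ} (hν : ν ≤ wt Y T' + 2 * S'.card) {y : Pts m' k}
    (hy : OnP Y y) (g : MorT Z W) (S : Finset (Fin l)) (z : ∀ j, (Z j).Pt) :
    times Y W (eP Y T' y) (pT g S S' z) ∈ FM Y W ν := by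
  unfold pT
  rw [map_sum]
  refine Submodule.sum_mem _ fun U _ => ?_
  rw [map_smul]
  refine Submodule.smul_mem _ _ (Submodule.subset_span
    ⟨T', S', (y, fun j => (g j).app (projT Z U z)), hy, hT', hc, hν, ?_⟩)
  rw [eM_eq T' S' hy]

variable {Q : WC k → Prop}

/-- condition 4 for one class -/
theorem grad_gen (hcore : CoreQ k Q) (hG : CoreG k)
    (hQ : ∀ (j : Fin m') (S : Finset ℕ), Q ((Y j).sub S)) (hT : Core k)
    (γ : MorM X Z Y W →₀ ℚ) (ν : ℕ) (h : KillsForms γ ν) {T : Finset (Fin m × Option ℕ)}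
    (hTb : T ⊆ blocks X) (hTc : Closed T) {S : Finset (Fin l)}
    (hν : ν ≤ wt X T + 2 * S.card) {p : PtM m Z} (hp : OnP X p.1) :
    ∑ f ∈ γ.support, γ f • pushV f (eM X Z T S p) ∈ FM Y W (ν + 1) := by
  have h1 : ∑ f ∈ γ.support, γ f • pushV f (eM X Z T S p) =
      ∑ T' ∈ (blocks Y).powerset with Closed T', ∑ S' : Finset (Fin l'),
        ∑ f ∈ γ.support, γ f •
          times Y W (if srcT f.1 T' = T then eP Y T' (Mor.app f.1 p.1) else 0)
            (pT f.2 S S' p.2) := by
    rw [Finset.sum_congr rfl fun f _ => by rw [pushV_eM f T S hp, Finset.smul_sum]]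
    rw [Finset.sum_comm]
    refine Finset.sum_congr rfl fun T' _ => ?_
    rw [Finset.sum_congr rfl fun f _ => Finset.smul_sum]
    rw [Finset.sum_comm]
  rw [h1]
  refine Submodule.sum_mem _ fun T' hT' => Submodule.sum_mem _ fun S' _ => ?_
  rw [Finset.mem_filter, Finset.mem_powerset] at hT'
  obtain ⟨hTb', hTc'⟩ := hT'
  rcases Nat.lt_or_ge ν (wt Y T' + 2 * S'.card) with hlt | hge
  · refine Submodule.sum_mem _ fun f _ => Submodule.smul_mem _ _ ?_
    split_ifs with hs
    · exact times_mem hTb' hTc' hlt (Mor.onP f.1 hp) f.2 S p.2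
    · rw [map_zero, LinearMap.zero_apply]
      exact Submodule.zero_mem _
  suffices h2 : ∑ f ∈ γ.support, γ f •
      times Y W (if srcT f.1 T' = T then eP Y T' (Mor.app f.1 p.1) else 0)
        (pT f.2 S S' p.2) = 0 by
    rw [h2]
    exact Submodule.zero_mem _
  rcases Nat.lt_or_ge S'.card S.card with hS | hS
  · refine Finset.sum_eq_zero fun f _ => ?_
    rw [pT_zero f.2 hS, map_zero, smul_zero]
  by_cases hex : ∃ f : Mor X Y, srcT f T' = T
  swap
  · refine Finset.sum_eq_zero fun f _ => ?_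
    rw [if_neg fun h => hex ⟨f.1, h⟩, map_zero, LinearMap.zero_apply, smul_zero]
  obtain ⟨f₀, hf₀⟩ := hex
  have h3 := wt_srcT_le f₀ hTb' hTc'
  rw [hf₀] at h3
  have hw : wt X T = wt Y T' := by omega
  have hc : S'.card = S.card := by omega
  have hν' : wt X T + 2 * S.card = ν := by omega
  have hν'' : wt Y T' + 2 * S'.card = ν := by omega
  refine bilin_zero (I := {a : (Fin m → ℕ) × (Fin m' → ℕ) // IsForm X T a.1 ∧ IsForm Y T' a.2})
    (J := {b : (Fin l → ℕ) × (Fin l' → ℕ) // IsFormT Z S b.1 ∧ IsFormT W S' b.2})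
    (fun f a => (pullCoef f T a.1.1 T' a.1.2 : ℚ)) (fun g b => pullT g S b.1.1 S' b.1.2)
    (fun f : Mor X Y => if srcT f T' = T then eP Y T' (Mor.app f p.1) else 0)
    (fun g => pT g S S' p.2) (times Y W) ?_ ?_ γ.support γ ?_
  · intro α hα
    have h4 := graded_pair hcore hG hQ (γ := α) (T := T) (T' := T')
      (fun a a' ha ha' => hα ⟨(a, a'), ha, ha'⟩) hTb hTb' hTc hTc' hp
    rw [Finset.sum_filter] at h4
    refine Eq.trans (Finset.sum_congr rfl fun f _ => ?_) h4
    have h5 := bij_iff f hTb hTb' hTc hTc'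
    beta_reduce
    by_cases hf : Bij f T T'
    · rw [if_pos hf, if_pos (h5.1 hf).1, eP_app hTb' hf hp, smul_smul]
    · rw [if_neg hf, if_neg fun h6 => hf (h5.2 ⟨h6, hw⟩), smul_zero]
  · intro α hα
    exact gradT hT S S' hc.le α (fun b b' hb hb' => hα ⟨(b, b'), hb, hb'⟩) p.2
  · rintro ⟨⟨a, a'⟩, ha, ha'⟩ ⟨⟨b, b'⟩, hb, hb'⟩
    exact h T a T' a' S b S' b' ha ha' hb hb' hν' hν''

/-- **Condition 4** for the classes. -/
theorem grad_FM (hcore : CoreQ k Q) (hG : CoreG k)
    (hQ : ∀ (j : Fin m') (S : Finset ℕ), Q ((Y j).sub S)) (hT : Core k)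
    (γ : MorM X Z Y W →₀ ℚ) (ν : ℕ) (h : KillsForms γ ν) :
    FM X Z ν ≤ (FM Y W (ν + 1)).comap (∑ f ∈ γ.support, γ f • pushV f) := by
  rw [FM, Submodule.span_le]
  rintro _ ⟨T, S, p, hp, hTb, hTc, hν, rfl⟩
  change (∑ f ∈ γ.support, γ f • pushV f) (eM X Z T S p) ∈ FM Y W (ν + 1)
  rw [LinearMap.sum_apply]
  exact grad_gen hcore hG hQ hT γ ν h hTb hTc hν hp

end Pool.Agent.QTF
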