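import Pool.Agent.QTF.GrAbs

/-!
# Inclusion and exclusion for the projectors
-/

set_option autoImplicit false

namespace Pool.Agent.QTF

open scoped Classical

variable {l l' : ℕ} {V : Type*} [AddCommGroup V] [Module ℚ V]

/-- If `S'` has at most as many elements as `S` and the components in `S'` do not induce a bijection
from `S'` to `S` then an element of `S` is not used. -/
theorem exists_unused {src : Fin l' → Option (Fin l)} {S : Finset (Fin l)}
    {S' : Finset (Fin l')} (hc : S'.card ≤ S.card) (hB : ¬ BijZ src S S') :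
    ∃ i ∈ S, ∀ j ∈ S', src j ≠ some i := by
  by_contra hcon
  push Not at hcon
  apply hB
  choose t ht ht' using hcon
  -- `t` is a bijection
  have hinj : Set.InjOn (fun i : {i // i ∈ S} => t i.1 i.2) Set.univ := by
    intro i _ i' _ h
    have h1 := ht' i.1 i.2
    have h2 := ht' i'.1 i'.2
    simp only at h
    rw [h, h2] at h1
    exact Subtype.ext (Option.some.inj h1).symm
  have himg : Finset.image (fun i : {i // i ∈ S} => t i.1 i.2) Finset.univ = S' := by
    refine Finset.eq_of_subset_of_card_le ?_ ?_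
    · intro j hj
      obtain ⟨i, -, rfl⟩ := Finset.mem_image.1 hj
      exact ht i.1 i.2
    · rw [Finset.card_image_of_injOn (by simpa using hinj), Finset.card_univ,
        Fintype.card_coe]
      exact hc
  have hsurj : ∀ j ∈ S', ∃ (i : Fin l) (hi : i ∈ S), t i hi = j := by
    intro j hj
    rw [← himg] at hj
    obtain ⟨i, -, rfl⟩ := Finset.mem_image.1 hj
    exact ⟨i.1, i.2, rfl⟩
  refine ⟨fun j hj => ?_, fun i hi => ⟨t i hi, ⟨ht i hi, ht' i hi⟩, ?_⟩⟩
  · obtain ⟨i, hi, rfl⟩ := hsurj j hj
    exact ⟨i, ht' i hi, hi⟩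
  · rintro j ⟨hj, hj'⟩
    obtain ⟨i', hi', rfl⟩ := hsurj j hj
    have h1 := ht' i' hi'
    rw [hj', Option.some.injEq] at h1
    subst h1
    rfl

/-- the sum is zero if an element of `S` is not used -/
theorem incl_zero {S : Finset (Fin l)} {i : Fin l} (hi : i ∈ S) (G : Finset (Fin l) → V)
    (hG : ∀ U, i ∉ U → G (insert i U) = G U) :
    ∑ U ∈ S.powerset, (-1 : ℚ) ^ (S \ U).card • G U = 0 := by
  have h1 : S = insert i (S.erase i) := (Finset.insert_erase hi).symm
  have h2 : i ∉ S.erase i := Finset.notMem_erase i S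
  rw [h1, Finset.sum_powerset_insert h2, ← Finset.sum_add_distrib]
  refine Finset.sum_eq_zero fun U hU => ?_
  rw [Finset.mem_powerset] at hU
  have h3 : i ∉ U := fun h => h2 (hU h)
  rw [hG U h3, ← add_smul]
  have h4 : (insert i (S.erase i) \ U).card = (insert i (S.erase i) \ insert i U).card + 1 := by
    have h5 : insert i (S.erase i) \ U = insert i (insert i (S.erase i) \ insert i U) := by
      ext j
      simp only [Finset.mem_sdiff, Finset.mem_insert, not_or]
      constructor
      · rintro ⟨h6, h7⟩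
        by_cases hj : j = i
        · exact Or.inl hj
        · exact Or.inr ⟨h6, hj, h7⟩
      · rintro (rfl | ⟨h6, h7, h8⟩)
        · exact ⟨Or.inl rfl, h3⟩
        · exact ⟨h6, h8⟩
    rw [h5, Finset.card_insert_of_notMem]
    simp
  rw [h4, pow_succ]
  have h6 : ((-1 : ℚ) ^ (insert i (S.erase i) \ insert i U).card * -1 +
      (-1) ^ (insert i (S.erase i) \ insert i U).card) = 0 := by ring
  rw [h6, zero_smul]

/-- the product of the differences -/
theorem incl_bij {H : Fin l' → Type*} [∀ j, AddCommGroup (H j)] [∀ j, Module ℚ (H j)]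
    {src : Fin l' → Option (Fin l)} {S : Finset (Fin l)} {S' : Finset (Fin l')}
    (hB : BijZ src S S') (E : MultilinearMap ℚ H V) (A B O : ∀ j, H j) :
    ∑ U ∈ S.powerset, (-1 : ℚ) ^ (S \ U).card •
      E (fun j => if j ∈ S' then (if ∃ i ∈ U, src j = some i then A j else B j) else O j) =
      E (fun j => if j ∈ S' then A j - B j else O j) := by
  -- the right-hand side
  have h1 : (fun j => if j ∈ S' then A j - B j else O j) =
      S'.piecewise (A + S'.piecewise (-B) O) (S'.piecewise (-B) O) := by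
    funext j
    by_cases hj : j ∈ S'
    · rw [if_pos hj, Finset.piecewise_eq_of_mem _ _ _ hj, Pi.add_apply,
        Finset.piecewise_eq_of_mem _ _ _ hj, Pi.neg_apply, sub_eq_add_neg]
    · rw [if_neg hj, Finset.piecewise_eq_of_notMem _ _ _ hj,
        Finset.piecewise_eq_of_notMem _ _ _ hj]
  rw [h1, E.map_piecewise_add]
  -- subsets of `S'` and of `S`
  refine Finset.sum_bij' (fun U _ => S'.filter fun j => ∃ i ∈ U, src j = some i)
    (fun U' _ => S.filter fun i => ∃ j ∈ U', src j = some i) ?_ ?_ ?_ ?_ ?_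
  · intro U _
    rw [Finset.mem_powerset]
    exact Finset.filter_subset _ _
  · intro U' _
    rw [Finset.mem_powerset]
    exact Finset.filter_subset _ _
  · intro U hU
    rw [Finset.mem_powerset] at hU
    ext i
    simp only [Finset.mem_filter]
    constructor
    · rintro ⟨hi, j, ⟨hj, i', hi', h2⟩, h3⟩
      rw [h2, Option.some.injEq] at h3
      rwa [← h3]
    · intro hi
      obtain ⟨j, ⟨hj, h2⟩, -⟩ := hB.2 i (hU hi)
      exact ⟨hU hi, j, ⟨hj, i, hi, h2⟩, h2⟩
  · intro U' hU'
    rw [Finset.mem_powerset] at hU'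
    ext j
    simp only [Finset.mem_filter]
    constructor
    · rintro ⟨hj, i, ⟨hi, j', hj', h2⟩, h3⟩
      obtain ⟨j₁, -, h4⟩ := hB.2 i hi
      rw [h4 j ⟨hj, h3⟩, ← h4 j' ⟨hU' hj', h2⟩]
      exact hj'
    · intro hj
      obtain ⟨i, h2, hi⟩ := hB.1 j (hU' hj)
      exact ⟨hU' hj, i, ⟨hi, j, hj, h2⟩, h2⟩
  · intro U hU
    rw [Finset.mem_powerset] at hU
    set U' := S'.filter fun j => ∃ i ∈ U, src j = some i with hU'
    have hsub : U' ⊆ S' := Finset.filter_subset _ _
    -- the signs
    have hcard : (S \ U).card = (S' \ U').card := by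
      symm
      refine Finset.card_bij (fun j hj => (hB.1 j (Finset.mem_sdiff.1 hj).1).choose) ?_ ?_ ?_
      · intro j hj
        have h2 := (hB.1 j (Finset.mem_sdiff.1 hj).1).choose_spec
        rw [Finset.mem_sdiff]
        refine ⟨h2.2, fun h3 => (Finset.mem_sdiff.1 hj).2 ?_⟩
        rw [hU', Finset.mem_filter]
        exact ⟨(Finset.mem_sdiff.1 hj).1, _, h3, h2.1⟩
      · intro j hj j' hj' h
        have h2 := (hB.1 j (Finset.mem_sdiff.1 hj).1).choose_spec
        have h3 := (hB.1 j' (Finset.mem_sdiff.1 hj').1).choose_spec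
        obtain ⟨j₁, -, h4⟩ := hB.2 _ h2.2
        rw [h4 j ⟨(Finset.mem_sdiff.1 hj).1, h2.1⟩, h4 j' ⟨(Finset.mem_sdiff.1 hj').1, ?_⟩]
        rw [h]
        exact h3.1
      · intro i hi
        rw [Finset.mem_sdiff] at hi
        obtain ⟨j, ⟨hj, h2⟩, -⟩ := hB.2 i hi.1
        have hj' : j ∈ S' \ U' := by
          rw [Finset.mem_sdiff]
          refine ⟨hj, fun h3 => hi.2 ?_⟩
          obtain ⟨-, i', hi', h4⟩ := Finset.mem_filter.1 h3
          rw [h2, Option.some.injEq] at h4
          rwa [h4]
        refine ⟨j, hj', ?_⟩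
        have h3 := (hB.1 j (Finset.mem_sdiff.1 hj').1).choose_spec
        exact Option.some.inj (h3.1.symm.trans h2)
    rw [hcard]
    have h2 : U'.piecewise A (S'.piecewise (-B) O) = (S' \ U').piecewise
        (fun j => (-1 : ℚ) • (fun j => if j ∈ S' then (if ∃ i ∈ U, src j = some i then A j else
          B j) else O j) j)
        (fun j => if j ∈ S' then (if ∃ i ∈ U, src j = some i then A j else B j) else O j) := by
      funext j
      by_cases hj : j ∈ S'
      · by_cases hj' : j ∈ U'
        · have h3 : ∃ i ∈ U, src j = some i := (Finset.mem_filter.1 hj').2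
          rw [Finset.piecewise_eq_of_mem _ _ _ hj', Finset.piecewise_eq_of_notMem _ _ _ (by
            rw [Finset.mem_sdiff]
            exact fun h => h.2 hj'), if_pos hj, if_pos h3]
        · have h3 : ¬ ∃ i ∈ U, src j = some i := fun h => hj' (Finset.mem_filter.2 ⟨hj, h⟩)
          rw [Finset.piecewise_eq_of_notMem _ _ _ hj', Finset.piecewise_eq_of_mem _ _ _ hj,
            Finset.piecewise_eq_of_mem _ _ _ (Finset.mem_sdiff.2 ⟨hj, hj'⟩)]
          simp only
          rw [if_pos hj, if_neg h3, neg_one_smul, Pi.neg_apply]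
      · rw [Finset.piecewise_eq_of_notMem _ _ _ (fun h => hj (hsub h)),
          Finset.piecewise_eq_of_notMem _ _ _ hj, Finset.piecewise_eq_of_notMem _ _ _ (by
            rw [Finset.mem_sdiff]
            exact fun h => hj h.1), if_neg hj]
    rw [h2, E.map_piecewise_smul (fun _ => (-1 : ℚ)), Finset.prod_const]

end Pool.Agent.QTF
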