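import Pool.Agent.QTF.Seg
import Pool.Agent.GT.HomV

/-!
# The push-forward from the powers of the product to the product

`prN` is induced by the map from the power `W ^ n` of the product `W` to `W` which takes the
coordinate `j` of the factor `j`; `prU` is the push-forward from `W` to `X j`. A map from the
elliptic curve to `W` with the coordinates `∏ l, M_l(x, y)_(I_l)` (`IsProd`) has the limit
homomorphisms of the maps `M j` as images under `prU` (`prU_hV`).
-/

set_option autoImplicit false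

noncomputable section

namespace Pool.Agent.QTF

open Pool.Agent.ZCyc Pool.Agent.Dess Pool.Agent.GT Polynomial
open Pool.Agent.VFP (Om tt)
open scoped Classical LinearAlgebra.Projectivization

variable {k : Type} [Field k] {n : ℕ} {m : Fin n → ℕ}
  {X : ∀ j, Set (MvPolynomial (Fin (m j + 1)) k)}

/-- the push-forward from the power of the product -/
def prN (hX : ∀ j, Hom (X j)) : CH (sEq X) (Fin n) →ₗ[ℚ] CHm X :=
  Submodule.mapQ (Rat (sEq X) (Fin n)) (MRat X)
    (Finsupp.lmapDomain ℚ ℚ fun w j => pr hX j (w j)) (by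
      refine Submodule.span_le.2 ?_
      rintro _ ⟨K, i1, i2, i3, x, y, f, D, hf, hD, hval, rfl⟩
      change Finsupp.lmapDomain ℚ ℚ _ _ ∈ MRat X
      rw [map_finsuppSum]
      refine Submodule.subset_span ⟨K, i1, i2, i3, fun j => pr hX j (x j),
        fun v j => pr hX j (y v j), f, D, hf, hD, fun v j => isVal_pr hX j (hval v j), ?_⟩
      refine Finsupp.sum_congr fun v _ => ?_
      exact Finsupp.mapDomain_single)

theorem prN_mk (hX : ∀ j, Hom (X j)) (z : (Fin n → Pt (sEq X) k) →₀ ℚ) :
    prN hX (Submodule.Quotient.mk z) =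
      Submodule.Quotient.mk (Finsupp.mapDomain (fun w j => pr hX j (w j)) z) := rfl

/-- the push-forward to the factor `j` -/
def prU (hX : ∀ j, Hom (X j)) (j : Fin n) : CH (sEq X) Unit →ₗ[ℚ] CH (X j) Unit :=
  Submodule.mapQ (Rat (sEq X) Unit) (Rat (X j) Unit)
    (Finsupp.lmapDomain ℚ ℚ fun w u => pr hX j (w u)) (by
      refine Submodule.span_le.2 ?_
      rintro _ ⟨K, i1, i2, i3, x, y, f, D, hf, hD, hval, rfl⟩
      change Finsupp.lmapDomain ℚ ℚ _ _ ∈ Rat (X j) Unit
      rw [map_finsuppSum]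
      refine Submodule.subset_span ⟨K, i1, i2, i3, fun u => pr hX j (x u),
        fun v u => pr hX j (y v u), f, D, hf, hD, fun v u => isVal_pr hX j (hval v u), ?_⟩
      refine Finsupp.sum_congr fun v _ => ?_
      exact Finsupp.mapDomain_single)

theorem prU_cl1 (hX : ∀ j, Hom (X j)) (j : Fin n) (z : Pt (sEq X) k →₀ ℚ) :
    prU hX j (cl1 (sEq X) z) = cl1 (X j) (Finsupp.mapDomain (pr hX j) z) := by
  change Submodule.Quotient.mk (Finsupp.mapDomain (fun w u => pr hX j (w u))
    (Finsupp.mapDomain (fun x _ => x) z)) = Submodule.Quotient.mk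
      (Finsupp.mapDomain (fun x _ => x) (Finsupp.mapDomain (pr hX j) z))
  rw [← Finsupp.mapDomain_comp, ← Finsupp.mapDomain_comp]
  rfl

theorem prN_Ext [IsAlgClosed k] [CharZero k] (hX : ∀ j, Hom (X j))
    (c : Fin n → CH (sEq X) Unit) :
    prN hX (Ext (hom_sEq hX) n c) = Extm hX fun j => prU hX j (c j) := by
  choose z hz using fun j => cl1_surj (sEq X) (c j)
  have h1 : c = fun j => cl1 (sEq X) (z j) := funext fun j => (hz j).symm
  rw [h1, Ext_cl, prN_mk, ← extm_eq_ext, ← extm_mapDomain (fun j => pr hX j), ← Extm_cl hX]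
  congr 1
  funext j
  exact (prU_cl1 hX j (z j)).symm

section lim

variable {K : Type} [Field K] [Algebra k K] [HasRes k K]

theorem lim1_single {m : ℕ} {X : Set (MvPolynomial (Fin (m + 1)) k)} (hX : Hom X)
    (v : Place k K) (x : Pt X K) (a : ℚ) :
    lim1 hX v (Finsupp.single x a) = cl1 X (Finsupp.single (pv hX v x) a) := by
  change lim hX v (Finsupp.mapDomain (fun x _ => x) (Finsupp.single x a)) =
    Submodule.Quotient.mk (Finsupp.mapDomain (fun x _ => x) (Finsupp.single (pv hX v x) a))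
  rw [Finsupp.mapDomain_single, Finsupp.mapDomain_single, lim_single]

theorem prU_lim1 (hX : ∀ j, Hom (X j)) (j : Fin n) (v : Place k K) (x : Pt (sEq X) K) (a : ℚ) :
    prU hX j (lim1 (hom_sEq hX) v (Finsupp.single x a)) =
      lim1 (hX j) v (Finsupp.single (pr hX j x) a) := by
  rw [lim1_single, lim1_single, prU_cl1, Finsupp.mapDomain_single,
    pv_eq (isVal_pr hX j (pv_spec (hom_sEq hX) v x))]

end lim

/-- `W` is the product of the maps `M j` -/
def IsProd {K : Type} [Field K] (α B : K) (M : ∀ j, Mp K (m j)) (W : Mp K (sN m)) : Prop :=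
  ∀ x y, y ^ 2 = x ^ 3 - 3 * α * x + B → ∀ i, W.co x y i = ∏ j, (M j).co x y (sE m i j)

section prod

variable {K : Type} [Field K] {α B : K} {M : ∀ j, Mp K (m j)} {W : Mp K (sN m)}

theorem IsProd.ns (h : IsProd α B M W) {P : (Ec α B).Point} (hP : W.Ns P) (j : Fin n) :
    (M j).Ns P := by
  cases P with
  | zero => exact hP.elim
  | some x y hxy =>
    intro h0
    apply hP
    funext i
    rw [h x y (eqn_iff.1 hxy.1), Pi.zero_apply]
    exact Finset.prod_eq_zero (Finset.mem_univ j) (congrFun h0 _)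

private theorem MPush_pair {ι : Type} (c : K[X]) (s : Finset ι) (G H : ι → K[X]) :
    ∃ g h : K[X], ∀ x y, y ^ 2 = c.eval x →
      g.eval x + h.eval x * y = ∏ i ∈ s, ((G i).eval x + (H i).eval x * y) := by
  induction s using Finset.induction_on with
  | empty => exact ⟨1, 0, fun x y _ => by simp⟩
  | insert a s ha ih =>
    obtain ⟨g, h, hgh⟩ := ih
    refine ⟨G a * g + H a * h * c, G a * h + H a * g, fun x y hxy => ?_⟩
    rw [Finset.prod_insert ha, ← hgh x y hxy]
    simp only [eval_add, eval_mul]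
    linear_combination (-(H a).eval x * h.eval x) * hxy

variable [IsAlgClosed K] [CharZero K] [Algebra k K]

theorem exists_isProd (hM : ∀ j, (M j).Ok α B (X j)) (hd : B ^ 2 ≠ 4 * α ^ 3)
    (hX : ∀ j, Hom (X j)) :
    ∃ W : Mp K (sN m), IsProd α B M W ∧ W.Ok α B (sEq X) := by
  have h1 : ∀ i : Fin (sN m + 1), ∃ g h : K[X], ∀ x y,
      y ^ 2 = (Polynomial.X ^ 3 + (C (-3 * α) * Polynomial.X + C B) : K[X]).eval x →
      g.eval x + h.eval x * y =
        ∏ j, (((M j).G (sE m i j)).eval x + ((M j).H (sE m i j)).eval x * y) := fun i =>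
    MPush_pair _ Finset.univ _ _
  choose g h hgh using h1
  let W : Mp K (sN m) := ⟨g, h⟩
  have hW : IsProd α B M W := by
    intro x y hxy i
    refine hgh i x y ?_
    simp only [eval_add, eval_pow, eval_X, eval_mul, eval_C]
    linear_combination hxy
  refine ⟨W, hW, hd, ?_, ?_⟩
  · -- not zero
    have := infinite_points hd
    have h2 : (⋃ j, {P : (Ec α B).Point | ¬ (M j).Ns P}).Finite :=
      Set.finite_iUnion fun j => finite_bad (hM j).ne
    obtain ⟨P, hP⟩ := h2.exists_notMem
    have hP' : ∀ j, (M j).Ns P := fun j => by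
      by_contra hc
      exact hP (Set.mem_iUnion.2 ⟨j, hc⟩)
    obtain ⟨x, y, hxy, hco⟩ : ∃ x y, y ^ 2 = x ^ 3 - 3 * α * x + B ∧
        ∀ j, (M j).co x y ≠ 0 := by
      cases P with
      | zero =>
        obtain ⟨y, hy⟩ := IsAlgClosed.exists_pow_nat_eq (0 ^ 3 - 3 * α * 0 + B) two_pos
        exact ⟨0, y, hy, fun j => ((hP' j : False)).elim⟩
      | some x y hxy => exact ⟨x, y, eqn_iff.1 hxy.1, hP'⟩
    have h3 : ∀ j, ∃ a, (M j).co x y a ≠ 0 := fun j => Function.ne_iff.1 (hco j)
    choose a ha using h3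
    refine ⟨(sE m).symm a, ?_⟩
    by_contra hcon
    push Not at hcon
    have h4 := hW x y hxy ((sE m).symm a)
    rw [Equiv.apply_symm_apply] at h4
    have h5 : W.co x y ((sE m).symm a) = 0 := by
      unfold Mp.co
      rw [hcon.1, hcon.2]
      simp
    rw [h5] at h4
    exact (Finset.prod_ne_zero_iff.2 fun j _ => ha j) h4.symm
  · rintro F hF x y hxy
    have hco := hW x y hxy
    have hup : ∀ (j : Fin n) (I : SI m) (a : Fin (m j + 1)),
        W.co x y ((sE m).symm (Function.update I j a)) =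
          (∏ l ∈ Finset.univ.erase j, (M l).co x y (I l)) * (M j).co x y a := by
      intro j I a
      rw [hco, Equiv.apply_symm_apply, ← Finset.mul_prod_erase Finset.univ _ (Finset.mem_univ j),
        Function.update_self, mul_comm]
      congr 1
      refine Finset.prod_congr rfl fun l hl => ?_
      rw [Function.update_of_ne (Finset.ne_of_mem_erase hl)]
    rcases hF with ⟨j, I, J, a, b, rfl⟩ | ⟨j, I, f, hf, rfl⟩
    · rw [map_sub, map_mul, map_mul, MvPolynomial.aeval_X, MvPolynomial.aeval_X,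
        MvPolynomial.aeval_X, MvPolynomial.aeval_X, hup, hup, hup, hup]
      ring
    · rw [MvPolynomial.aeval_rename]
      obtain ⟨d, hd⟩ := hX j f hf
      have h2 : (W.co x y ∘ fun a => (sE m).symm (Function.update I j a)) =
          fun a => (∏ l ∈ Finset.univ.erase j, (M l).co x y (I l)) * (M j).co x y a :=
        funext fun a => hup j I a
      rw [h2, aeval_smul_homog hd, (hM j).onX f hf x y hxy, mul_zero]

end prod

variable [IsAlgClosed k] [CharZero k] {α B : Om k} {M : ∀ j, Mp (Om k) (m j)}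
  {W : Mp (Om k) (sN m)}

omit [IsAlgClosed k] [CharZero k] in
/-- the projection of the image of a point -/
theorem pr_phi (hX : ∀ j, Hom (X j)) (hM : ∀ j, (M j).Ok α B (X j)) (hW : W.Ok α B (sEq X))
    (h : IsProd α B M W) {P : (Ec α B).Point} (hP : W.Ns P) (j : Fin n) :
    pr hX j (phi (hom_sEq hX) hW P hP) = phi (hX j) (hM j) P (h.ns hP j) := by
  cases P with
  | zero => exact hP.elim
  | some x y hxy =>
    exact pr_mk hX j _ hP rfl (c := fun l => (M l).co x y)
      (fun i => h x y (eqn_iff.1 hxy.1) i) _ (h.ns hP j) rfl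

theorem prU_lmp (hX : ∀ j, Hom (X j)) (hM : ∀ j, (M j).Ok α B (X j)) (hW : W.Ok α B (sEq X))
    (h : IsProd α B M W) (v : Place k (Om k)) {P : (Ec α B).Point} (hP : W.Ns P) (j : Fin n) :
    prU hX j (lmp (hom_sEq hX) hW v P) = lmp (hX j) (hM j) v P := by
  have h1 : cyc (hom_sEq hX) hW P = Finsupp.single (phi (hom_sEq hX) hW P hP) 1 := dif_pos hP
  have h2 : cyc (hX j) (hM j) P = Finsupp.single (phi (hX j) (hM j) P (h.ns hP j)) 1 :=
    dif_pos (h.ns hP j)
  unfold lmp
  rw [h1, h2, prU_lim1, pr_phi hX hM hW h hP j]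

/-- **The images of the limit homomorphisms.** -/
theorem prU_hV (hX : ∀ j, Hom (X j)) (hM : ∀ j, (M j).Ok α B (X j)) (hW : W.Ok α B (sEq X))
    (h : IsProd α B M W) (v : Place k (Om k)) (P : (Ec α B).Point) (j : Fin n) :
    prU hX j (hV (hom_sEq hX) hW v P) = hV (hX j) (hM j) v P := by
  have hinf := infinite_points hW.disc
  obtain ⟨Q, hQ⟩ := ((finite_bad (α := α) (B := B) hW.ne).union
    ((finite_bad (α := α) (B := B) hW.ne).preimage (f := fun Q => P + Q)
      (add_right_injective P).injOn)).exists_notMem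
  have h1 : W.Ns Q := by
    by_contra hc
    exact hQ (Or.inl hc)
  have h2 : W.Ns (P + Q) := by
    by_contra hc
    exact hQ (Or.inr hc)
  rw [← hV_spec (hom_sEq hX) hW v h1 h2, ← hV_spec (hX j) (hM j) v (h.ns h1 j) (h.ns h2 j),
    map_sub, prU_lmp hX hM hW h v h1 j, prU_lmp hX hM hW h v h2 j]

end Pool.Agent.QTF
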