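import Pool.Agent.QTF.UqB

/-!
# Uniqueness of the filtration
-/

set_option autoImplicit false

noncomputable section

namespace Pool.Agent.QTF

open Pool.Agent.ZCyc Pool.Agent.WFC Pool.Agent.BBU
open Pool.Agent.VFP (Om tt)
open scoped Classical

variable {k : Type} [Field k]

private lemma conds_split {Φ : Filtration k} (h : Conds Φ) {m l : ℕ} (X : Fin m → WC k)
    {Z : Fin l → TS k} (w : ∀ j, (Z j).Pt) :
    Split (ratEq X Z) (Finsupp.supported ℚ ℚ {p : PtM m Z | OnP X p.1}) (Φ m X l Z)
      (wtL X l) ((∑ j, (X j).dim) + 2 * l) (fun κ => push (ga X w κ)) := by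
  refine ⟨fun ν => h.mod m X l Z ν, fun ν => h.anti m X l Z ν, ?_, (h.top m X l Z).le,
    fun z _ => ?_, fun κ z _ => ?_, fun κ ν z hz => ?_, fun κ ν hν z hz => ?_⟩
  · ext z
    rw [h.zero m X l Z z, Finsupp.mem_supported]
    exact Iff.rfl
  · rw [ga_sum, sub_self]
    exact zero_mem _
  · rw [ga_idem, sub_self]
    exact zero_mem _
  · exact h.map m X l Z m X l Z ν (ga X w κ) (Submodule.mem_map_of_mem hz)
  · exact h.grad m X l Z m X l Z ν (ga X w κ) (ga_kills X w κ hν)
      (Submodule.mem_map_of_mem hz)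

/-- two filtrations with the properties are equal -/
theorem uniq {Φ Ψ : Filtration k} (h : Conds Φ) (h' : Conds Ψ) : Φ = Ψ := by
  funext m X l Z ν
  by_cases hne : ∀ j, Nonempty (Z j).Pt
  · have w : ∀ j, (Z j).Pt := fun j => (hne j).some
    exact (conds_split h X w).unique (conds_split h' X w) ν
  · push Not at hne
    obtain ⟨j, hj⟩ := hne
    have h1 : IsEmpty (PtM m Z) := ⟨fun p => hj.false (p.2 j)⟩
    exact Subsingleton.elim _ _

end Pool.Agent.QTF
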