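import Pool.Agent.QTF.MapM
import Pool.Agent.QTF.FilB
import Pool.Agent.QTF.Core
import Pool.Agent.QTF.UqC
import Pool.Agent.WFC.FinW
import Pool.Agent.WFC.CurveCore
import Pool.Agent.TInc.Riem

/-!
# The main theorem
-/

set_option autoImplicit false

noncomputable section

namespace Pool.Agent.QTF

open Pool.Agent.WFC

variable {k : Type} [Field k] [IsAlgClosed k] [CharZero k]

/-- the filtration -/
def Fl (k : Type) [Field k] [IsAlgClosed k] [CharZero k] : Filtration k :=
  fun _ X _ Z ν => FilM X Z ν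

theorem isBB_Fl : IsBB (Fl k) where
  mod := fun _ _ _ _ ν => FilM_ge ν
  anti := fun _ _ _ _ ν => FilM_anti ν
  zero := fun _ _ _ _ z => FilM_zero z
  top := fun _ _ _ _ => FilM_top
  map := fun _ _ _ _ _ _ _ _ ν γ => FilM_map γ ν
  grad := by
    have hg : ∀ (L : Type) [Field L] [Algebra k L] (hL : EFC.IsCurve k L),
        ∃ g, TInc.Riemann hL.dess g := fun L _ _ hL => TInc.exists_genus hL.dess
    exact fun _ _ _ _ _ _ _ _ ν γ h => FilM_grad (coreW hg) (coreG hg) (fun _ _ => trivial)
      (core_of k fun _ _ u => u.pos) γ ν h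
  one := fun _ _ _ _ z => FilM_one z
  two := fun _ _ _ _ z => FilM_two z

theorem main (k : Type) [Field k] [IsAlgClosed k] [CharZero k] : Stmt k :=
  ⟨Fl k, isBB_Fl, fun _ h => uniq h isBB_Fl.toConds⟩

end Pool.Agent.QTF
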