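import Pool.Agent.QTF.Grad
import Pool.Agent.QTF.FilA

/-!
# Conditions 3 and 4 for the filtration
-/

set_option autoImplicit false

noncomputable section

namespace Pool.Agent.QTF

open Pool.Agent.ZCyc Pool.Agent.WFC
open Pool.Agent.VFP (Om tt)
open scoped Classical

variable {k : Type} [Field k] [IsAlgClosed k] [CharZero k] {m m' l l' : ℕ}
  {X : Fin m → WC k} {Z : Fin l → TS k} {Y : Fin m' → WC k} {W : Fin l' → TS k}

/-- **Condition 3** for the classes. -/
theorem map_FM (f : MorM X Z Y W) (ν : ℕ) : FM X Z ν ≤ (FM Y W ν).comap (pushV f) := by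
  rw [FM, Submodule.span_le]
  rintro _ ⟨T, S, p, hp, hTb, hTc, hν, rfl⟩
  change pushV f (eM X Z T S p) ∈ FM Y W ν
  rw [pushV_eM f T S hp]
  refine Submodule.sum_mem _ fun T' hT' => Submodule.sum_mem _ fun S' _ => ?_
  rw [Finset.mem_filter, Finset.mem_powerset] at hT'
  obtain ⟨hTb', hTc'⟩ := hT'
  rcases Nat.lt_or_ge S'.card S.card with hS | hS
  · rw [pT_zero f.2 hS, map_zero]
    exact Submodule.zero_mem _
  split_ifs with hs
  · have h1 := wt_srcT_le f.1 hTb' hTc'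
    rw [hs] at h1
    exact times_mem hTb' hTc' (by omega) (Mor.onP f.1 hp) f.2 S p.2
  · rw [map_zero, LinearMap.zero_apply]
    exact Submodule.zero_mem _

theorem mk_push (γ : MorM X Z Y W →₀ ℚ) (z : PtM m Z →₀ ℚ) :
    (Submodule.Quotient.mk (push γ z) : V Y W) =
      (∑ f ∈ γ.support, γ f • pushV f) (Submodule.Quotient.mk z : V X Z) := by
  have h1 : push γ z = ∑ f ∈ γ.support, γ f • Finsupp.lmapDomain ℚ ℚ f.app z := by
    rw [push, Finsupp.sum, LinearMap.sum_apply]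
    exact Finset.sum_congr rfl fun f _ => LinearMap.smul_apply _ _ _
  rw [h1, ← Submodule.mkQ_apply, map_sum, LinearMap.sum_apply]
  refine Finset.sum_congr rfl fun f _ => ?_
  rw [map_smul, LinearMap.smul_apply]
  rfl

/-- from the classes to the cycles -/
theorem FilM_le (γ : MorM X Z Y W →₀ ℚ) {ν ν' : ℕ}
    (h : FM X Z ν ≤ (FM Y W ν').comap (∑ f ∈ γ.support, γ f • pushV f)) :
    (FilM X Z ν).map (push γ) ≤ FilM Y W ν' := by
  rw [Submodule.map_le_iff_le_comap]
  intro z hz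
  rw [Submodule.mem_comap, ← mk_mem_FM (push_supp γ hz.1), mk_push]
  exact h ((mk_mem_FM hz.1).2 hz)

/-- **Condition 3** -/
theorem FilM_map (γ : MorM X Z Y W →₀ ℚ) (ν : ℕ) : (FilM X Z ν).map (push γ) ≤ FilM Y W ν := by
  refine FilM_le γ fun x hx => ?_
  rw [Submodule.mem_comap, LinearMap.sum_apply]
  exact Submodule.sum_mem _ fun f _ => Submodule.smul_mem _ _ (map_FM f ν hx)

/-- **Condition 4** -/
theorem FilM_grad {Q : WC k → Prop} (hcore : CoreQ k Q) (hG : CoreG k)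
    (hQ : ∀ (j : Fin m') (S : Finset ℕ), Q ((Y j).sub S)) (hT : Core k)
    (γ : MorM X Z Y W →₀ ℚ) (ν : ℕ) (h : KillsForms γ ν) :
    (FilM X Z ν).map (push γ) ≤ FilM Y W (ν + 1) :=
  FilM_le γ (grad_FM hcore hG hQ hT γ ν h)

end Pool.Agent.QTF
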