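import Pool.Agent.QTF.Times
import Pool.Agent.QTF.MulAbs
import Pool.Agent.GT.Alt

/-!
# The exterior product of classes on the surfaces

`mulT Z` is the multilinear map from the classes on the surfaces `Z j` to the classes on their
product, `brT` and `brS` are the comparisons with the classes which are defined by divisors of
functions on curves.
-/

set_option autoImplicit false

noncomputable section

namespace Pool.Agent.QTF

open Pool.Agent.ZCyc Pool.Agent.WFC
open Pool.Agent.VFP (Om tt)
open scoped Classical

variable {k : Type} [Field k] {l : ℕ} {Z : Fin l → TS k}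

/-- the class of a cycle on a surface -/
def mkS (W : TS k) : (W.Pt →₀ ℚ) →ₗ[ℚ] V1 W := Finsupp.linearCombination ℚ (clS W)

theorem mkS_single (W : TS k) (w : W.Pt) (a : ℚ) :
    mkS W (Finsupp.single w a) = a • clS W w := Finsupp.linearCombination_single _ _ _

/-- every class on a product of surfaces is a combination of classes of points -/
theorem VT_span (x : VT Z) : x ∈ Submodule.span ℚ (Set.range (clT Z)) := by
  obtain ⟨z, rfl⟩ := Submodule.Quotient.mk_surjective _ x
  rw [mk_eq_sum]
  refine Submodule.sum_mem _ fun p _ => Submodule.smul_mem _ _ (Submodule.subset_span ?_)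
  exact ⟨p.2, (clT_eq Z p).symm⟩

theorem mkS_surj (W : TS k) : Function.Surjective (mkS W) := by
  intro x
  have h1 := VT_span x
  have h2 : Submodule.span ℚ (Set.range (clT fun _ : Fin 1 => W)) ≤ LinearMap.range (mkS W) := by
    rw [Submodule.span_le]
    rintro _ ⟨z, rfl⟩
    refine ⟨Finsupp.single (z 0) 1, ?_⟩
    rw [mkS_single, one_smul]
    unfold clS
    congr 1
    funext j
    rw [Subsingleton.elim j 0]
  exact h2 h1

/-- a relation on one surface -/
theorem ratEq_one (j : Fin l) (x : ∀ j, (Z j).Pt) {z : PtM 0 (fun _ : Fin 1 => Z j) →₀ ℚ}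
    (hz : z ∈ ratEq (e0 k) fun _ : Fin 1 => Z j) :
    Finsupp.mapDomain (fun q : PtM 0 (fun _ : Fin 1 => Z j) =>
      ((p0 k, Function.update x j (q.2 0)) : PtM 0 Z)) z ∈ ratEq (e0 k) Z := by
  have hle : ratEq (e0 k) (fun _ : Fin 1 => Z j) ≤
      (ratEq (e0 k) Z).comap (Finsupp.lmapDomain ℚ ℚ fun q : PtM 0 (fun _ : Fin 1 => Z j) =>
        ((p0 k, Function.update x j (q.2 0)) : PtM 0 Z)) := by
    refine sup_le (Submodule.span_le.2 ?_) (Submodule.span_le.2 ?_)
    · rintro _ ⟨n, P, Q, c, c', v, v', q, q', hP, hg, hv, hv', hq, hq', rfl⟩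
      change Finsupp.lmapDomain ℚ ℚ _ _ ∈ ratEq (e0 k) Z
      rw [map_sum]
      refine Submodule.mem_sup_left (Submodule.subset_span ⟨n, P,
        fun a => Function.update (fun i => (x i).map (Algebra.ofId k (Om k)) (Z i).hom) j (Q a 0),
        c, c', v, v', fun a => (p0 k, Function.update x j ((q a).2 0)),
        fun a => (p0 k, Function.update x j ((q' a).2 0)), fun _ i => i.elim0, fun g => ?_, hv,
        hv', fun a => ?_, fun a => ?_, ?_⟩)
      · obtain ⟨e, he⟩ := hg g
        refine ⟨e, fun a => ⟨fun i => i.elim0, fun i => ?_⟩⟩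
        by_cases hi : i = j
        · subst hi
          simp only [Function.update_self]
          exact (he a).2 0
        · simp only [Function.update_of_ne hi]
          exact isConj_const g _
      · refine ⟨fun i => i.elim0, fun i => i.elim0, fun i => ?_⟩
        by_cases hi : i = j
        · subst hi
          simp only [Function.update_self]
          exact (hq a).2.2 0
        · simp only [Function.update_of_ne hi]
          exact GT.isVal_const
      · refine ⟨fun i => i.elim0, fun i => i.elim0, fun i => ?_⟩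
        by_cases hi : i = j
        · subst hi
          simp only [Function.update_self]
          exact (hq' a).2.2 0
        · simp only [Function.update_of_ne hi]
          exact GT.isVal_const
      · refine Finset.sum_congr rfl fun a _ => ?_
        rw [map_sub, Finsupp.lmapDomain_apply, Finsupp.lmapDomain_apply,
          Finsupp.mapDomain_single, Finsupp.mapDomain_single]
    · rintro _ ⟨q, q', -, -, h2, rfl⟩
      change Finsupp.lmapDomain ℚ ℚ _ _ ∈ ratEq (e0 k) Z
      rw [map_sub, Finsupp.lmapDomain_apply, Finsupp.lmapDomain_apply, Finsupp.mapDomain_single,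
        Finsupp.mapDomain_single, h2, sub_self]
      exact zero_mem _
  exact hle hz

/-- the class of the image of a cycle -/
theorem mk_mapDomain {m : ℕ} {X : Fin m → WC k} {T : Type*} (g : T → PtM m Z) (w : T →₀ ℚ) :
    (Submodule.Quotient.mk (Finsupp.mapDomain g w) : V X Z) = w.sum fun t a => a • cl X Z (g t) := by
  rw [mk_eq_sum]
  exact Finsupp.sum_mapDomain_index (h := fun p c => c • cl X Z p) (fun t => zero_smul ℚ _)
    (fun t a b => add_smul a b _)

variable (Z) in
theorem exists_mulT : ∃ E : MultilinearMap ℚ (fun j => V1 (Z j)) (VT Z),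
    ∀ z : ∀ j, (Z j).Pt, E (fun j => clS (Z j) (z j)) = clT Z z := by
  obtain ⟨E, hE⟩ := exists_mul (fun j => mkS (Z j)) (fun j => mkS_surj (Z j)) (clT Z)
    (fun j x w hw => by
      -- the relation on the surface `Z j`
      have h1 : (Submodule.Quotient.mk (Finsupp.mapDomain (fun t : (Z j).Pt =>
          ((p0 k, fun _ => t) : PtM 0 (fun _ : Fin 1 => Z j))) w) : V1 (Z j)) = 0 := by
        rw [← hw, mkS, Finsupp.linearCombination_apply, mk_mapDomain]
        rfl
      rw [Submodule.Quotient.mk_eq_zero] at h1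
      have h2 := ratEq_one j x h1
      rw [← Finsupp.mapDomain_comp, ← Submodule.Quotient.mk_eq_zero, mk_mapDomain] at h2
      exact h2)
  refine ⟨E, fun z => ?_⟩
  rw [← hE z]
  congr 1
  funext j
  rw [mkS_single, one_smul]

variable (Z) in
/-- **The exterior product** of classes on the surfaces `Z j`. -/
def mulT : MultilinearMap ℚ (fun j => V1 (Z j)) (VT Z) := (exists_mulT Z).choose

theorem mulT_cl (z : ∀ j, (Z j).Pt) : mulT Z (fun j => clS (Z j) (z j)) = clT Z z :=
  (exists_mulT Z).choose_spec z

variable [IsAlgClosed k] [CharZero k]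

variable (Z) in
/-- comparison of classes on products -/
def brT : CHm (fun j => (Z j).X) →ₗ[ℚ] VT Z :=
  (MRat fun j => (Z j).X).liftQ ((ratEq (e0 k) Z).mkQ.comp
    (Finsupp.lmapDomain ℚ ℚ fun q => ((p0 k, q) : PtM 0 Z))) (fun z hz => by
      rw [LinearMap.mem_ker, LinearMap.comp_apply, Submodule.mkQ_apply,
        Submodule.Quotient.mk_eq_zero]
      exact mRat_times (fun i => i.elim0) hz)

theorem brT_single (q : ∀ j, (Z j).Pt) (a : ℚ) :
    brT Z (Submodule.Quotient.mk (Finsupp.single q a)) = a • clT Z q := by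
  unfold brT clT cl
  rw [Submodule.liftQ_apply, LinearMap.comp_apply, Finsupp.lmapDomain_apply,
    Finsupp.mapDomain_single, Submodule.mkQ_apply, ← Submodule.Quotient.mk_smul,
    Finsupp.smul_single, smul_eq_mul, mul_one]

/-- rational equivalence on one surface -/
theorem rat_unit (W : TS k) {z : (Unit → W.Pt) →₀ ℚ} (hz : z ∈ GT.Rat W.X Unit) :
    Finsupp.mapDomain (fun q : Unit → W.Pt => ((p0 k, fun _ => q ()) :
      PtM 0 (fun _ : Fin 1 => W))) z ∈ ratEq (e0 k) (fun _ : Fin 1 => W) := by
  have hle : GT.Rat W.X Unit ≤ (MRat fun _ : Fin 1 => W.X).comap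
      (Finsupp.lmapDomain ℚ ℚ fun (q : Unit → W.Pt) (_ : Fin 1) => q ()) := by
    refine Submodule.span_le.2 ?_
    rintro _ ⟨K, i1, i2, hK, x, y, f, D, hf, hD, hval, rfl⟩
    change Finsupp.lmapDomain ℚ ℚ _ _ ∈ MRat fun _ : Fin 1 => W.X
    refine Submodule.subset_span ⟨K, i1, i2, hK, fun _ => x (), fun v _ => y v (), f, D, hf, hD,
      fun v _ => hval v (), ?_⟩
    rw [map_finsuppSum]
    refine Finsupp.sum_congr fun v _ => ?_
    rw [Finsupp.lmapDomain_apply, Finsupp.mapDomain_single]
  have h1 := mRat_times (X := e0 k) (Z := fun _ : Fin 1 => W) (p := p0 k) (fun i => i.elim0)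
    (hle hz)
  rw [Finsupp.lmapDomain_apply, ← Finsupp.mapDomain_comp] at h1
  exact h1

/-- comparison of classes on a surface -/
def brS (W : TS k) : GT.CH W.X Unit →ₗ[ℚ] V1 W :=
  (GT.Rat W.X Unit).liftQ ((ratEq (e0 k) fun _ : Fin 1 => W).mkQ.comp
    (Finsupp.lmapDomain ℚ ℚ fun q : Unit → W.Pt => ((p0 k, fun _ => q ()) :
      PtM 0 (fun _ : Fin 1 => W)))) (fun z hz => by
      rw [LinearMap.mem_ker, LinearMap.comp_apply, Submodule.mkQ_apply,
        Submodule.Quotient.mk_eq_zero]
      exact rat_unit W hz)

theorem brS_cl1 (W : TS k) (z : W.Pt →₀ ℚ) : brS W (GT.cl1 W.X z) = mkS W z := by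
  induction z using Finsupp.induction_linear with
  | zero => rw [map_zero, map_zero, map_zero]
  | add u v hu hv => rw [map_add, map_add, map_add, hu, hv]
  | single w a =>
    have h1 : GT.cl1 W.X (Finsupp.single w a) =
        Submodule.Quotient.mk (Finsupp.single (fun _ => w) a) := by
      change Submodule.Quotient.mk (Finsupp.mapDomain (fun x _ => x) (Finsupp.single w a)) = _
      rw [Finsupp.mapDomain_single]
    rw [h1, mkS_single]
    unfold brS clS clT cl
    rw [Submodule.liftQ_apply, LinearMap.comp_apply, Finsupp.lmapDomain_apply,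
      Finsupp.mapDomain_single, Submodule.mkQ_apply, ← Submodule.Quotient.mk_smul,
      Finsupp.smul_single, smul_eq_mul, mul_one]

/-- **The comparison respects the exterior products.** -/
theorem mulT_brS (w : ∀ j, GT.CH (Z j).X Unit) :
    mulT Z (fun j => brS (Z j) (w j)) = brT Z (Extm (fun j => (Z j).hom) w) := by
  choose z hz using fun j => cl1_surj (Z j).X (w j)
  have h1 : w = fun j => GT.cl1 (Z j).X (z j) := funext fun j => (hz j).symm
  rw [h1, Extm_cl]
  have h2 : (fun j => brS (Z j) (GT.cl1 (Z j).X (z j))) =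
      fun j => ∑ t ∈ (z j).support, z j t • clS (Z j) t := by
    funext j
    rw [brS_cl1, mkS, Finsupp.linearCombination_apply, Finsupp.sum]
  rw [h2, MultilinearMap.map_sum_finset]
  unfold extm
  rw [← Submodule.mkQ_apply, map_sum, map_sum]
  refine Finset.sum_congr rfl fun x _ => ?_
  rw [Submodule.mkQ_apply, brT_single, ← mulT_cl]
  exact (mulT Z).map_smul_univ (fun j => z j (x j)) fun j => clS (Z j) (x j)

/-- the limit homomorphism of the surface `W` at the place `v`, with values in the classes -/
def hh (W : TS k) (v : Place k (Om k)) : (GT.Ec (inOm W.a) (inOm W.b)).Point →+ V1 W :=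
  (brS W).toAddMonoidHom.comp (GT.hV W.isFib.hom W.isFib.ok v)

theorem hh_apply (W : TS k) (v : Place k (Om k)) (P : (GT.Ec (inOm W.a) (inOm W.b)).Point) :
    hh W v P = brS W (GT.hV W.isFib.hom W.isFib.ok v P) := rfl

end Pool.Agent.QTF
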