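import Pool.Agent.QTF.MExt

/-!
# The product of projective varieties as a projective variety (Segre)

`sEq X` are the equations of the product of the varieties `X j` in the projective space whose
coordinates have the numbers `I = (I_0, ..., I_(n - 1))`. `pr hX j` is the projection of the points
of the product to `X j`: the coordinates `w_(I with I_j = a)`, for some `I` with `w_I ≠ 0`.
-/

set_option autoImplicit false

noncomputable section

namespace Pool.Agent.QTF

open Pool.Agent.ZCyc Pool.Agent.Dess Pool.Agent.GT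
open Pool.Agent.VFP (Om tt)
open scoped Classical LinearAlgebra.Projectivization

variable {k : Type} [Field k] {n : ℕ} {m : Fin n → ℕ}

/-- the numbers of the coordinates -/
abbrev SI (m : Fin n → ℕ) : Type := ∀ j, Fin (m j + 1)

/-- the dimension of the projective space -/
def sN (m : Fin n → ℕ) : ℕ := Fintype.card (SI m) - 1

theorem card_SI (m : Fin n → ℕ) : Fintype.card (SI m) = sN m + 1 := by
  have h : 0 < Fintype.card (SI m) := Fintype.card_pos_iff.2 ⟨fun _ => 0⟩
  unfold sN
  omega

/-- a numbering -/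
def sE (m : Fin n → ℕ) : Fin (sN m + 1) ≃ SI m := (Fintype.equivFinOfCardEq (card_SI m)).symm

/-- the equations of the product -/
def sEq (X : ∀ j, Set (MvPolynomial (Fin (m j + 1)) k)) :
    Set (MvPolynomial (Fin (sN m + 1)) k) :=
  {F | (∃ (j : Fin n) (I J : SI m) (a b : Fin (m j + 1)), F =
      MvPolynomial.X ((sE m).symm (Function.update I j a)) *
          MvPolynomial.X ((sE m).symm (Function.update J j b)) -
        MvPolynomial.X ((sE m).symm (Function.update I j b)) *
          MvPolynomial.X ((sE m).symm (Function.update J j a))) ∨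
    ∃ (j : Fin n) (I : SI m), ∃ f ∈ X j,
      F = MvPolynomial.rename (fun a => (sE m).symm (Function.update I j a)) f}

variable {X : ∀ j, Set (MvPolynomial (Fin (m j + 1)) k)}

theorem hom_sEq (hX : ∀ j, Hom (X j)) : Hom (sEq X) := by
  rintro F (⟨j, I, J, a, b, rfl⟩ | ⟨j, I, f, hf, rfl⟩)
  · exact ⟨2, ((MvPolynomial.isHomogeneous_X k _).mul (MvPolynomial.isHomogeneous_X k _)).sub
      ((MvPolynomial.isHomogeneous_X k _).mul (MvPolynomial.isHomogeneous_X k _))⟩
  · obtain ⟨d, hd⟩ := hX j f hf
    exact ⟨d, hd.rename_isHomogeneous⟩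

section pr

variable {K : Type} [Field K] [Algebra k K]

/-- the coordinate with the number `I` -/
def cd (w : Pt (sEq X) K) (I : SI m) : K := w.1.rep ((sE m).symm I)

theorem cd_seg (w : Pt (sEq X) K) (j : Fin n) (I J : SI m) (a b : Fin (m j + 1)) :
    cd w (Function.update I j a) * cd w (Function.update J j b) =
      cd w (Function.update I j b) * cd w (Function.update J j a) := by
  have h := w.2 _ (Or.inl ⟨j, I, J, a, b, rfl⟩)
  rw [map_sub, map_mul, map_mul, MvPolynomial.aeval_X, MvPolynomial.aeval_X,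
    MvPolynomial.aeval_X, MvPolynomial.aeval_X] at h
  exact sub_eq_zero.1 h

theorem cd_eqn (w : Pt (sEq X) K) (j : Fin n) (I : SI m) {f : MvPolynomial (Fin (m j + 1)) k}
    (hf : f ∈ X j) : MvPolynomial.aeval (fun a => cd w (Function.update I j a)) f = 0 := by
  have h := w.2 _ (Or.inr ⟨j, I, f, hf, rfl⟩)
  rw [MvPolynomial.aeval_rename] at h
  exact h

theorem exists_cd (w : Pt (sEq X) K) : ∃ I, cd w I ≠ 0 := by
  by_contra h
  push Not at h
  apply w.1.rep_nonzero
  funext i
  have h1 := h (sE m i)
  unfold cd at h1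
  rw [Equiv.symm_apply_apply] at h1
  exact h1

/-- a number with a nonzero coordinate -/
def i0 (w : Pt (sEq X) K) : SI m := (exists_cd w).choose

theorem cd_i0 (w : Pt (sEq X) K) : cd w (i0 w) ≠ 0 := (exists_cd w).choose_spec

theorem slice_ne (w : Pt (sEq X) K) (j : Fin n) {I : SI m} (h : cd w I ≠ 0) :
    (fun a => cd w (Function.update I j a)) ≠ 0 := by
  intro h0
  apply h
  have h1 := congrFun h0 (I j)
  simpa using h1

/-- the projection to the factor `j` -/
def pr (hX : ∀ j, Hom (X j)) (j : Fin n) (w : Pt (sEq X) K) : Pt (X j) K :=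
  mkPt (hX j) (fun a => cd w (Function.update (i0 w) j a)) (slice_ne w j (cd_i0 w))
    fun _ hf => cd_eqn w j (i0 w) hf

/-- the projection in other coordinates -/
theorem pr_eq (hX : ∀ j, Hom (X j)) (j : Fin n) (w : Pt (sEq X) K) {I : SI m}
    (h : cd w I ≠ 0) : (pr hX j w).1 =
      Projectivization.mk K (fun a => cd w (Function.update I j a)) (slice_ne w j h) := by
  refine (Projectivization.mk_eq_mk_iff' K _ _ (slice_ne w j (cd_i0 w)) _).2
    ⟨cd w (Function.update (i0 w) j (I j)) / cd w I, ?_⟩
  funext a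
  have h1 := cd_seg w j (i0 w) I (I j) a
  rw [Function.update_eq_self] at h1
  change cd w (Function.update (i0 w) j (I j)) / cd w I * cd w (Function.update I j a) =
    cd w (Function.update (i0 w) j a)
  rw [div_mul_eq_mul_div, div_eq_iff h]
  exact h1

/-- the projection of a point given by products of coordinates -/
theorem pr_mk (hX : ∀ j, Hom (X j)) (j : Fin n) (w : Pt (sEq X) K)
    {a : Fin (sN m + 1) → K} (ha : a ≠ 0) (hw : w.1 = Projectivization.mk K a ha)
    {c : ∀ l, Fin (m l + 1) → K} (hc : ∀ i, a i = ∏ l, c l (sE m i l)) (p : Pt (X j) K)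
    (hcj : c j ≠ 0) (hp : p.1 = Projectivization.mk K (c j) hcj) : pr hX j w = p := by
  obtain ⟨u, hu⟩ := Projectivization.exists_smul_eq_mk_rep K a ha
  have hcd : ∀ I, cd w I = u * ∏ l, c l (I l) := by
    intro I
    unfold cd
    rw [hw, ← hu]
    change (u : K) * a ((sE m).symm I) = _
    rw [hc, Equiv.apply_symm_apply]
  have h1 := cd_i0 w
  apply Subtype.ext
  rw [pr_eq hX j w h1, hp]
  refine (Projectivization.mk_eq_mk_iff' K _ _ _ hcj).2
    ⟨u * ∏ l ∈ Finset.univ.erase j, c l (i0 w l), ?_⟩
  funext b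
  change (u * ∏ l ∈ Finset.univ.erase j, c l (i0 w l)) * c j b =
    cd w (Function.update (i0 w) j b)
  rw [hcd, ← Finset.mul_prod_erase Finset.univ _ (Finset.mem_univ j), Function.update_self]
  have h2 : ∏ l ∈ Finset.univ.erase j, c l (Function.update (i0 w) j b l) =
      ∏ l ∈ Finset.univ.erase j, c l (i0 w l) := by
    refine Finset.prod_congr rfl fun l hl => ?_
    rw [Function.update_of_ne (Finset.ne_of_mem_erase hl)]
  rw [h2]
  ring

end pr

/-- the projections respect values -/
theorem isVal_pr {K : Type} [Field K] [Algebra k K] (hX : ∀ j, Hom (X j)) (j : Fin n)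
    {v : Place k K} {w : Pt (sEq X) K} {w₀ : Pt (sEq X) k} (h : IsVal v w w₀) :
    IsVal v (pr hX j w) (pr hX j w₀) := by
  obtain ⟨l, hl⟩ := h
  have h0 := cd_i0 w₀
  have h1 : cd w (i0 w₀) ≠ 0 := by
    intro h2
    apply h0
    have h3 := hl ((sE m).symm (i0 w₀))
    change v.At (l * cd w (i0 w₀)) (cd w₀ (i0 w₀)) at h3
    rw [h2, mul_zero] at h3
    have h4 := Place.at_const (v := v) (0 : k)
    rw [map_zero] at h4
    exact Place.At.unique h3 h4
  refine (isVal_iff (slice_ne w j h1) (slice_ne w₀ j h0) (pr_eq hX j w h1)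
    (pr_eq hX j w₀ h0)).2 ⟨l, fun a => ?_⟩
  exact hl ((sE m).symm (Function.update (i0 w₀) j a))

end Pool.Agent.QTF
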