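import Pool.Agent.QTF.Defs

/-!
# The statement
-/

set_option autoImplicit false

noncomputable section

namespace Pool.Agent.QTF

/-- The statement of the result: there is a filtration with the properties of a Bloch-Beilinson
filtration, and it is the only one with the properties `Conds`. -/
def Stmt (k : Type) [Field k] : Prop :=
  ∃ Φ : Filtration k, IsBB Φ ∧ ∀ Ψ : Filtration k, Conds Ψ → Ψ = Φ

end Pool.Agent.QTF
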