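import Pool.Agent.QTF.PushM
import Pool.Agent.QTF.Supp
import Pool.Agent.QTF.MulT
import Pool.Agent.KEx.Top
import Pool.Agent.GT.IsoT

/-!
# The push-forward by the rational maps between the surfaces

`pushS u` is the push-forward of the classes of zero-cycles by the rational map `u`.
`pushS_hh_div`: the classes `hh v P` are multiplied by `p / q`. `clS_sub_mem`: the differences of
the classes of two points are combinations of these classes.
-/

set_option autoImplicit false

noncomputable section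

namespace Pool.Agent.QTF

open Pool.Agent.ZCyc Pool.Agent.WFC
open Pool.Agent.VFP (Om tt)
open scoped Classical

variable {k : Type} [Field k] [IsAlgClosed k] [CharZero k]

/-- the degree of a zero-cycle on a surface -/
def degS (W : TS k) : V1 W →ₗ[ℚ] ℚ :=
  (ratEq (e0 k) fun _ : Fin 1 => W).liftQ
    (Finsupp.linearCombination ℚ fun _ : PtM 0 (fun _ : Fin 1 => W) => (1 : ℚ)) (fun z hz => by
      rw [LinearMap.mem_ker, Finsupp.linearCombination_apply]
      simpa using (ratEq_supp hz).2)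

theorem degS_clS (W : TS k) (w : W.Pt) : degS W (clS W w) = 1 := by
  unfold degS clS clT cl
  rw [Submodule.liftQ_apply, Finsupp.linearCombination_single, one_smul]

/-- the push-forward of classes by a rational map -/
def pushS {Z W : TS k} (u : TMap Z W) : V1 Z →ₗ[ℚ] V1 W :=
  pushV (X := e0 k) (Y := e0 k) (Z := fun _ : Fin 1 => Z) (W := fun _ : Fin 1 => W)
    ((fun j => j.elim0 : Mor (e0 k) (e0 k)), fun _ => CompT.fac 0 u)

theorem pushS_clS {Z W : TS k} (u : TMap Z W) (z : Z.Pt) :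
    pushS u (clS Z z) = clS W (u.u z) := by
  unfold pushS clS clT
  rw [pushV_cl, clT_eq]
  rfl

omit [CharZero k] in
/-- the value of a limit -/
theorem br_lmp {W : TS k} (br : GT.CH W.X Unit →ₗ[ℚ] V1 W)
    (hbr : ∀ w : W.Pt, br (GT.cl1 W.X (Finsupp.single w 1)) = clS W w) {α B : Om k}
    (hM : W.M.Ok α B W.X) (v : Place k (Om k)) {P : (GT.Ec α B).Point} (hP : W.M.Ns P) :
    br (GT.lmp W.hom hM v P) = clS W (GT.pv W.hom v (GT.phi W.hom hM P hP)) := by
  have h1 : GT.cyc W.hom hM P = Finsupp.single (GT.phi W.hom hM P hP) 1 := dif_pos hP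
  unfold GT.lmp
  rw [h1, ← hbr]
  congr 1
  change GT.lim W.hom v (Finsupp.mapDomain (fun x _ => x) (Finsupp.single _ 1)) =
    Submodule.Quotient.mk (Finsupp.mapDomain (fun x _ => x) (Finsupp.single _ 1))
  rw [Finsupp.mapDomain_single, Finsupp.mapDomain_single, GT.lim_single]

/-- the differences of the classes of two points -/
theorem diff_mem {W : TS k} (br : GT.CH W.X Unit →ₗ[ℚ] V1 W)
    (hbr : ∀ w : W.Pt, br (GT.cl1 W.X (Finsupp.single w 1)) = clS W w) (w w' : W.Pt) :
    clS W w - clS W w' ∈ Submodule.span ℚ {c | ∃ (v : Place k (Om k))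
      (P : (GT.Ec (inOm W.a) (inOm W.b)).Point), c = br (GT.hV W.isFib.hom W.isFib.ok v P)} := by
  obtain ⟨c₀, hc₀⟩ := KEx.fib_top W.isFib
  have hdeg : ∀ c ∈ Submodule.span ℚ (QRT.HVs W.isFib.hom W.isFib.ok), degS W (br c) = 0 := by
    intro c hc
    have h1 : Submodule.span ℚ (QRT.HVs W.isFib.hom W.isFib.ok) ≤
        LinearMap.ker ((degS W).comp br) := by
      rw [Submodule.span_le]
      rintro _ ⟨v, P, rfl⟩
      have hinf := GT.infinite_points W.isFib.ok.disc
      obtain ⟨Q, hQ⟩ := ((GT.finite_bad (α := inOm W.a) (B := inOm W.b) W.isFib.ok.ne).union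
        ((GT.finite_bad (α := inOm W.a) (B := inOm W.b) W.isFib.ok.ne).preimage
          (f := fun Q => P + Q) (add_right_injective P).injOn)).exists_notMem
      have h1 : W.M.Ns Q := by
        by_contra hc
        exact hQ (Or.inl hc)
      have h2 : W.M.Ns (P + Q) := by
        by_contra hc
        exact hQ (Or.inr hc)
      rw [SetLike.mem_coe, LinearMap.mem_ker, LinearMap.comp_apply,
        ← GT.hV_spec W.isFib.hom W.isFib.ok v h1 h2, map_sub, map_sub,
        br_lmp br hbr W.isFib.ok v h1, br_lmp br hbr W.isFib.ok v h2, degS_clS, degS_clS,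
        sub_self]
    exact h1 hc
  have key : ∀ w : W.Pt, ∃ s ∈ Submodule.span ℚ (QRT.HVs W.isFib.hom W.isFib.ok), ∃ a : ℚ,
      clS W w = br s + a • br c₀ ∧ a * degS W (br c₀) = 1 := by
    intro w
    have h1 : GT.cl1 W.X (Finsupp.single w 1) ∈
        Submodule.span ℚ (QRT.HVs W.isFib.hom W.isFib.ok) ⊔ Submodule.span ℚ {c₀} := by
      rw [hc₀]
      trivial
    obtain ⟨s, hs, t, ht, hst⟩ := Submodule.mem_sup.1 h1
    obtain ⟨a, rfl⟩ := Submodule.mem_span_singleton.1 ht
    refine ⟨s, hs, a, ?_, ?_⟩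
    · rw [← hbr, ← hst, map_add, map_smul]
    · have h2 := degS_clS W w
      rw [← hbr, ← hst, map_add, map_smul, map_add, map_smul, hdeg s hs, zero_add,
        smul_eq_mul] at h2
      exact h2
  obtain ⟨s, hs, a, h1, h2⟩ := key w
  obtain ⟨s', hs', a', h1', h2'⟩ := key w'
  have h3 : degS W (br c₀) ≠ 0 := right_ne_zero_of_mul_eq_one h2
  have h4 : a = a' := mul_right_cancel₀ h3 (h2.trans h2'.symm)
  have h5 : clS W w - clS W w' = br (s - s') := by
    rw [h1, h1', h4, map_sub]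
    abel
  rw [h5]
  have h6 : Submodule.map br (Submodule.span ℚ (QRT.HVs W.isFib.hom W.isFib.ok)) ≤
      Submodule.span ℚ {c | ∃ (v : Place k (Om k))
        (P : (GT.Ec (inOm W.a) (inOm W.b)).Point),
          c = br (GT.hV W.isFib.hom W.isFib.ok v P)} := by
    rw [Submodule.map_span]
    refine Submodule.span_mono ?_
    rintro _ ⟨_, ⟨v, P, rfl⟩, rfl⟩
    exact ⟨v, P, rfl⟩
  exact h6 (Submodule.mem_map_of_mem (Submodule.sub_mem _ hs hs'))

/-- `brS` of a point -/
theorem brS_cl1_single (W : TS k) (w : W.Pt) :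
    brS W (GT.cl1 W.X (Finsupp.single w 1)) = clS W w := by
  rw [brS_cl1, mkS_single, one_smul]

omit [IsAlgClosed k] [CharZero k] in
private theorem TM_rep {K : Type} [Field K] [Algebra k K] {m : ℕ}
    {X : Set (MvPolynomial (Fin (m + 1)) k)} (hX : GT.Hom X) {a : Fin (m + 1) → K} (ha : a ≠ 0)
    (h : ∀ f ∈ X, MvPolynomial.aeval a f = 0) :
    ∃ c : K, ∀ i, (GT.mkPt hX a ha h).1.rep i = c * a i := by
  obtain ⟨c, hc⟩ := Projectivization.exists_smul_eq_mk_rep K a ha
  refine ⟨c, fun i => ?_⟩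
  change (Projectivization.mk K a ha).rep i = c * a i
  rw [← hc]
  rfl

omit [IsAlgClosed k] [CharZero k] in
private theorem TM_eq {K : Type} [Field K] [Algebra k K] {m : ℕ}
    {X : Set (MvPolynomial (Fin (m + 1)) k)} (hX : GT.Hom X) {a : Fin (m + 1) → K} (ha : a ≠ 0)
    (h : ∀ f ∈ X, MvPolynomial.aeval a f = 0) (R : GT.Pt X K)
    (hR : ∃ c : K, ∀ i, R.1.rep i = c * a i) : R = GT.mkPt hX a ha h := by
  obtain ⟨c, hc⟩ := hR
  apply Subtype.ext
  change R.1 = Projectivization.mk K a ha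
  rw [← Projectivization.mk_rep R.1, Projectivization.mk_eq_mk_iff']
  exact ⟨c, funext fun i => (hc i).symm⟩

omit [IsAlgClosed k] [CharZero k] in
/-- the map of the surface `W`, as a map from the curve of `Z` -/
theorem okW {Z W : TS k} (u : TMap Z W) : W.M.Ok (inOm Z.a) (inOm Z.b) W.X := by
  rw [u.same.1, u.same.2.1]
  exact ⟨W.cond.disc, W.cond.ne, W.cond.onX⟩

variable {Z W : TS k} (u : TMap Z W)

omit [IsAlgClosed k] [CharZero k] in
/-- the value of the map at a good point -/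
private theorem TM_U {A P : (GT.Ec (inOm Z.a) (inOm Z.b)).Point}
    (hP : ∀ (x y x' y' : Om k) (h : (Ec Z.a Z.b).Nonsingular x y)
      (h' : (Ec Z.a Z.b).Nonsingular x' y'),
      u.q • P = .some x y h → u.p • P + A = .some x' y' h' → ∀ R : Z.PtO,
        (∃ c : Om k, ∀ i, R.1.rep i = c * co Z.G Z.H x y i) → co W.G W.H x' y' ≠ 0 →
          ∃ c : Om k, ∀ i, (u.U R).1.rep i = c * co W.G W.H x' y' i)
    (h1 : Z.M.Ns (u.q • P)) (h2 : W.M.Ns (u.p • P + A)) :
    u.U (GT.phi Z.isFib.hom Z.isFib.ok (u.q • P) h1) =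
      GT.phi W.isFib.hom (okW u) (u.p • P + A) h2 := by
  generalize hQ : u.q • P = Q at h1
  generalize hQ' : u.p • P + A = Q' at h2
  cases Q with
  | zero => exact h1.elim
  | some x y h =>
    cases Q' with
    | zero => exact h2.elim
    | some x' y' h' =>
      refine TM_eq W.isFib.hom h2 (fun f hf => W.isFib.ok.onX f hf x' y' ?_) _
        (hP x y x' y' h h' hQ hQ' _ (TM_rep Z.isFib.hom h1
          fun f hf => Z.isFib.ok.onX f hf x y (GT.eqn_iff.1 h.1)) h2)
      rw [← u.same.1, ← u.same.2.1]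
      exact GT.eqn_iff.1 h'.1

/-- the limits of the value of the map at a good point -/
private theorem TM_lmp {A P : (GT.Ec (inOm Z.a) (inOm Z.b)).Point}
    (hP : ∀ (x y x' y' : Om k) (h : (Ec Z.a Z.b).Nonsingular x y)
      (h' : (Ec Z.a Z.b).Nonsingular x' y'),
      u.q • P = .some x y h → u.p • P + A = .some x' y' h' → ∀ R : Z.PtO,
        (∃ c : Om k, ∀ i, R.1.rep i = c * co Z.G Z.H x y i) → co W.G W.H x' y' ≠ 0 →
          ∃ c : Om k, ∀ i, (u.U R).1.rep i = c * co W.G W.H x' y' i)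
    (h1 : Z.M.Ns (u.q • P)) (h2 : W.M.Ns (u.p • P + A)) (v : Place k (Om k)) :
    pushS u (brS Z (GT.lmp Z.isFib.hom Z.isFib.ok v (u.q • P))) =
      brS W (GT.lmp W.isFib.hom (okW u) v (u.p • P + A)) := by
  rw [br_lmp (brS Z) (brS_cl1_single Z) Z.isFib.ok v h1,
    br_lmp (brS W) (brS_cl1_single W) (okW u) v h2, pushS_clS]
  refine equivalent_iff.1 (u.val v _ _ _ (GT.pv_spec _ v _) ?_)
  rw [TM_U u hP h1 h2]
  exact GT.pv_spec _ v _

/-- **The limit homomorphisms and the push-forward.** -/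
theorem pushS_hV (hpos : 0 < u.q ∧ u.p ≠ 0) (v : Place k (Om k))
    (P : (GT.Ec (inOm Z.a) (inOm Z.b)).Point) :
    pushS u (brS Z (GT.hV Z.isFib.hom Z.isFib.ok v (u.q • P))) =
      brS W (GT.hV W.isFib.hom (okW u) v (u.p • P)) := by
  obtain ⟨A, s, hs, hgen⟩ := u.gen
  by_cases htor : ∀ T : (GT.Ec (inOm Z.a) (inOm Z.b)).Point, ∃ n : ℕ, 0 < n ∧ n • T = 0
  · -- all points are torsion points
    obtain ⟨n, hn, h1⟩ := htor P
    have hn' : (n : ℚ) ≠ 0 := by exact_mod_cast hn.ne'
    have key : ∀ {V : Type 1} [AddCommGroup V] [Module ℚ V] (x : V), n • x = 0 → x = 0 := by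
      intro V _ _ x hx
      rw [← Nat.cast_smul_eq_nsmul ℚ] at hx
      exact (smul_eq_zero.1 hx).resolve_left hn'
    rw [key (pushS u (brS Z (GT.hV Z.isFib.hom Z.isFib.ok v (u.q • P)))) ?_,
      key (brS W (GT.hV W.isFib.hom (okW u) v (u.p • P))) ?_]
    · rw [← map_nsmul, ← map_nsmul, smul_comm, h1, zsmul_zero, map_zero, map_zero]
    · rw [← map_nsmul, ← map_nsmul, ← map_nsmul, smul_comm, h1, nsmul_zero, map_zero, map_zero,
        map_zero]
  push Not at htor
  obtain ⟨T, hT⟩ := htor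
  have hTinj : ∀ (c : ℤ), c ≠ 0 → Function.Injective fun i : ℕ => c • (i • T) := by
    intro c hc i j hij
    by_contra hne
    have h1 : (c * ((i : ℤ) - j)) • T = 0 := by
      have h2 : (c * (i : ℤ)) • T = (c * (j : ℤ)) • T := by
        rw [mul_smul, mul_smul, natCast_zsmul, natCast_zsmul]
        exact hij
      rw [mul_sub, sub_smul, h2, sub_self]
    have h3 : c * ((i : ℤ) - j) ≠ 0 := by
      refine mul_ne_zero hc ?_
      intro h
      apply hne
      exact_mod_cast sub_eq_zero.1 h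
    refine hT (c * ((i : ℤ) - j)).natAbs (Int.natAbs_pos.2 h3) ?_
    rcases Int.natAbs_eq (c * ((i : ℤ) - j)) with h | h
    · rw [h, natCast_zsmul] at h1
      exact h1
    · rw [h, neg_smul, natCast_zsmul, neg_eq_zero] at h1
      exact h1
  have hbad : ∀ (c : ℤ), c ≠ 0 → ∀ (A : (GT.Ec (inOm Z.a) (inOm Z.b)).Point)
      (F : Set (GT.Ec (inOm Z.a) (inOm Z.b)).Point), F.Finite →
      {i : ℕ | c • (i • T) + A ∈ F}.Finite := by
    intro c hc A F hF
    refine hF.preimage (f := fun i : ℕ => c • (i • T) + A) ?_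
    exact ((add_left_injective A).comp (hTinj c hc)).injOn
  have hZ : {P : (GT.Ec (inOm Z.a) (inOm Z.b)).Point | ¬ Z.M.Ns P}.Finite :=
    GT.finite_bad Z.isFib.ok.ne
  have hW : {P : (GT.Ec (inOm Z.a) (inOm Z.b)).Point | ¬ W.M.Ns P}.Finite :=
    GT.finite_bad W.isFib.ok.ne
  have hq : (u.q : ℤ) ≠ 0 := by exact_mod_cast hpos.1.ne'
  obtain ⟨i, hi⟩ := (((((hbad 1 one_ne_zero 0 s hs).union (hbad 1 one_ne_zero P s hs)).union
    (hbad u.q hq 0 _ hZ)).union (hbad u.q hq (u.q • P) _ hZ)).union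
    ((hbad u.p hpos.2 A _ hW).union (hbad u.p hpos.2 (u.p • P + A) _ hW))).exists_notMem
  simp only [Set.mem_union, Set.mem_ofPred_eq, not_or, not_not, one_smul, add_zero,
    natCast_zsmul] at hi
  obtain ⟨⟨⟨⟨h1, h2⟩, h3⟩, h4⟩, h5, h6⟩ := hi
  set Q := i • T with hQ
  rw [← nsmul_add, add_comm] at h4
  rw [← add_assoc, ← zsmul_add, add_comm Q P] at h6
  rw [add_comm] at h2
  have e1 := TM_lmp u (hgen Q h1) h3 h5 v
  have e2 := TM_lmp u (hgen (P + Q) h2) h4 h6 v
  have e3 := GT.hV_spec Z.isFib.hom Z.isFib.ok v (P := u.q • P) h3 (by rwa [← nsmul_add])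
  have e4 := GT.hV_spec W.isFib.hom (okW u) v (P := u.p • P) h5 (by
    rwa [← add_assoc, ← zsmul_add])
  rw [← e3, ← e4, ← nsmul_add, ← add_assoc, ← zsmul_add, map_sub, map_sub, map_sub, e1, e2]
omit [IsAlgClosed k] [CharZero k] in
/-- the coefficients of the curves are the same -/
theorem TMap.ha {Z W : TS k} (u : TMap Z W) : inOm Z.a = inOm W.a := congrArg inOm u.same.1

omit [IsAlgClosed k] [CharZero k] in
/-- the coefficients of the curves are the same -/
theorem TMap.hb {Z W : TS k} (u : TMap Z W) : inOm Z.b = inOm W.b := congrArg inOm u.same.2.1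

/-- **The classes of the limit homomorphisms and the push-forward.** -/
theorem pushS_hh (hpos : 0 < u.q ∧ u.p ≠ 0) (v : Place k (Om k))
    (P : (GT.Ec (inOm Z.a) (inOm Z.b)).Point) :
    pushS u (hh Z v (u.q • P)) = hh W v (u.p • GT.castE u.ha u.hb P) := by
  rw [hh_apply, pushS_hV u hpos, hh_apply, ← map_zsmul (GT.castE u.ha u.hb)]
  exact congrArg (brS W) (GT.hV_cast W.isFib.hom (okW u) W.isFib.ok u.ha u.hb rfl v _)

/-- the push-forward multiplies the classes of the limit homomorphisms by the degree in the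
direction of the fibres -/
theorem pushS_hh_div (hpos : 0 < u.q ∧ u.p ≠ 0) (v : Place k (Om k))
    (P : (GT.Ec (inOm Z.a) (inOm Z.b)).Point) :
    pushS u (hh Z v P) = ((u.p : ℚ) / u.q) • hh W v (GT.castE u.ha u.hb P) := by
  have h1 := pushS_hh u hpos v P
  have hq : (u.q : ℚ) ≠ 0 := by exact_mod_cast hpos.1.ne'
  rw [map_nsmul, map_nsmul, map_zsmul, ← Nat.cast_smul_eq_nsmul ℚ, ← Int.cast_smul_eq_zsmul ℚ]
    at h1
  rw [div_eq_inv_mul, mul_smul, ← h1, inv_smul_smul₀ hq]

omit [IsAlgClosed k] [CharZero k] in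
theorem castE_fam (P : ∀ a b : Polynomial k, (GT.Ec (inOm a) (inOm b)).Point)
    {a a' b b' : Polynomial k} (ha : a = a') (hb : b = b') (h : inOm a = inOm a')
    (h' : inOm b = inOm b') : GT.castE h h' (P a b) = P a' b' := by
  subst ha hb
  rfl

/-- the differences of the classes of two points are combinations of the classes of the limit
homomorphisms -/
theorem clS_sub_mem (w w' : W.Pt) : clS W w - clS W w' ∈ Submodule.span ℚ {c |
    ∃ (v : Place k (Om k)) (P : (GT.Ec (inOm W.a) (inOm W.b)).Point), c = hh W v P} :=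
  diff_mem (brS W) (brS_cl1_single W) w w'

end Pool.Agent.QTF
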