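import Pool.Agent.QTF.Defs
import Pool.Agent.GT.Val
import Pool.Agent.WFC.FPt
import Pool.Agent.BBU.Z0
import Pool.Agent.BBU.Abs

/-!
# Projectors in the algebra of the morphisms

For every factor of a product there is a finite set of orthogonal idempotents with the sum `1`,
which are combinations of a constant map and of fibrewise multiplications by `1`, `-1`, `0` in the
blocks, respectively of a constant map and the identity. We consider the products `ga κ` of such
idempotents.
-/

set_option autoImplicit false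

noncomputable section

namespace Pool.Agent.QTF

open Pool.Agent.ZCyc Pool.Agent.WFC Pool.Agent.BBU
open Pool.Agent.VFP (Om tt)
open scoped Classical

variable {k : Type} [Field k] {m l : ℕ}

/-! ### The monoids -/

/-- the continuation by `1` -/
def exS {r : ℕ} (ε : Fin r → SignType) (b : ℕ) : SignType := if h : b < r then ε ⟨b, h⟩ else 1

theorem exS_mul {r : ℕ} (ε ε' : Fin r → SignType) (b : ℕ) :
    exS (ε * ε') b = exS ε b * exS ε' b := by
  unfold exS
  by_cases h : b < r
  · rw [dif_pos h, dif_pos h, dif_pos h, Pi.mul_apply]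
  · rw [dif_neg h, dif_neg h, dif_neg h, one_mul]

theorem exS_one {r : ℕ} (b : ℕ) : exS (1 : Fin r → SignType) b = 1 := by
  unfold exS
  by_cases h : b < r
  · rw [dif_pos h, Pi.one_apply]
  · rw [dif_neg h]

theorem exS_fin {r : ℕ} (ε : Fin r → SignType) (b : Fin r) : exS ε b = ε b := by
  unfold exS
  rw [dif_pos b.2]

/-- the finite monoids -/
def NN (X : Fin m → WC k) (l : ℕ) : Fin m ⊕ Fin l → Type
  | .inl j => Fin (X j).r → SignType
  | .inr _ => Unit

instance (X : Fin m → WC k) (a : Fin m ⊕ Fin l) : Fintype (NN X l a) := match a with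
  | .inl j => inferInstanceAs (Fintype (Fin (X j).r → SignType))
  | .inr _ => inferInstanceAs (Fintype Unit)

instance (X : Fin m → WC k) (a : Fin m ⊕ Fin l) : Mul (NN X l a) := match a with
  | .inl j => inferInstanceAs (Mul (Fin (X j).r → SignType))
  | .inr _ => inferInstanceAs (Mul Unit)

instance (X : Fin m → WC k) (a : Fin m ⊕ Fin l) : One (NN X l a) := match a with
  | .inl j => inferInstanceAs (One (Fin (X j).r → SignType))
  | .inr _ => inferInstanceAs (One Unit)

/-- the labels -/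
def LL (X : Fin m → WC k) (l : ℕ) : Fin m ⊕ Fin l → Type
  | .inl j => Fin (X j).r → Fin 3
  | .inr _ => Unit

instance (X : Fin m → WC k) (a : Fin m ⊕ Fin l) : Fintype (LL X l a) := match a with
  | .inl j => inferInstanceAs (Fintype (Fin (X j).r → Fin 3))
  | .inr _ => inferInstanceAs (Fintype Unit)

/-- the coefficients -/
def qq (X : Fin m → WC k) (l : ℕ) : (a : Fin m ⊕ Fin l) → LL X l a → NN X l a → ℚ
  | .inl j => fun (lam : Fin (X j).r → Fin 3) (ε : Fin (X j).r → SignType) =>
      ∏ b, cfS (lam b) (ε b)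
  | .inr _ => fun _ _ => 1

theorem qq_conv (X : Fin m → WC k) (l : ℕ) : ∀ (a : Fin m ⊕ Fin l) (lam : LL X l a),
    Conv (qq X l a lam)
  | .inl j, (lam : Fin (X j).r → Fin 3) =>
      conv_prod (fun b => cfS (lam b)) fun b => cfS_conv (lam b)
  | .inr j, lam => by
      intro s
      have h1 : ∀ x y : NN X l (.inr j), x * y = s := fun x y =>
        Subsingleton.elim (α := Unit) _ _
      have h2 : ∀ x y : NN X l (.inr j), (if x * y = s then
          qq X l (.inr j) lam x * qq X l (.inr j) lam y else 0) = 1 := fun x y => by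
        rw [if_pos (h1 x y)]
        exact one_mul 1
      simp only [h2]
      change ∑ x : Unit, ∑ y : Unit, (1 : ℚ) = 1
      simp

theorem qq_sum (X : Fin m → WC k) (l : ℕ) : ∀ (a : Fin m ⊕ Fin l) (x : NN X l a),
    ∑ lam, qq X l a lam x = if x = 1 then 1 else 0
  | .inl j, (ε : Fin (X j).r → SignType) => by
      have h3 : ∑ lam, qq X l (.inl j) lam ε =
        ∑ lam : Fin (X j).r → Fin 3, ∏ b, cfS (lam b) (ε b) := rfl
      rw [h3]
      have h1 := Finset.prod_univ_sum (fun _ : Fin (X j).r => (Finset.univ : Finset (Fin 3)))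
        (fun b x => cfS x (ε b))
      rw [Fintype.piFinset_univ] at h1
      rw [← h1, Finset.prod_congr rfl fun b _ => cfS_sum (ε b)]
      split_ifs with h2
      · rw [h2]
        exact Finset.prod_eq_one fun b _ => if_pos rfl
      · obtain ⟨b, hb⟩ : ∃ b, ε b ≠ 1 := by
          by_contra hcon
          push Not at hcon
          exact h2 (funext hcon)
        exact Finset.prod_eq_zero (Finset.mem_univ b) (if_neg hb)
  | .inr j, x => by
      have h1 : x = 1 := Subsingleton.elim (α := Unit) _ _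
      rw [if_pos h1]
      change ∑ lam : Unit, (1 : ℚ) = 1
      simp

/-! ### The identity of a surface -/

/-- the identity -/
def idT (Z : TS k) : TMap Z Z where
  U := id
  u := id
  p := 1
  q := 1
  same := ⟨rfl, rfl, rfl⟩
  pos := ⟨Nat.one_pos, one_ne_zero⟩
  gen := by
    refine ⟨0, ∅, Set.finite_empty, fun P _ x y x' y' h h' h1 h2 R hR _ => ?_⟩
    rw [one_smul] at h1
    rw [one_smul, add_zero, h1] at h2
    injection h2 with h3 h4
    subst h3 h4
    exact hR
  conj := fun _ _ _ h => h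
  val := by
    intro v x z z' h h'
    have h1 : z = z' := GT.isVal_unique h h'
    rw [h1]
    unfold Equivalent
    rw [id, sub_self]
    exact zero_mem _

/-! ### The morphisms -/

variable {X : Fin m → WC k} {Z : Fin l → TS k}

/-- the first part -/
def elX (X : Fin m → WC k) (t : ∀ a, Z0 (NN X l a)) : Mor X X := fun j =>
  Option.elim (show Option (Fin (X j).r → SignType) from t (.inl j))
    (Comp.const (X j).oo (on_oo (X j))) fun ε => Comp.fac j rfl (exS ε)

/-- the second part -/
def elT (w : ∀ j, (Z j).Pt) (t : ∀ a, Z0 (NN X l a)) : MorT Z Z := fun j =>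
  Option.elim (show Option Unit from t (.inr j)) (CompT.const (w j)) fun _ =>
    CompT.fac j (idT (Z j))

/-- the morphism -/
def el (w : ∀ j, (Z j).Pt) (t : ∀ a, Z0 (NN X l a)) : MorM X Z X Z := (elX X t, elT w t)

theorem elX_z {t : ∀ a, Z0 (NN X l a)} {j : Fin m} (h : t (.inl j) = Z0.z) :
    elX X t j = Comp.const (X j).oo (on_oo (X j)) := by
  unfold elX
  rw [h]
  rfl

theorem elX_s {t : ∀ a, Z0 (NN X l a)} {j : Fin m} {ε : Fin (X j).r → SignType}
    (h : t (.inl j) = Z0.s (M := NN X l (.inl j)) ε) : elX X t j = Comp.fac j rfl (exS ε) := by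
  unfold elX
  rw [h]
  rfl

theorem elT_z {w : ∀ j, (Z j).Pt} {t : ∀ a, Z0 (NN X l a)} {j : Fin l}
    (h : t (.inr j) = Z0.z) : elT w t j = CompT.const (w j) := by
  unfold elT
  rw [h]
  rfl

theorem elT_s {w : ∀ j, (Z j).Pt} {t : ∀ a, Z0 (NN X l a)} {j : Fin l} {x : NN X l (.inr j)}
    (h : t (.inr j) = Z0.s x) : elT w t j = CompT.fac j (idT (Z j)) := by
  unfold elT
  rw [h]
  rfl

/-- a point is given by its variety and its coordinates -/
private theorem pt_mul (ε ε' : ℕ → SignType) (p : Pt k) :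
    (p.mul ε').mul ε = p.mul fun b => ε b * ε' b :=
  congrArg (Sigma.mk p.1) (crd_mul_mul ε ε' p.2)

theorem elX_mul (t t' : ∀ a, Z0 (NN X l a)) (x : Pts m k) :
    Mor.app (elX X (t * t')) x = Mor.app (elX X t) (Mor.app (elX X t') x) := by
  funext j
  unfold Mor.app
  rcases (t (.inl j)).cases' with h | ⟨ε, h⟩
  · have h1 : (t * t') (.inl j) = Z0.z := by
      rw [Pi.mul_apply, h, Z0.z_mul]
    rw [elX_z h1, elX_z h]
    rfl
  · rcases (t' (.inl j)).cases' with h' | ⟨ε', h'⟩
    · have h1 : (t * t') (.inl j) = Z0.z := by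
        rw [Pi.mul_apply, h, h', Z0.s_mul_z]
      rw [elX_z h1, elX_s (ε := ε) h]
      change (⟨X j, (X j).oo⟩ : Pt k) = ((elX X t' j).app x).mul (exS (r := (X j).r) ε)
      rw [elX_z h']
      exact congrArg (Sigma.mk (X j)) (oo_mul (X j) _).symm
    · have h1 : (t * t') (.inl j) = Z0.s (ε * ε') := by
        rw [Pi.mul_apply, h, h', Z0.s_mul_s]
      rw [elX_s (ε := (ε * ε' : NN X l (.inl j))) h1, elX_s (ε := ε) h]
      change (x j).mul (exS (r := (X j).r) (ε * ε' : NN X l (.inl j))) =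
        ((elX X t' j).app x).mul (exS (r := (X j).r) ε)
      rw [elX_s (ε := ε') h']
      change _ = ((x j).mul (exS (r := (X j).r) ε')).mul (exS (r := (X j).r) ε)
      rw [pt_mul]
      congr 1
      funext b
      exact exS_mul (r := (X j).r) ε ε' b

theorem elX_one (x : Pts m k) : Mor.app (elX X (1 : ∀ a, Z0 (NN X l a))) x = x := by
  funext j
  unfold Mor.app
  have h1 : (1 : ∀ a, Z0 (NN X l a)) (.inl j) = Z0.s 1 := rfl
  rw [elX_s (ε := (1 : NN X l (.inl j))) h1]
  change (x j).mul (exS (r := (X j).r) 1) = x j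
  have h2 : exS (1 : Fin (X j).r → SignType) = fun _ => 1 := funext fun b => exS_one b
  rw [h2]
  exact congrArg (Sigma.mk (x j).1) (crd_mul_one (x j).2)

theorem elT_mul (w : ∀ j, (Z j).Pt) (t t' : ∀ a, Z0 (NN X l a)) (x : ∀ j, (Z j).Pt) (j : Fin l) :
    (elT w (t * t') j).app x = (elT w t j).app fun j => (elT w t' j).app x := by
  rcases (t (.inr j)).cases' with h | ⟨ε, h⟩
  · have h1 : (t * t') (.inr j) = Z0.z := by
      rw [Pi.mul_apply, h, Z0.z_mul]
    rw [elT_z h1, elT_z h]
    rfl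
  · rcases (t' (.inr j)).cases' with h' | ⟨ε', h'⟩
    · have h1 : (t * t') (.inr j) = Z0.z := by
        rw [Pi.mul_apply, h, h', Z0.s_mul_z]
      rw [elT_z h1, elT_s h]
      change w j = (elT w t' j).app x
      rw [elT_z h']
      rfl
    · have h1 : (t * t') (.inr j) = Z0.s (ε * ε') := by
        rw [Pi.mul_apply, h, h', Z0.s_mul_s]
      rw [elT_s h1, elT_s h]
      change x j = (elT w t' j).app x
      rw [elT_s h']
      rfl

theorem elT_one (w : ∀ j, (Z j).Pt) (x : ∀ j, (Z j).Pt) (j : Fin l) :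
    (elT w (1 : ∀ a, Z0 (NN X l a)) j).app x = x j := by
  have h1 : (1 : ∀ a, Z0 (NN X l a)) (.inr j) = Z0.s 1 := rfl
  rw [elT_s h1]
  rfl

theorem el_mul (w : ∀ j, (Z j).Pt) (t t' : ∀ a, Z0 (NN X l a)) (p : PtM m Z) :
    MorM.app (el w (t * t')) p = MorM.app (el w t) (MorM.app (el w t') p) :=
  Prod.ext (elX_mul t t' p.1) (funext fun j => elT_mul w t t' p.2 j)

theorem el_one (w : ∀ j, (Z j).Pt) (p : PtM m Z) :
    MorM.app (el w (1 : ∀ a, Z0 (NN X l a))) p = p :=
  Prod.ext (elX_one p.1) (funext fun j => elT_one (X := X) w p.2 j)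

/-! ### The projectors -/

/-- the coefficients of the projectors -/
def cfP (X : Fin m → WC k) (l : ℕ) (κ : ∀ a, Option (LL X l a)) (t : ∀ a, Z0 (NN X l a)) : ℚ :=
  ∏ a, cfZ (qq X l a) (κ a) (t a)

/-- the projectors -/
def ga (X : Fin m → WC k) (w : ∀ j, (Z j).Pt) (κ : ∀ a, Option (LL X l a)) :
    MorM X Z X Z →₀ ℚ :=
  ∑ t : ∀ a, Z0 (NN X l a), Finsupp.single (el w t) (cfP X l κ t)

theorem push_eq {m' l' : ℕ} {Y : Fin m' → WC k} {W : Fin l' → TS k} (γ : MorM X Z Y W →₀ ℚ)
    (z : PtM m Z →₀ ℚ) : push γ z = γ.sum fun f c => c • z.mapDomain (MorM.app f) := by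
  unfold push
  rw [Finsupp.sum, LinearMap.sum_apply]
  rfl

theorem push_ga (w : ∀ j, (Z j).Pt) (κ : ∀ a, Option (LL X l a)) (z : PtM m Z →₀ ℚ) :
    push (ga X w κ) z =
      ∑ t : ∀ a, Z0 (NN X l a), cfP X l κ t • z.mapDomain (MorM.app (el w t)) := by
  rw [push_eq]
  unfold ga
  rw [← Finsupp.sum_finsetSum_index (fun f => by simp) (fun f a c => by rw [add_smul])]
  exact Finset.sum_congr rfl fun U _ => Finsupp.sum_single_index (by simp)

theorem ga_idem (w : ∀ j, (Z j).Pt) (κ : ∀ a, Option (LL X l a)) (z : PtM m Z →₀ ℚ) :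
    push (ga X w κ) (push (ga X w κ) z) = push (ga X w κ) z := by
  rw [push_ga w κ z, push_ga]
  have h1 : ∀ t : ∀ a, Z0 (NN X l a), cfP X l κ t • Finsupp.mapDomain (MorM.app (el w t))
      (∑ t' : ∀ a, Z0 (NN X l a), cfP X l κ t' • z.mapDomain (MorM.app (el w t'))) =
      ∑ t' : ∀ a, Z0 (NN X l a), (cfP X l κ t * cfP X l κ t') •
        z.mapDomain (MorM.app (el w (t * t'))) := by
    intro t
    rw [Finsupp.mapDomain_finsetSum, Finset.smul_sum]
    refine Finset.sum_congr rfl fun t' _ => ?_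
    rw [Finsupp.mapDomain_smul, smul_smul, ← Finsupp.mapDomain_comp]
    congr 2
    funext x
    exact (el_mul w t t' x).symm
  rw [Finset.sum_congr rfl fun t _ => h1 t]
  exact conv_idem (fun a => cfZ (qq X l a) (κ a))
    (fun a => cfZ_conv (qq X l a) (qq_conv X l a) (κ a)) fun t => z.mapDomain (MorM.app (el w t))

theorem ga_sum (X : Fin m → WC k) (w : ∀ j, (Z j).Pt) (z : PtM m Z →₀ ℚ) :
    ∑ κ, push (ga X w κ) z = z := by
  simp only [push_ga]
  have h1 := conv_sum' (fun a => cfZ (qq X l a)) (fun a => cfZ_sum (qq X l a) (qq_sum X l a))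
    fun t => z.mapDomain (MorM.app (el w t))
  have h2 : MorM.app (el w (1 : ∀ a, Z0 (NN X l a))) = id := funext fun x => el_one w x
  rw [h2, Finsupp.mapDomain_id] at h1
  exact h1

end Pool.Agent.QTF
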