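import Pool.Agent.QTF.UqA

/-!
# The projectors kill the forms of all other degrees
-/

set_option autoImplicit false

noncomputable section

namespace Pool.Agent.QTF

open Pool.Agent.ZCyc Pool.Agent.WFC Pool.Agent.BBU
open Pool.Agent.VFP (Om tt)
open scoped Classical

variable {k : Type} [Field k] {m l : ℕ} {X : Fin m → WC k} {Z : Fin l → TS k}

/-! ### The pull-back by the morphisms `el w t` -/

/-- the factor in the pull-back of a form: the part of the class `WC` -/
def phX (X : Fin m → WC k) (T : Finset (Fin m × Option ℕ)) (j : Fin m)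
    (x : Z0 (Fin (X j).r → SignType)) : ℤ :=
  if fib T j = ∅ then 1 else
    Option.elim (show Option (Fin (X j).r → SignType) from x) 0 fun ε =>
      ∏ b ∈ fib T j, b.elim 1 fun b => ((exS ε b : SignType) : ℤ)

theorem phX_empty {T : Finset (Fin m × Option ℕ)} {j : Fin m} (h : fib T j = ∅)
    (x : Z0 (Fin (X j).r → SignType)) : phX X T j x = 1 := if_pos h

theorem phX_z {T : Finset (Fin m × Option ℕ)} {j : Fin m} (h : fib T j ≠ ∅) :
    phX X T j Z0.z = 0 := if_neg h

theorem phX_s {T : Finset (Fin m × Option ℕ)} {j : Fin m} (h : fib T j ≠ ∅)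
    (ε : Fin (X j).r → SignType) : phX X T j (Z0.s ε) =
      ∏ b ∈ fib T j, b.elim 1 fun b => ((exS ε b : SignType) : ℤ) := if_neg h

/-- the factor in the pull-back of a form: the part of the class `TS` -/
def phT (S : Finset (Fin l)) (j : Fin l) (x : Z0 Unit) : ℚ :=
  if j ∈ S then Option.elim (show Option Unit from x) 0 fun _ => 1 else 1

theorem srcX_z {t : ∀ a, Z0 (NN X l a)} {j : Fin m} (h : t (.inl j) = Z0.z) :
    (elX X t j).src = none := by
  rw [elX_z h]
  rfl

theorem srcX_s {t : ∀ a, Z0 (NN X l a)} {j : Fin m} {ε : NN X l (.inl j)}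
    (h : t (.inl j) = Z0.s ε) : (elX X t j).src = some j := by
  rw [elX_s (ε := ε) h]
  rfl

theorem srcX_eq {t : ∀ a, Z0 (NN X l a)} {j i : Fin m} (h : (elX X t j).src = some i) :
    i = j ∧ ∃ ε, t (.inl j) = Z0.s ε := by
  rcases (t (.inl j)).cases' with h1 | ⟨ε, h1⟩
  · rw [srcX_z h1] at h
    cases h
  · rw [srcX_s h1] at h
    exact ⟨(Option.some_injective _ h).symm, ε, h1⟩

theorem srcT_z {w : ∀ j, (Z j).Pt} {t : ∀ a, Z0 (NN X l a)} {j : Fin l}
    (h : t (.inr j) = Z0.z) : (elT w t j).src = none := by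
  rw [elT_z h]
  rfl

theorem srcT_s {w : ∀ j, (Z j).Pt} {t : ∀ a, Z0 (NN X l a)} {j : Fin l} {x : NN X l (.inr j)}
    (h : t (.inr j) = Z0.s x) : (elT w t j).src = some j := by
  rw [elT_s h]
  rfl

theorem srcT_eq {w : ∀ j, (Z j).Pt} {t : ∀ a, Z0 (NN X l a)} {j i : Fin l}
    (h : (elT w t j).src = some i) : i = j ∧ ∃ x, t (.inr j) = Z0.s x := by
  rcases (t (.inr j)).cases' with h1 | ⟨ε, h1⟩
  · rw [srcT_z h1] at h
    cases h
  · rw [srcT_s h1] at h
    exact ⟨(Option.some_injective _ h).symm, ε, h1⟩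

/-- the data agree -/
def SameX (T T' : Finset (Fin m × Option ℕ)) (a a' : Fin m → ℕ) : Prop :=
  ∀ j, fib T j = fib T' j ∧ (fib T' j ≠ ∅ → a j = a' j)

theorem pullCoef_el (t : ∀ a, Z0 (NN X l a)) (T T' : Finset (Fin m × Option ℕ))
    (a a' : Fin m → ℕ) : pullCoef (elX X t) T a T' a' =
      if SameX T T' a a' then ∏ j, phX X T' j (t (.inl j)) else 0 := by
  have hk : koszul (elX X t) T' = 1 := by
    unfold koszul
    refine Finset.prod_eq_one fun b _ => Finset.prod_eq_one fun b' hb' => ?_
    exfalso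
    obtain ⟨-, h1, -, -, i, i', h2, h3, h4⟩ := Finset.mem_filter.1 hb'
    have h5 := (srcX_eq h2).1
    have h6 := (srcX_eq h3).1
    subst h5 h6
    exact absurd h1 (not_lt.2 h4.le)
  unfold pullCoef
  rw [hk, one_mul]
  by_cases hS : SameX T T' a a'
  · rw [if_pos hS]
    by_cases hc : ∀ j, fib T' j ≠ ∅ → ∃ ε, t (.inl j) = Z0.s ε
    · rw [if_pos]
      · rw [Finset.prod_filter]
        refine Finset.prod_congr rfl fun j _ => ?_
        by_cases hj : fib T' j = ∅
        · rw [if_neg (not_not.2 hj), phX_empty hj]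
        · obtain ⟨ε, hε⟩ := hc j hj
          rw [if_pos hj, hε, elX_s (ε := ε) hε]
          exact (phX_s hj ε).symm
      · refine ⟨fun j hj => ?_, fun i hi => ?_⟩
        · obtain ⟨ε, hε⟩ := hc j hj
          exact ⟨j, srcX_s hε, (hS j).1, (hS j).2 hj⟩
        · rw [(hS i).1] at hi
          obtain ⟨ε, hε⟩ := hc i hi
          refine ⟨i, ⟨hi, srcX_s hε⟩, ?_⟩
          rintro j ⟨-, hj⟩
          exact (srcX_eq hj).1.symm
    · rw [if_neg]
      · push Not at hc
        obtain ⟨j, hj, hj'⟩ := hc
        symm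
        refine Finset.prod_eq_zero (Finset.mem_univ j) ?_
        rcases (t (.inl j)).cases' with h1 | ⟨ε, h1⟩
        · rw [h1]
          exact phX_z hj.ne_empty
        · exact absurd h1 (hj' ε)
      · rintro ⟨h1, -⟩
        apply hc
        intro j hj
        obtain ⟨i, hi, -, -⟩ := h1 j hj
        exact (srcX_eq hi).2
  · rw [if_neg hS, if_neg]
    rintro ⟨h1, h2⟩
    apply hS
    intro j
    by_cases hj : fib T' j = ∅
    · refine ⟨?_, fun h => absurd hj h⟩
      by_contra hne
      have h3 : fib T j ≠ ∅ := by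
        intro h4
        exact hne (h4.trans hj.symm)
      obtain ⟨j', ⟨h4, h5⟩, -⟩ := h2 j h3
      rw [← (srcX_eq h5).1] at h4
      exact h4 hj
    · obtain ⟨i, hi, h3, h4⟩ := h1 j hj
      rw [(srcX_eq hi).1] at h3 h4
      exact ⟨h3, fun _ => h4⟩

/-- the data agree -/
def SameT (S S' : Finset (Fin l)) (b b' : Fin l → ℕ) : Prop := S = S' ∧ ∀ j ∈ S', b j = b' j

theorem pullT_el (w : ∀ j, (Z j).Pt) (t : ∀ a, Z0 (NN X l a)) (S S' : Finset (Fin l))
    (b b' : Fin l → ℕ) : pullT (elT w t) S b S' b' =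
      if SameT S S' b b' then ∏ j, phT S' j (t (.inr j)) else 0 := by
  unfold pullT
  by_cases hS : SameT S S' b b'
  · rw [if_pos hS]
    by_cases hc : ∀ j ∈ S', ∃ x, t (.inr j) = Z0.s x
    · rw [if_pos]
      · rw [← Finset.prod_subset (Finset.subset_univ S')]
        · refine Finset.prod_congr rfl fun j hj => ?_
          obtain ⟨x, hx⟩ := hc j hj
          rw [elT_s hx, hx]
          unfold phT
          rw [if_pos hj]
          change ((1 : ℤ) : ℚ) / ((1 : ℕ) : ℚ) = 1
          simp
        · intro j _ hj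
          unfold phT
          rw [if_neg hj]
      · refine ⟨fun j hj => ?_, fun i hi => ?_⟩
        · obtain ⟨x, hx⟩ := hc j hj
          exact ⟨j, by rw [hS.1]; exact hj, srcT_s hx, hS.2 j hj⟩
        · rw [hS.1] at hi
          obtain ⟨x, hx⟩ := hc i hi
          refine ⟨i, ⟨hi, srcT_s hx⟩, ?_⟩
          rintro j ⟨-, hj⟩
          exact (srcT_eq hj).1.symm
    · rw [if_neg]
      · push Not at hc
        obtain ⟨j, hj, hj'⟩ := hc
        symm
        refine Finset.prod_eq_zero (Finset.mem_univ j) ?_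
        rcases (t (.inr j)).cases' with h1 | ⟨x, h1⟩
        · rw [h1]
          unfold phT
          rw [if_pos hj]
          rfl
        · exact absurd h1 (hj' x)
      · rintro ⟨h1, -⟩
        apply hc
        intro j hj
        obtain ⟨i, -, hi, -⟩ := h1 j hj
        exact (srcT_eq hi).2
  · rw [if_neg hS, if_neg]
    rintro ⟨h1, h2⟩
    apply hS
    refine ⟨?_, fun j hj => ?_⟩
    · ext j
      constructor
      · intro hj
        obtain ⟨j', ⟨h4, h5⟩, -⟩ := h2 j hj
        rw [← (srcT_eq h5).1] at h4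
        exact h4
      · intro hj
        obtain ⟨i, hi, hi', -⟩ := h1 j hj
        rw [← (srcT_eq hi').1]
        exact hi
    · obtain ⟨i, hi, hi', h3⟩ := h1 j hj
      rw [(srcT_eq hi').1] at h3
      exact h3

/-! ### One factor -/

/-- the weight of a label -/
def wtX (X : Fin m → WC k) (j : Fin m) : Option (Fin (X j).r → Fin 3) → ℕ
  | none => 0
  | some lam => (Finset.univ.filter fun i : Fin (X j).N => lam ((X j).blk i) = 2).card + 1

private lemma cfS_form (c : Fin 3) (p : Prop) [Decidable p] :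
    ∑ x, cfS c x * (if p then ((x : SignType) : ℚ) else 1) =
      if p ∧ c = 2 ∨ ¬ p ∧ c = 0 then 1 else 0 := by
  have h1 : ∀ f : SignType → ℚ, ∑ x, f x = f 0 + f (-1) + f 1 := by
    intro f
    have h2 : (Finset.univ : Finset SignType) = {0, -1, 1} := by decide
    rw [h2, Finset.sum_insert (by decide), Finset.sum_insert (by decide),
      Finset.sum_singleton, add_assoc]
  rw [h1]
  by_cases hp : p
  · fin_cases c <;> simp [cfS, hp]
    norm_num
  · fin_cases c <;> simp [cfS, hp] <;> norm_num

private lemma fib_iff {T : Finset (Fin m × Option ℕ)} {j : Fin m} {b : Option ℕ} :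
    b ∈ fib T j ↔ (j, b) ∈ T := by
  unfold fib
  rw [Finset.mem_image]
  constructor
  · rintro ⟨⟨j', b'⟩, h, rfl⟩
    obtain ⟨h1, h2⟩ := Finset.mem_filter.1 h
    dsimp only at h2
    rw [← h2]
    exact h1
  · intro h
    exact ⟨(j, b), Finset.mem_filter.2 ⟨h, rfl⟩, rfl⟩

/-- the value of the projector on a form on one factor of the class `WC` -/
theorem sum_phX (X : Fin m → WC k) (j : Fin m) (T : Finset (Fin m × Option ℕ))
    (hT : ∀ b, (j, some b) ∈ T → b < (X j).r ∧ (j, none) ∈ T)
    (lam : Option (Fin (X j).r → Fin 3))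
    (h : (if (j, none) ∈ T then cnt X T j + 1 else 0) ≠ wtX X j lam) :
    ∑ x : Z0 (Fin (X j).r → SignType),
      cfZ (fun (lam : Fin (X j).r → Fin 3) (ε : Fin (X j).r → SignType) => ∏ b, cfS (lam b) (ε b))
        lam x * ((phX X T j x : ℤ) : ℚ) = 0 := by
  have hnone : (j, none) ∈ T ↔ fib T j ≠ ∅ := by
    constructor
    · intro h1 h2
      have h3 := fib_iff.2 h1
      rw [h2] at h3
      exact absurd h3 (Finset.notMem_empty _)
    · intro h1
      obtain ⟨b, hb⟩ := Finset.nonempty_iff_ne_empty.2 h1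
      have h2 := fib_iff.1 hb
      rcases b with _ | b
      · exact h2
      · exact (hT b h2).2
  rw [Z0.sum_eq]
  by_cases hf : fib T j = ∅
  · simp only [phX_empty hf, Int.cast_one, mul_one]
    rw [if_neg (fun h1 => hnone.1 h1 hf)] at h
    rcases lam with _ | lam
    · exact absurd rfl h
    · simp only [cfZ_sz, cfZ_ss]
      rw [neg_add_cancel]
  · rw [phX_z hf]
    rcases lam with _ | lam
    · simp only [cfZ_ns, Int.cast_zero, mul_zero, zero_mul, Finset.sum_const_zero, add_zero]
    · simp only [cfZ_ss, Int.cast_zero, mul_zero, zero_add, phX_s hf]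
      have h1 : ∀ ε : Fin (X j).r → SignType,
          ((∏ b ∈ fib T j, b.elim 1 fun b => ((exS ε b : SignType) : ℤ) : ℤ) : ℚ) =
          ∏ b : Fin (X j).r, if (j, some (b : ℕ)) ∈ T then ((ε b : SignType) : ℚ) else 1 := by
        intro ε
        rw [Int.cast_prod, ← Finset.prod_filter]
        symm
        refine Finset.prod_bij_ne_one (fun (b : Fin (X j).r) _ _ => some (b : ℕ)) ?_ ?_ ?_ ?_
        · intro b hb _
          exact fib_iff.2 (Finset.mem_filter.1 hb).2
        · intro b _ _ b' _ _ hbb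
          exact Fin.ext (Option.some_injective _ hbb)
        · rintro (_ | b) hb hne
          · exact absurd (by simp) hne
          · have h2 := fib_iff.1 hb
            have h3 := (hT b h2).1
            refine ⟨⟨b, h3⟩, Finset.mem_filter.2 ⟨Finset.mem_univ _, h2⟩, ?_, rfl⟩
            intro h4
            apply hne
            rw [← h4]
            change (((exS ε b : SignType) : ℤ) : ℚ) = _
            unfold exS
            rw [dif_pos h3]
            rcases ε ⟨b, h3⟩ <;> simp
        · intro b _ _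
          change _ = (((exS ε b : SignType) : ℤ) : ℚ)
          rw [exS_fin]
          rcases ε b <;> simp
      have h2 : ∀ ε : Fin (X j).r → SignType, (∏ b, cfS (lam b) (ε b)) *
          ((∏ b ∈ fib T j, b.elim 1 fun b => ((exS ε b : SignType) : ℤ) : ℤ) : ℚ) =
          ∏ b : Fin (X j).r, cfS (lam b) (ε b) *
            (if (j, some (b : ℕ)) ∈ T then ((ε b : SignType) : ℚ) else 1) := by
        intro ε
        rw [h1, Finset.prod_mul_distrib]
      rw [Finset.sum_congr rfl fun ε _ => h2 ε]
      have h3 := Finset.prod_univ_sum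
        (fun _ : Fin (X j).r => (Finset.univ : Finset SignType))
        (fun b x => cfS (lam b) x *
          (if (j, some (b : ℕ)) ∈ T then ((x : SignType) : ℚ) else 1))
      rw [Fintype.piFinset_univ] at h3
      rw [← h3]
      by_contra hne
      have h4 : ∀ b : Fin (X j).r, ((j, some (b : ℕ)) ∈ T ↔ lam b = 2) := by
        intro b
        have h5 := (Finset.prod_ne_zero_iff.1 hne) b (Finset.mem_univ b)
        rw [cfS_form] at h5
        have h6 : (j, some (b : ℕ)) ∈ T ∧ lam b = 2 ∨ (j, some (b : ℕ)) ∉ T ∧ lam b = 0 := by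
          by_contra h7
          exact h5 (if_neg h7)
        rcases h6 with ⟨h7, h8⟩ | ⟨h7, h8⟩
        · exact ⟨fun _ => h8, fun _ => h7⟩
        · refine ⟨fun h9 => absurd h9 h7, fun h9 => ?_⟩
          rw [h8] at h9
          exact absurd h9 (by decide)
      apply h
      rw [if_pos (hnone.2 hf)]
      unfold wtX cnt
      congr 2
      ext i
      simp only [Finset.mem_filter, Finset.mem_univ, true_and]
      exact h4 _

/-- the value of the projector on a form on one factor of the class `TS` -/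
theorem sum_phT (S : Finset (Fin l)) (j : Fin l) (lam : Option Unit)
    (h : (if j ∈ S then 2 else 0) ≠ (if lam = none then 0 else 2)) :
    ∑ x : Z0 Unit, cfZ (fun (_ : Unit) (_ : Unit) => (1 : ℚ)) lam x * phT S j x = 0 := by
  rw [Z0.sum_eq]
  have h1 : ∀ x : Unit, phT S j (Z0.s x) = 1 := by
    intro x
    unfold phT
    split_ifs
    · rfl
    · rfl
  have h2 : phT S j (Z0.z : Z0 Unit) = if j ∈ S then 0 else 1 := rfl
  simp only [h1, h2, mul_one]
  rcases lam with _ | u
  · by_cases hj : j ∈ S
    · simp [hj, cfZ_ns]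
    · exact absurd (by simp [hj]) h
  · by_cases hj : j ∈ S
    · exact absurd (by simp [hj]) h
    · simp [hj, cfZ_sz, cfZ_ss]

/-! ### Products -/

/-- the weight of a label -/
def wtL (X : Fin m → WC k) (l : ℕ) (κ : ∀ a, Option (LL X l a)) : ℕ :=
  ∑ j, wtX X j (show Option (Fin (X j).r → Fin 3) from κ (.inl j)) +
    ∑ j : Fin l, if (show Option Unit from κ (.inr j)) = none then 0 else 2

/-- the projector `ga κ` kills the forms of all degrees different from the weight of `κ` -/
theorem ga_kills (X : Fin m → WC k) (w : ∀ j, (Z j).Pt) (κ : ∀ a, Option (LL X l a)) {ν : ℕ}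
    (hν : ν ≠ wtL X l κ) : KillsForms (ga X w κ) ν := by
  intro T a T' a' S b S' b' _ hT' _ _ _ hdeg
  unfold ga
  rw [← Finsupp.sum_finsetSum_index (fun f => by simp) (fun f a c => by rw [add_mul])]
  have h1 : ∀ t : ∀ a, Z0 (NN X l a), (Finsupp.single (el w t) (cfP X l κ t)).sum
      (fun f c => c * (pullCoef f.1 T a T' a' * pullT f.2 S b S' b')) =
      if SameX T T' a a' ∧ SameT S S' b b' then
        (∏ j, cfZ (qq X l (.inl j)) (κ (.inl j)) (t (.inl j)) *
          ((phX X T' j (t (.inl j)) : ℤ) : ℚ)) *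
          ∏ j, cfZ (qq X l (.inr j)) (κ (.inr j)) (t (.inr j)) * phT S' j (t (.inr j))
        else 0 := by
    intro t
    rw [Finsupp.sum_single_index (by simp)]
    change _ * ((pullCoef (elX X t) T a T' a' : ℚ) * pullT (elT w t) S b S' b') = _
    rw [pullCoef_el, pullT_el]
    by_cases hX : SameX T T' a a'
    · by_cases hT : SameT S S' b b'
      · rw [if_pos hX, if_pos hT, if_pos ⟨hX, hT⟩, Int.cast_prod]
        unfold cfP
        rw [Fintype.prod_sum_type, Finset.prod_mul_distrib, Finset.prod_mul_distrib]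
        ring
      · rw [if_neg hT, if_neg (show ¬ (SameX T T' a a' ∧ SameT S S' b b') from
          fun h => hT h.2), mul_zero, mul_zero]
    · rw [if_neg hX, if_neg (show ¬ (SameX T T' a a' ∧ SameT S S' b b') from
        fun h => hX h.1), Int.cast_zero, zero_mul, mul_zero]
  rw [Finset.sum_congr rfl fun t _ => h1 t]
  by_cases hc : SameX T T' a a' ∧ SameT S S' b b'
  swap
  · simp only [if_neg hc, Finset.sum_const_zero]
  simp only [if_pos hc]
  have h2 := Finset.prod_univ_sum (ι := Fin m ⊕ Fin l)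
    (fun a => (Finset.univ : Finset (Z0 (NN X l a))))
    (fun a => (match a with
      | .inl j => fun x => cfZ (qq X l (.inl j)) (κ (.inl j)) x * ((phX X T' j x : ℤ) : ℚ)
      | .inr j => fun x => cfZ (qq X l (.inr j)) (κ (.inr j)) x * phT S' j x :
        Z0 (NN X l a) → ℚ))
  rw [Fintype.piFinset_univ] at h2
  simp only [Fintype.prod_sum_type] at h2
  rw [← h2]
  have h3 : (∃ j, (if (j, none) ∈ T' then cnt X T' j + 1 else 0) ≠
      wtX X j (show Option (Fin (X j).r → Fin 3) from κ (.inl j))) ∨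
      ∃ j, (if j ∈ S' then 2 else 0) ≠
        (if (show Option Unit from κ (.inr j)) = none then 0 else 2) := by
    by_contra hcon
    push Not at hcon
    apply hν
    rw [← hdeg]
    unfold wtL wt
    rw [Finset.sum_congr rfl fun j _ => hcon.1 j, Finset.sum_congr rfl fun j _ => (hcon.2 j).symm,
      Finset.sum_ite_mem, Finset.univ_inter, Finset.sum_const, smul_eq_mul, mul_comm]
  rcases h3 with ⟨j, hj⟩ | ⟨j, hj⟩
  · rw [Finset.prod_eq_zero (Finset.mem_univ j), zero_mul]
    exact sum_phX X j T' (fun b hb => hT'.1 j b hb) _ hj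
  · rw [Finset.prod_eq_zero (s := Finset.univ (α := Fin l)) (Finset.mem_univ j), mul_zero]
    exact sum_phT S' j _ hj

end Pool.Agent.QTF
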